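import Pool.Agent.Work.MP_3c38ca_co.Base

/-!
Explicit labelings for `m = 8 t + 10` and `m = 8 t + 22`.
-/

namespace Pool.Agent.Results.MP_3c38ca_co.CycleWithStar

/-- labels, class C -/
def wC (t i : ℕ) : ℤ :=
    if i = 0 then 0
    else if i < 4 * t + 5 ∧ i % 2 = 1 then 4 * (t : ℤ) + 5 - ((i / 2 : ℕ) : ℤ)
    else if i < 4 * t + 5 then -((i / 2 : ℕ) : ℤ) - 1
    else if i = 4 * t + 5 then 2 * (t : ℤ) + 3
    else if i = 8 * t + 6 then 1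
    else if i = 8 * t + 7 then -4 * (t : ℤ) - 4
    else if i = 8 * t + 8 then 2
    else if i = 8 * t + 9 then -4 * (t : ℤ) - 6
    else if (i - (4 * t + 6)) % 4 = 0 then 2 * (t : ℤ) + 1 - 2 * (((i - (4 * t + 6)) / 4 : ℕ) : ℤ)
    else if (i - (4 * t + 6)) % 4 = 1 then -2 * (t : ℤ) - 5 - 2 * (((i - (4 * t + 6)) / 4 : ℕ) : ℤ)
    else if (i - (4 * t + 6)) % 4 = 2 then 2 * (t : ℤ) + 2 - 2 * (((i - (4 * t + 6)) / 4 : ℕ) : ℤ)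
    else -2 * (t : ℤ) - 4 - 2 * (((i - (4 * t + 6)) / 4 : ℕ) : ℤ)

/-- edge sums, class C -/
def sC (t i : ℕ) : ℤ :=
    if i = 0 then 4 * (t : ℤ) + 5
    else if i < 4 * t + 5 ∧ i % 2 = 1 then 4 * (t : ℤ) + 3 - 2 * ((i / 2 : ℕ) : ℤ)
    else if i < 4 * t + 5 then 4 * (t : ℤ) + 4 - 2 * ((i / 2 : ℕ) : ℤ)
    else if i = 4 * t + 5 then 4 * (t : ℤ) + 4
    else if i = 8 * t + 6 then -4 * (t : ℤ) - 3
    else if i = 8 * t + 7 then -4 * (t : ℤ) - 2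
    else if i = 8 * t + 8 then -4 * (t : ℤ) - 4
    else if i = 8 * t + 9 then -4 * (t : ℤ) - 6
    else if (i - (4 * t + 6)) % 4 = 0 then -4 - 4 * (((i - (4 * t + 6)) / 4 : ℕ) : ℤ)
    else if (i - (4 * t + 6)) % 4 = 1 then -3 - 4 * (((i - (4 * t + 6)) / 4 : ℕ) : ℤ)
    else if (i - (4 * t + 6)) % 4 = 2 then -2 - 4 * (((i - (4 * t + 6)) / 4 : ℕ) : ℤ)
    else -5 - 4 * (((i - (4 * t + 6)) / 4 : ℕ) : ℤ)

theorem cC (t i : ℕ) (hi : i < 8 * t + 10) :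
    (i = 0 ∧ wC t i = 0 ∧ sC t i = 4 * (t : ℤ) + 5) ∨
    (∃ b : ℕ, i = 2 * b + 1 ∧ i < 4 * t + 5 ∧ wC t i = 4 * (t : ℤ) + 5 - (b : ℤ) ∧ sC t i = 4 * (t : ℤ) + 3 - 2 * (b : ℤ)) ∨
    (∃ b : ℕ, i = 2 * b ∧ i < 4 * t + 5 ∧ 0 < i ∧ wC t i = -(b : ℤ) - 1 ∧ sC t i = 4 * (t : ℤ) + 4 - 2 * (b : ℤ)) ∨
    (i = 4 * t + 5 ∧ wC t i = 2 * (t : ℤ) + 3 ∧ sC t i = 4 * (t : ℤ) + 4) ∨
    (i = 8 * t + 6 ∧ wC t i = 1 ∧ sC t i = -4 * (t : ℤ) - 3) ∨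
    (i = 8 * t + 7 ∧ wC t i = -4 * (t : ℤ) - 4 ∧ sC t i = -4 * (t : ℤ) - 2) ∨
    (i = 8 * t + 8 ∧ wC t i = 2 ∧ sC t i = -4 * (t : ℤ) - 4) ∨
    (i = 8 * t + 9 ∧ wC t i = -4 * (t : ℤ) - 6 ∧ sC t i = -4 * (t : ℤ) - 6) ∨
    (∃ b : ℕ, i = 4 * t + 6 + 4 * b ∧ b < t ∧ wC t i = 2 * (t : ℤ) + 1 - 2 * (b : ℤ) ∧ sC t i = -4 - 4 * (b : ℤ)) ∨
    (∃ b : ℕ, i = 4 * t + 7 + 4 * b ∧ b < t ∧ wC t i = -2 * (t : ℤ) - 5 - 2 * (b : ℤ) ∧ sC t i = -3 - 4 * (b : ℤ)) ∨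
    (∃ b : ℕ, i = 4 * t + 8 + 4 * b ∧ b < t ∧ wC t i = 2 * (t : ℤ) + 2 - 2 * (b : ℤ) ∧ sC t i = -2 - 4 * (b : ℤ)) ∨
    (∃ b : ℕ, i = 4 * t + 9 + 4 * b ∧ b < t ∧ wC t i = -2 * (t : ℤ) - 4 - 2 * (b : ℤ) ∧ sC t i = -5 - 4 * (b : ℤ)) := by
  by_cases h0 : i = 0
  · left
    refine ⟨by omega, ?_, ?_⟩
    · unfold wC; rw [if_pos h0]
    · unfold sC; rw [if_pos h0]
  by_cases h1 : i < 4 * t + 5 ∧ i % 2 = 1
  · right; left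
    refine ⟨i / 2, by omega, by omega, ?_, ?_⟩
    · unfold wC; rw [if_neg h0, if_pos h1]
    · unfold sC; rw [if_neg h0, if_pos h1]
  by_cases h2 : i < 4 * t + 5
  · right; right; left
    refine ⟨i / 2, by omega, by omega, by omega, ?_, ?_⟩
    · unfold wC; rw [if_neg h0, if_neg h1, if_pos h2]
    · unfold sC; rw [if_neg h0, if_neg h1, if_pos h2]
  by_cases h3 : i = 4 * t + 5
  · right; right; right; left
    refine ⟨by omega, ?_, ?_⟩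
    · unfold wC; rw [if_neg h0, if_neg h1, if_neg h2, if_pos h3]
    · unfold sC; rw [if_neg h0, if_neg h1, if_neg h2, if_pos h3]
  by_cases h4 : i = 8 * t + 6
  · right; right; right; right; left
    refine ⟨by omega, ?_, ?_⟩
    · unfold wC; rw [if_neg h0, if_neg h1, if_neg h2, if_neg h3, if_pos h4]
    · unfold sC; rw [if_neg h0, if_neg h1, if_neg h2, if_neg h3, if_pos h4]
  by_cases h5 : i = 8 * t + 7
  · right; right; right; right; right; left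
    refine ⟨by omega, ?_, ?_⟩
    · unfold wC; rw [if_neg h0, if_neg h1, if_neg h2, if_neg h3, if_neg h4, if_pos h5]
    · unfold sC; rw [if_neg h0, if_neg h1, if_neg h2, if_neg h3, if_neg h4, if_pos h5]
  by_cases h6 : i = 8 * t + 8
  · right; right; right; right; right; right; left
    refine ⟨by omega, ?_, ?_⟩
    · unfold wC; rw [if_neg h0, if_neg h1, if_neg h2, if_neg h3, if_neg h4, if_neg h5, if_pos h6]
    · unfold sC; rw [if_neg h0, if_neg h1, if_neg h2, if_neg h3, if_neg h4, if_neg h5, if_pos h6]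
  by_cases h7 : i = 8 * t + 9
  · right; right; right; right; right; right; right; left
    refine ⟨by omega, ?_, ?_⟩
    · unfold wC; rw [if_neg h0, if_neg h1, if_neg h2, if_neg h3, if_neg h4, if_neg h5, if_neg h6, if_pos h7]
    · unfold sC; rw [if_neg h0, if_neg h1, if_neg h2, if_neg h3, if_neg h4, if_neg h5, if_neg h6, if_pos h7]
  by_cases h8 : (i - (4 * t + 6)) % 4 = 0
  · right; right; right; right; right; right; right; right; left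
    refine ⟨(i - (4 * t + 6)) / 4, by omega, by omega, ?_, ?_⟩
    · unfold wC; rw [if_neg h0, if_neg h1, if_neg h2, if_neg h3, if_neg h4, if_neg h5, if_neg h6, if_neg h7, if_pos h8]
    · unfold sC; rw [if_neg h0, if_neg h1, if_neg h2, if_neg h3, if_neg h4, if_neg h5, if_neg h6, if_neg h7, if_pos h8]
  by_cases h9 : (i - (4 * t + 6)) % 4 = 1
  · right; right; right; right; right; right; right; right; right; left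
    refine ⟨(i - (4 * t + 6)) / 4, by omega, by omega, ?_, ?_⟩
    · unfold wC; rw [if_neg h0, if_neg h1, if_neg h2, if_neg h3, if_neg h4, if_neg h5, if_neg h6, if_neg h7, if_neg h8, if_pos h9]
    · unfold sC; rw [if_neg h0, if_neg h1, if_neg h2, if_neg h3, if_neg h4, if_neg h5, if_neg h6, if_neg h7, if_neg h8, if_pos h9]
  by_cases h10 : (i - (4 * t + 6)) % 4 = 2
  · right; right; right; right; right; right; right; right; right; right; left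
    refine ⟨(i - (4 * t + 6)) / 4, by omega, by omega, ?_, ?_⟩
    · unfold wC; rw [if_neg h0, if_neg h1, if_neg h2, if_neg h3, if_neg h4, if_neg h5, if_neg h6, if_neg h7, if_neg h8, if_neg h9, if_pos h10]
    · unfold sC; rw [if_neg h0, if_neg h1, if_neg h2, if_neg h3, if_neg h4, if_neg h5, if_neg h6, if_neg h7, if_neg h8, if_neg h9, if_pos h10]
  right; right; right; right; right; right; right; right; right; right; right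
  refine ⟨(i - (4 * t + 6)) / 4, by omega, by omega, ?_, ?_⟩
  · unfold wC; rw [if_neg h0, if_neg h1, if_neg h2, if_neg h3, if_neg h4, if_neg h5, if_neg h6, if_neg h7, if_neg h8, if_neg h9, if_neg h10]
  · unfold sC; rw [if_neg h0, if_neg h1, if_neg h2, if_neg h3, if_neg h4, if_neg h5, if_neg h6, if_neg h7, if_neg h8, if_neg h9, if_neg h10]

theorem pos_C {k : ℕ} (hk : 2 ≤ k) (t : ℕ) : Harmonious (cycleStar (2 * (4 * t + 5)) k) := by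
  apply of_even (N := 4 * t + 5) (by omega) hk (wC t) (sC t)
  · rfl
  · intro i hi
    have h := cC t i (by omega)
    push_cast
    rcases h with ⟨a1, a2, a3⟩ | ⟨ab, a1, a2, a3, a4⟩ | ⟨ab, a1, a2, a3, a4, a5⟩ | ⟨a1, a2, a3⟩ | ⟨a1, a2, a3⟩ | ⟨a1, a2, a3⟩ | ⟨a1, a2, a3⟩ | ⟨a1, a2, a3⟩ | ⟨ab, a1, a2, a3, a4⟩ | ⟨ab, a1, a2, a3, a4⟩ | ⟨ab, a1, a2, a3, a4⟩ | ⟨ab, a1, a2, a3, a4⟩ <;> omega
  · intro i j hi hj hij
    have h := cC t i (by omega)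
    have h' := cC t j (by omega)
    rcases h with ⟨a1, a2, a3⟩ | ⟨ab, a1, a2, a3, a4⟩ | ⟨ab, a1, a2, a3, a4, a5⟩ | ⟨a1, a2, a3⟩ | ⟨a1, a2, a3⟩ | ⟨a1, a2, a3⟩ | ⟨a1, a2, a3⟩ | ⟨a1, a2, a3⟩ | ⟨ab, a1, a2, a3, a4⟩ | ⟨ab, a1, a2, a3, a4⟩ | ⟨ab, a1, a2, a3, a4⟩ | ⟨ab, a1, a2, a3, a4⟩ <;>
      rcases h' with ⟨c1, c2, c3⟩ | ⟨cb, c1, c2, c3, c4⟩ | ⟨cb, c1, c2, c3, c4, c5⟩ | ⟨c1, c2, c3⟩ | ⟨c1, c2, c3⟩ | ⟨c1, c2, c3⟩ | ⟨c1, c2, c3⟩ | ⟨c1, c2, c3⟩ | ⟨cb, c1, c2, c3, c4⟩ | ⟨cb, c1, c2, c3, c4⟩ | ⟨cb, c1, c2, c3, c4⟩ | ⟨cb, c1, c2, c3, c4⟩ <;> omega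
  · intro i hi
    have h := cC t i (by omega)
    have h' := cC t (i + 1) (by omega)
    rcases h with ⟨a1, a2, a3⟩ | ⟨ab, a1, a2, a3, a4⟩ | ⟨ab, a1, a2, a3, a4, a5⟩ | ⟨a1, a2, a3⟩ | ⟨a1, a2, a3⟩ | ⟨a1, a2, a3⟩ | ⟨a1, a2, a3⟩ | ⟨a1, a2, a3⟩ | ⟨ab, a1, a2, a3, a4⟩ | ⟨ab, a1, a2, a3, a4⟩ | ⟨ab, a1, a2, a3, a4⟩ | ⟨ab, a1, a2, a3, a4⟩ <;>
      rcases h' with ⟨c1, c2, c3⟩ | ⟨cb, c1, c2, c3, c4⟩ | ⟨cb, c1, c2, c3, c4, c5⟩ | ⟨c1, c2, c3⟩ | ⟨c1, c2, c3⟩ | ⟨c1, c2, c3⟩ | ⟨c1, c2, c3⟩ | ⟨c1, c2, c3⟩ | ⟨cb, c1, c2, c3, c4⟩ | ⟨cb, c1, c2, c3, c4⟩ | ⟨cb, c1, c2, c3, c4⟩ | ⟨cb, c1, c2, c3, c4⟩ <;> omega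
  · have h := cC t (2 * (4 * t + 5) - 1) (by omega)
    rcases h with ⟨a1, a2, a3⟩ | ⟨ab, a1, a2, a3, a4⟩ | ⟨ab, a1, a2, a3, a4, a5⟩ | ⟨a1, a2, a3⟩ | ⟨a1, a2, a3⟩ | ⟨a1, a2, a3⟩ | ⟨a1, a2, a3⟩ | ⟨a1, a2, a3⟩ | ⟨ab, a1, a2, a3, a4⟩ | ⟨ab, a1, a2, a3, a4⟩ | ⟨ab, a1, a2, a3, a4⟩ | ⟨ab, a1, a2, a3, a4⟩ <;> omega
  · intro i hi
    have h := cC t i (by omega)
    push_cast
    rcases h with ⟨a1, a2, a3⟩ | ⟨ab, a1, a2, a3, a4⟩ | ⟨ab, a1, a2, a3, a4, a5⟩ | ⟨a1, a2, a3⟩ | ⟨a1, a2, a3⟩ | ⟨a1, a2, a3⟩ | ⟨a1, a2, a3⟩ | ⟨a1, a2, a3⟩ | ⟨ab, a1, a2, a3, a4⟩ | ⟨ab, a1, a2, a3, a4⟩ | ⟨ab, a1, a2, a3, a4⟩ | ⟨ab, a1, a2, a3, a4⟩ <;> omega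
  · intro i j hi hj hij
    have h := cC t i (by omega)
    have h' := cC t j (by omega)
    rcases h with ⟨a1, a2, a3⟩ | ⟨ab, a1, a2, a3, a4⟩ | ⟨ab, a1, a2, a3, a4, a5⟩ | ⟨a1, a2, a3⟩ | ⟨a1, a2, a3⟩ | ⟨a1, a2, a3⟩ | ⟨a1, a2, a3⟩ | ⟨a1, a2, a3⟩ | ⟨ab, a1, a2, a3, a4⟩ | ⟨ab, a1, a2, a3, a4⟩ | ⟨ab, a1, a2, a3, a4⟩ | ⟨ab, a1, a2, a3, a4⟩ <;>
      rcases h' with ⟨c1, c2, c3⟩ | ⟨cb, c1, c2, c3, c4⟩ | ⟨cb, c1, c2, c3, c4, c5⟩ | ⟨c1, c2, c3⟩ | ⟨c1, c2, c3⟩ | ⟨c1, c2, c3⟩ | ⟨c1, c2, c3⟩ | ⟨c1, c2, c3⟩ | ⟨cb, c1, c2, c3, c4⟩ | ⟨cb, c1, c2, c3, c4⟩ | ⟨cb, c1, c2, c3, c4⟩ | ⟨cb, c1, c2, c3, c4⟩ <;> omega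

/-- labels, class D -/
def wD (t i : ℕ) : ℤ :=
    if i = 0 then 0
    else if i < 4 * t + 11 ∧ i % 2 = 1 then 4 * (t : ℤ) + 11 - ((i / 2 : ℕ) : ℤ)
    else if i < 4 * t + 11 then -((i / 2 : ℕ) : ℤ) - 1
    else if i = 4 * t + 11 then 2 * (t : ℤ) + 6
    else if i = 4 * t + 12 then 2 * (t : ℤ) + 4
    else if i = 4 * t + 13 then -2 * (t : ℤ) - 7
    else if i = 4 * t + 14 then 2 * (t : ℤ) + 5
    else if i = 4 * t + 15 then -2 * (t : ℤ) - 9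
    else if i = 4 * t + 16 then 2 * (t : ℤ) + 3
    else if i = 4 * t + 17 then -2 * (t : ℤ) - 8
    else if i = 8 * t + 18 then 1
    else if i = 8 * t + 19 then -4 * (t : ℤ) - 10
    else if i = 8 * t + 20 then 2
    else if i = 8 * t + 21 then -4 * (t : ℤ) - 12
    else if (i - (4 * t + 18)) % 4 = 0 then 2 * (t : ℤ) + 1 - 2 * (((i - (4 * t + 18)) / 4 : ℕ) : ℤ)
    else if (i - (4 * t + 18)) % 4 = 1 then -2 * (t : ℤ) - 11 - 2 * (((i - (4 * t + 18)) / 4 : ℕ) : ℤ)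
    else if (i - (4 * t + 18)) % 4 = 2 then 2 * (t : ℤ) + 2 - 2 * (((i - (4 * t + 18)) / 4 : ℕ) : ℤ)
    else -2 * (t : ℤ) - 10 - 2 * (((i - (4 * t + 18)) / 4 : ℕ) : ℤ)

/-- edge sums, class D -/
def sD (t i : ℕ) : ℤ :=
    if i = 0 then 4 * (t : ℤ) + 11
    else if i < 4 * t + 11 ∧ i % 2 = 1 then 4 * (t : ℤ) + 9 - 2 * ((i / 2 : ℕ) : ℤ)
    else if i < 4 * t + 11 then 4 * (t : ℤ) + 10 - 2 * ((i / 2 : ℕ) : ℤ)
    else if i = 4 * t + 11 then 4 * (t : ℤ) + 10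
    else if i = 4 * t + 12 then -3
    else if i = 4 * t + 13 then -2
    else if i = 4 * t + 14 then -4
    else if i = 4 * t + 15 then -6
    else if i = 4 * t + 16 then -5
    else if i = 4 * t + 17 then -7
    else if i = 8 * t + 18 then -4 * (t : ℤ) - 9
    else if i = 8 * t + 19 then -4 * (t : ℤ) - 8
    else if i = 8 * t + 20 then -4 * (t : ℤ) - 10
    else if i = 8 * t + 21 then -4 * (t : ℤ) - 12
    else if (i - (4 * t + 18)) % 4 = 0 then -10 - 4 * (((i - (4 * t + 18)) / 4 : ℕ) : ℤ)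
    else if (i - (4 * t + 18)) % 4 = 1 then -9 - 4 * (((i - (4 * t + 18)) / 4 : ℕ) : ℤ)
    else if (i - (4 * t + 18)) % 4 = 2 then -8 - 4 * (((i - (4 * t + 18)) / 4 : ℕ) : ℤ)
    else -11 - 4 * (((i - (4 * t + 18)) / 4 : ℕ) : ℤ)

theorem cD (t i : ℕ) (hi : i < 8 * t + 22) :
    (i = 0 ∧ wD t i = 0 ∧ sD t i = 4 * (t : ℤ) + 11) ∨
    (∃ b : ℕ, i = 2 * b + 1 ∧ i < 4 * t + 11 ∧ wD t i = 4 * (t : ℤ) + 11 - (b : ℤ) ∧ sD t i = 4 * (t : ℤ) + 9 - 2 * (b : ℤ)) ∨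
    (∃ b : ℕ, i = 2 * b ∧ i < 4 * t + 11 ∧ 0 < i ∧ wD t i = -(b : ℤ) - 1 ∧ sD t i = 4 * (t : ℤ) + 10 - 2 * (b : ℤ)) ∨
    (i = 4 * t + 11 ∧ wD t i = 2 * (t : ℤ) + 6 ∧ sD t i = 4 * (t : ℤ) + 10) ∨
    (i = 4 * t + 12 ∧ wD t i = 2 * (t : ℤ) + 4 ∧ sD t i = -3) ∨
    (i = 4 * t + 13 ∧ wD t i = -2 * (t : ℤ) - 7 ∧ sD t i = -2) ∨
    (i = 4 * t + 14 ∧ wD t i = 2 * (t : ℤ) + 5 ∧ sD t i = -4) ∨
    (i = 4 * t + 15 ∧ wD t i = -2 * (t : ℤ) - 9 ∧ sD t i = -6) ∨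
    (i = 4 * t + 16 ∧ wD t i = 2 * (t : ℤ) + 3 ∧ sD t i = -5) ∨
    (i = 4 * t + 17 ∧ wD t i = -2 * (t : ℤ) - 8 ∧ sD t i = -7) ∨
    (i = 8 * t + 18 ∧ wD t i = 1 ∧ sD t i = -4 * (t : ℤ) - 9) ∨
    (i = 8 * t + 19 ∧ wD t i = -4 * (t : ℤ) - 10 ∧ sD t i = -4 * (t : ℤ) - 8) ∨
    (i = 8 * t + 20 ∧ wD t i = 2 ∧ sD t i = -4 * (t : ℤ) - 10) ∨
    (i = 8 * t + 21 ∧ wD t i = -4 * (t : ℤ) - 12 ∧ sD t i = -4 * (t : ℤ) - 12) ∨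
    (∃ b : ℕ, i = 4 * t + 18 + 4 * b ∧ b < t ∧ wD t i = 2 * (t : ℤ) + 1 - 2 * (b : ℤ) ∧ sD t i = -10 - 4 * (b : ℤ)) ∨
    (∃ b : ℕ, i = 4 * t + 19 + 4 * b ∧ b < t ∧ wD t i = -2 * (t : ℤ) - 11 - 2 * (b : ℤ) ∧ sD t i = -9 - 4 * (b : ℤ)) ∨
    (∃ b : ℕ, i = 4 * t + 20 + 4 * b ∧ b < t ∧ wD t i = 2 * (t : ℤ) + 2 - 2 * (b : ℤ) ∧ sD t i = -8 - 4 * (b : ℤ)) ∨
    (∃ b : ℕ, i = 4 * t + 21 + 4 * b ∧ b < t ∧ wD t i = -2 * (t : ℤ) - 10 - 2 * (b : ℤ) ∧ sD t i = -11 - 4 * (b : ℤ)) := by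
  by_cases h0 : i = 0
  · left
    refine ⟨by omega, ?_, ?_⟩
    · unfold wD; rw [if_pos h0]
    · unfold sD; rw [if_pos h0]
  by_cases h1 : i < 4 * t + 11 ∧ i % 2 = 1
  · right; left
    refine ⟨i / 2, by omega, by omega, ?_, ?_⟩
    · unfold wD; rw [if_neg h0, if_pos h1]
    · unfold sD; rw [if_neg h0, if_pos h1]
  by_cases h2 : i < 4 * t + 11
  · right; right; left
    refine ⟨i / 2, by omega, by omega, by omega, ?_, ?_⟩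
    · unfold wD; rw [if_neg h0, if_neg h1, if_pos h2]
    · unfold sD; rw [if_neg h0, if_neg h1, if_pos h2]
  by_cases h3 : i = 4 * t + 11
  · right; right; right; left
    refine ⟨by omega, ?_, ?_⟩
    · unfold wD; rw [if_neg h0, if_neg h1, if_neg h2, if_pos h3]
    · unfold sD; rw [if_neg h0, if_neg h1, if_neg h2, if_pos h3]
  by_cases h4 : i = 4 * t + 12
  · right; right; right; right; left
    refine ⟨by omega, ?_, ?_⟩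
    · unfold wD; rw [if_neg h0, if_neg h1, if_neg h2, if_neg h3, if_pos h4]
    · unfold sD; rw [if_neg h0, if_neg h1, if_neg h2, if_neg h3, if_pos h4]
  by_cases h5 : i = 4 * t + 13
  · right; right; right; right; right; left
    refine ⟨by omega, ?_, ?_⟩
    · unfold wD; rw [if_neg h0, if_neg h1, if_neg h2, if_neg h3, if_neg h4, if_pos h5]
    · unfold sD; rw [if_neg h0, if_neg h1, if_neg h2, if_neg h3, if_neg h4, if_pos h5]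
  by_cases h6 : i = 4 * t + 14
  · right; right; right; right; right; right; left
    refine ⟨by omega, ?_, ?_⟩
    · unfold wD; rw [if_neg h0, if_neg h1, if_neg h2, if_neg h3, if_neg h4, if_neg h5, if_pos h6]
    · unfold sD; rw [if_neg h0, if_neg h1, if_neg h2, if_neg h3, if_neg h4, if_neg h5, if_pos h6]
  by_cases h7 : i = 4 * t + 15
  · right; right; right; right; right; right; right; left
    refine ⟨by omega, ?_, ?_⟩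
    · unfold wD; rw [if_neg h0, if_neg h1, if_neg h2, if_neg h3, if_neg h4, if_neg h5, if_neg h6, if_pos h7]
    · unfold sD; rw [if_neg h0, if_neg h1, if_neg h2, if_neg h3, if_neg h4, if_neg h5, if_neg h6, if_pos h7]
  by_cases h8 : i = 4 * t + 16
  · right; right; right; right; right; right; right; right; left
    refine ⟨by omega, ?_, ?_⟩
    · unfold wD; rw [if_neg h0, if_neg h1, if_neg h2, if_neg h3, if_neg h4, if_neg h5, if_neg h6, if_neg h7, if_pos h8]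
    · unfold sD; rw [if_neg h0, if_neg h1, if_neg h2, if_neg h3, if_neg h4, if_neg h5, if_neg h6, if_neg h7, if_pos h8]
  by_cases h9 : i = 4 * t + 17
  · right; right; right; right; right; right; right; right; right; left
    refine ⟨by omega, ?_, ?_⟩
    · unfold wD; rw [if_neg h0, if_neg h1, if_neg h2, if_neg h3, if_neg h4, if_neg h5, if_neg h6, if_neg h7, if_neg h8, if_pos h9]
    · unfold sD; rw [if_neg h0, if_neg h1, if_neg h2, if_neg h3, if_neg h4, if_neg h5, if_neg h6, if_neg h7, if_neg h8, if_pos h9]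
  by_cases h10 : i = 8 * t + 18
  · right; right; right; right; right; right; right; right; right; right; left
    refine ⟨by omega, ?_, ?_⟩
    · unfold wD; rw [if_neg h0, if_neg h1, if_neg h2, if_neg h3, if_neg h4, if_neg h5, if_neg h6, if_neg h7, if_neg h8, if_neg h9, if_pos h10]
    · unfold sD; rw [if_neg h0, if_neg h1, if_neg h2, if_neg h3, if_neg h4, if_neg h5, if_neg h6, if_neg h7, if_neg h8, if_neg h9, if_pos h10]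
  by_cases h11 : i = 8 * t + 19
  · right; right; right; right; right; right; right; right; right; right; right; left
    refine ⟨by omega, ?_, ?_⟩
    · unfold wD; rw [if_neg h0, if_neg h1, if_neg h2, if_neg h3, if_neg h4, if_neg h5, if_neg h6, if_neg h7, if_neg h8, if_neg h9, if_neg h10, if_pos h11]
    · unfold sD; rw [if_neg h0, if_neg h1, if_neg h2, if_neg h3, if_neg h4, if_neg h5, if_neg h6, if_neg h7, if_neg h8, if_neg h9, if_neg h10, if_pos h11]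
  by_cases h12 : i = 8 * t + 20
  · right; right; right; right; right; right; right; right; right; right; right; right; left
    refine ⟨by omega, ?_, ?_⟩
    · unfold wD; rw [if_neg h0, if_neg h1, if_neg h2, if_neg h3, if_neg h4, if_neg h5, if_neg h6, if_neg h7, if_neg h8, if_neg h9, if_neg h10, if_neg h11, if_pos h12]
    · unfold sD; rw [if_neg h0, if_neg h1, if_neg h2, if_neg h3, if_neg h4, if_neg h5, if_neg h6, if_neg h7, if_neg h8, if_neg h9, if_neg h10, if_neg h11, if_pos h12]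
  by_cases h13 : i = 8 * t + 21
  · right; right; right; right; right; right; right; right; right; right; right; right; right; left
    refine ⟨by omega, ?_, ?_⟩
    · unfold wD; rw [if_neg h0, if_neg h1, if_neg h2, if_neg h3, if_neg h4, if_neg h5, if_neg h6, if_neg h7, if_neg h8, if_neg h9, if_neg h10, if_neg h11, if_neg h12, if_pos h13]
    · unfold sD; rw [if_neg h0, if_neg h1, if_neg h2, if_neg h3, if_neg h4, if_neg h5, if_neg h6, if_neg h7, if_neg h8, if_neg h9, if_neg h10, if_neg h11, if_neg h12, if_pos h13]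
  by_cases h14 : (i - (4 * t + 18)) % 4 = 0
  · right; right; right; right; right; right; right; right; right; right; right; right; right; right; left
    refine ⟨(i - (4 * t + 18)) / 4, by omega, by omega, ?_, ?_⟩
    · unfold wD; rw [if_neg h0, if_neg h1, if_neg h2, if_neg h3, if_neg h4, if_neg h5, if_neg h6, if_neg h7, if_neg h8, if_neg h9, if_neg h10, if_neg h11, if_neg h12, if_neg h13, if_pos h14]
    · unfold sD; rw [if_neg h0, if_neg h1, if_neg h2, if_neg h3, if_neg h4, if_neg h5, if_neg h6, if_neg h7, if_neg h8, if_neg h9, if_neg h10, if_neg h11, if_neg h12, if_neg h13, if_pos h14]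
  by_cases h15 : (i - (4 * t + 18)) % 4 = 1
  · right; right; right; right; right; right; right; right; right; right; right; right; right; right; right; left
    refine ⟨(i - (4 * t + 18)) / 4, by omega, by omega, ?_, ?_⟩
    · unfold wD; rw [if_neg h0, if_neg h1, if_neg h2, if_neg h3, if_neg h4, if_neg h5, if_neg h6, if_neg h7, if_neg h8, if_neg h9, if_neg h10, if_neg h11, if_neg h12, if_neg h13, if_neg h14, if_pos h15]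
    · unfold sD; rw [if_neg h0, if_neg h1, if_neg h2, if_neg h3, if_neg h4, if_neg h5, if_neg h6, if_neg h7, if_neg h8, if_neg h9, if_neg h10, if_neg h11, if_neg h12, if_neg h13, if_neg h14, if_pos h15]
  by_cases h16 : (i - (4 * t + 18)) % 4 = 2
  · right; right; right; right; right; right; right; right; right; right; right; right; right; right; right; right; left
    refine ⟨(i - (4 * t + 18)) / 4, by omega, by omega, ?_, ?_⟩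
    · unfold wD; rw [if_neg h0, if_neg h1, if_neg h2, if_neg h3, if_neg h4, if_neg h5, if_neg h6, if_neg h7, if_neg h8, if_neg h9, if_neg h10, if_neg h11, if_neg h12, if_neg h13, if_neg h14, if_neg h15, if_pos h16]
    · unfold sD; rw [if_neg h0, if_neg h1, if_neg h2, if_neg h3, if_neg h4, if_neg h5, if_neg h6, if_neg h7, if_neg h8, if_neg h9, if_neg h10, if_neg h11, if_neg h12, if_neg h13, if_neg h14, if_neg h15, if_pos h16]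
  right; right; right; right; right; right; right; right; right; right; right; right; right; right; right; right; right
  refine ⟨(i - (4 * t + 18)) / 4, by omega, by omega, ?_, ?_⟩
  · unfold wD; rw [if_neg h0, if_neg h1, if_neg h2, if_neg h3, if_neg h4, if_neg h5, if_neg h6, if_neg h7, if_neg h8, if_neg h9, if_neg h10, if_neg h11, if_neg h12, if_neg h13, if_neg h14, if_neg h15, if_neg h16]
  · unfold sD; rw [if_neg h0, if_neg h1, if_neg h2, if_neg h3, if_neg h4, if_neg h5, if_neg h6, if_neg h7, if_neg h8, if_neg h9, if_neg h10, if_neg h11, if_neg h12, if_neg h13, if_neg h14, if_neg h15, if_neg h16]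

theorem pos_D {k : ℕ} (hk : 2 ≤ k) (t : ℕ) : Harmonious (cycleStar (2 * (4 * t + 11)) k) := by
  apply of_even (N := 4 * t + 11) (by omega) hk (wD t) (sD t)
  · rfl
  · intro i hi
    have h := cD t i (by omega)
    push_cast
    rcases h with ⟨a1, a2, a3⟩ | ⟨ab, a1, a2, a3, a4⟩ | ⟨ab, a1, a2, a3, a4, a5⟩ | ⟨a1, a2, a3⟩ | ⟨a1, a2, a3⟩ | ⟨a1, a2, a3⟩ | ⟨a1, a2, a3⟩ | ⟨a1, a2, a3⟩ | ⟨a1, a2, a3⟩ | ⟨a1, a2, a3⟩ | ⟨a1, a2, a3⟩ | ⟨a1, a2, a3⟩ | ⟨a1, a2, a3⟩ | ⟨a1, a2, a3⟩ | ⟨ab, a1, a2, a3, a4⟩ | ⟨ab, a1, a2, a3, a4⟩ | ⟨ab, a1, a2, a3, a4⟩ | ⟨ab, a1, a2, a3, a4⟩ <;> omega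
  · intro i j hi hj hij
    have h := cD t i (by omega)
    have h' := cD t j (by omega)
    rcases h with ⟨a1, a2, a3⟩ | ⟨ab, a1, a2, a3, a4⟩ | ⟨ab, a1, a2, a3, a4, a5⟩ | ⟨a1, a2, a3⟩ | ⟨a1, a2, a3⟩ | ⟨a1, a2, a3⟩ | ⟨a1, a2, a3⟩ | ⟨a1, a2, a3⟩ | ⟨a1, a2, a3⟩ | ⟨a1, a2, a3⟩ | ⟨a1, a2, a3⟩ | ⟨a1, a2, a3⟩ | ⟨a1, a2, a3⟩ | ⟨a1, a2, a3⟩ | ⟨ab, a1, a2, a3, a4⟩ | ⟨ab, a1, a2, a3, a4⟩ | ⟨ab, a1, a2, a3, a4⟩ | ⟨ab, a1, a2, a3, a4⟩ <;>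
      rcases h' with ⟨c1, c2, c3⟩ | ⟨cb, c1, c2, c3, c4⟩ | ⟨cb, c1, c2, c3, c4, c5⟩ | ⟨c1, c2, c3⟩ | ⟨c1, c2, c3⟩ | ⟨c1, c2, c3⟩ | ⟨c1, c2, c3⟩ | ⟨c1, c2, c3⟩ | ⟨c1, c2, c3⟩ | ⟨c1, c2, c3⟩ | ⟨c1, c2, c3⟩ | ⟨c1, c2, c3⟩ | ⟨c1, c2, c3⟩ | ⟨c1, c2, c3⟩ | ⟨cb, c1, c2, c3, c4⟩ | ⟨cb, c1, c2, c3, c4⟩ | ⟨cb, c1, c2, c3, c4⟩ | ⟨cb, c1, c2, c3, c4⟩ <;> omega
  · intro i hi
    have h := cD t i (by omega)
    have h' := cD t (i + 1) (by omega)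
    rcases h with ⟨a1, a2, a3⟩ | ⟨ab, a1, a2, a3, a4⟩ | ⟨ab, a1, a2, a3, a4, a5⟩ | ⟨a1, a2, a3⟩ | ⟨a1, a2, a3⟩ | ⟨a1, a2, a3⟩ | ⟨a1, a2, a3⟩ | ⟨a1, a2, a3⟩ | ⟨a1, a2, a3⟩ | ⟨a1, a2, a3⟩ | ⟨a1, a2, a3⟩ | ⟨a1, a2, a3⟩ | ⟨a1, a2, a3⟩ | ⟨a1, a2, a3⟩ | ⟨ab, a1, a2, a3, a4⟩ | ⟨ab, a1, a2, a3, a4⟩ | ⟨ab, a1, a2, a3, a4⟩ | ⟨ab, a1, a2, a3, a4⟩ <;>
      rcases h' with ⟨c1, c2, c3⟩ | ⟨cb, c1, c2, c3, c4⟩ | ⟨cb, c1, c2, c3, c4, c5⟩ | ⟨c1, c2, c3⟩ | ⟨c1, c2, c3⟩ | ⟨c1, c2, c3⟩ | ⟨c1, c2, c3⟩ | ⟨c1, c2, c3⟩ | ⟨c1, c2, c3⟩ | ⟨c1, c2, c3⟩ | ⟨c1, c2, c3⟩ | ⟨c1, c2, c3⟩ | ⟨c1, c2, c3⟩ | ⟨c1, c2, c3⟩ | ⟨cb, c1, c2, c3, c4⟩ | ⟨cb, c1, c2, c3, c4⟩ | ⟨cb, c1, c2, c3, c4⟩ | ⟨cb, c1, c2, c3, c4⟩ <;> omega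
  · have h := cD t (2 * (4 * t + 11) - 1) (by omega)
    rcases h with ⟨a1, a2, a3⟩ | ⟨ab, a1, a2, a3, a4⟩ | ⟨ab, a1, a2, a3, a4, a5⟩ | ⟨a1, a2, a3⟩ | ⟨a1, a2, a3⟩ | ⟨a1, a2, a3⟩ | ⟨a1, a2, a3⟩ | ⟨a1, a2, a3⟩ | ⟨a1, a2, a3⟩ | ⟨a1, a2, a3⟩ | ⟨a1, a2, a3⟩ | ⟨a1, a2, a3⟩ | ⟨a1, a2, a3⟩ | ⟨a1, a2, a3⟩ | ⟨ab, a1, a2, a3, a4⟩ | ⟨ab, a1, a2, a3, a4⟩ | ⟨ab, a1, a2, a3, a4⟩ | ⟨ab, a1, a2, a3, a4⟩ <;> omega
  · intro i hi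
    have h := cD t i (by omega)
    push_cast
    rcases h with ⟨a1, a2, a3⟩ | ⟨ab, a1, a2, a3, a4⟩ | ⟨ab, a1, a2, a3, a4, a5⟩ | ⟨a1, a2, a3⟩ | ⟨a1, a2, a3⟩ | ⟨a1, a2, a3⟩ | ⟨a1, a2, a3⟩ | ⟨a1, a2, a3⟩ | ⟨a1, a2, a3⟩ | ⟨a1, a2, a3⟩ | ⟨a1, a2, a3⟩ | ⟨a1, a2, a3⟩ | ⟨a1, a2, a3⟩ | ⟨a1, a2, a3⟩ | ⟨ab, a1, a2, a3, a4⟩ | ⟨ab, a1, a2, a3, a4⟩ | ⟨ab, a1, a2, a3, a4⟩ | ⟨ab, a1, a2, a3, a4⟩ <;> omega
  · intro i j hi hj hij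
    have h := cD t i (by omega)
    have h' := cD t j (by omega)
    rcases h with ⟨a1, a2, a3⟩ | ⟨ab, a1, a2, a3, a4⟩ | ⟨ab, a1, a2, a3, a4, a5⟩ | ⟨a1, a2, a3⟩ | ⟨a1, a2, a3⟩ | ⟨a1, a2, a3⟩ | ⟨a1, a2, a3⟩ | ⟨a1, a2, a3⟩ | ⟨a1, a2, a3⟩ | ⟨a1, a2, a3⟩ | ⟨a1, a2, a3⟩ | ⟨a1, a2, a3⟩ | ⟨a1, a2, a3⟩ | ⟨a1, a2, a3⟩ | ⟨ab, a1, a2, a3, a4⟩ | ⟨ab, a1, a2, a3, a4⟩ | ⟨ab, a1, a2, a3, a4⟩ | ⟨ab, a1, a2, a3, a4⟩ <;>
      rcases h' with ⟨c1, c2, c3⟩ | ⟨cb, c1, c2, c3, c4⟩ | ⟨cb, c1, c2, c3, c4, c5⟩ | ⟨c1, c2, c3⟩ | ⟨c1, c2, c3⟩ | ⟨c1, c2, c3⟩ | ⟨c1, c2, c3⟩ | ⟨c1, c2, c3⟩ | ⟨c1, c2, c3⟩ | ⟨c1, c2, c3⟩ | ⟨c1, c2, c3⟩ | ⟨c1, c2, c3⟩ | ⟨c1, c2, c3⟩ | ⟨c1, c2, c3⟩ | ⟨cb, c1, c2, c3, c4⟩ | ⟨cb, c1, c2, c3, c4⟩ | ⟨cb, c1, c2, c3, c4⟩ | ⟨cb, c1, c2, c3, c4⟩ <;> omega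

end Pool.Agent.Results.MP_3c38ca_co.CycleWithStar
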