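import Mathlib

namespace HarmUni

open Finset

variable {A : Type*} [AddCommGroup A] [Fintype A] [DecidableEq A]

/-- a finite set which is invariant under adding elements of a subgroup has cardinality divisible
by the order of the subgroup -/
lemma card_dvd_of_invariant (H : AddSubgroup A) (S : Finset A)
    (hS : ∀ u ∈ S, ∀ h ∈ H, u + h ∈ S) : Nat.card H ∣ S.card := by
  classical
  rw [Finset.card_eq_sum_card_fiberwise (f := fun u : A => (QuotientAddGroup.mk u : A ⧸ H))
    (t := (S.image fun u : A => (QuotientAddGroup.mk u : A ⧸ H)))
    (by intro u hu; simp only [coe_image, Set.mem_image, mem_coe]; exact ⟨u, hu, rfl⟩)]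
  apply Finset.dvd_sum
  intro c hc
  obtain ⟨u, hu, rfl⟩ := Finset.mem_image.1 hc
  have : ({a ∈ S | (QuotientAddGroup.mk a : A ⧸ H) = (QuotientAddGroup.mk u : A ⧸ H)}).card
      = Nat.card H := by
    have h1 : ({a ∈ S | (QuotientAddGroup.mk a : A ⧸ H) = (QuotientAddGroup.mk u : A ⧸ H)})
        = (Finset.univ.filter (fun h : A => h ∈ H)).image (fun h => u + h) := by
      ext a
      simp only [mem_filter, mem_image, mem_univ, true_and]
      constructor
      · rintro ⟨ha, hau⟩
        have := QuotientAddGroup.eq.1 hau
        refine ⟨a - u, ?_, by abel⟩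
        have h2 := H.neg_mem this
        simpa [sub_eq_add_neg, add_comm] using h2
      · rintro ⟨h, hh, rfl⟩
        refine ⟨hS u hu h hh, ?_⟩
        rw [QuotientAddGroup.eq]
        have : -(u + h) + u = -h := by abel
        rw [this]; exact H.neg_mem hh
    rw [h1, Finset.card_image_of_injective _ (add_right_injective u)]
    rw [Nat.card_eq_fintype_card, Fintype.card_subtype]
  rw [this]

/-- The necessity part for the four-cycle with leaves at two adjacent vertices. -/
lemma nec4 (Y : Finset A) (T : A → A) (hT : Function.Injective T) (y z w : A)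
    (hy0 : y ≠ 0) (h0 : (0 : A) ∉ Y) (hyY : y ∉ Y) (hwY : w ∉ Y) (hzY : z ∈ Y) (hw0 : w ≠ 0)
    (h1 : ∀ u ∈ Y, T u = u + y) (h2 : ∀ u, u ∉ Y → u ≠ 0 → T u = u) (h3 : T 0 = z + w) :
    2 ≤ addOrderOf y ∧ addOrderOf y ∣ Fintype.card A ∧ 3 * addOrderOf y ≤ Fintype.card A ∧
    addOrderOf y ≤ Y.card ∧ addOrderOf y ≤ ((insert 0 (insert y Y))ᶜ : Finset A).card ∧
    ¬ addOrderOf y ∣ Y.card + 1 := by
  classical
  have hsurj : Function.Surjective T := Finite.surjective_of_injective hT
  -- forward rule
  have hA : ∀ u ∈ Y, u + y ∈ Y ∨ u + y = 0 := by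
    intro u hu
    by_contra hcon
    push Not at hcon
    have e1 := h1 u hu
    have e2 := h2 (u + y) hcon.1 hcon.2
    have : u = u + y := hT (by rw [e1, e2])
    exact hy0 (by simpa using this.symm)
  -- backward rule
  have hB : ∀ u ∈ Y, u - y ∈ Y ∨ u = z + w := by
    intro u hu
    obtain ⟨u', hu'⟩ := hsurj u
    by_cases c0 : u' = 0
    · right; rw [← hu', c0, h3]
    · by_cases c1 : u' ∈ Y
      · left
        rw [h1 u' c1] at hu'
        rw [← hu']; simpa using c1
      · rw [h2 u' c1 c0] at hu'
        exact absurd (hu' ▸ hu) c1
  have hσ : z + w ≠ 0 → -y ∈ Y := by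
    intro hne
    obtain ⟨u', hu'⟩ := hsurj 0
    by_cases c0 : u' = 0
    · exfalso; rw [c0, h3] at hu'; exact hne hu'
    · by_cases c1 : u' ∈ Y
      · rw [h1 u' c1] at hu'
        have : u' = -y := by rw [← sub_eq_zero]; simpa using hu'
        rw [← this]; exact c1
      · rw [h2 u' c1 c0] at hu'
        exact absurd hu' c0
  set H := AddSubgroup.zmultiples y with hH
  have hyH : y ∈ H := AddSubgroup.mem_zmultiples y
  have hcardH : Nat.card H = addOrderOf y := Nat.card_zmultiples y
  -- outside H, Y is invariant
  have hinv1 : ∀ u ∈ Y, u ∉ H → ∀ k : ℕ, u + k • y ∈ Y := by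
    intro u hu huH k
    induction k with
    | zero => simpa using hu
    | succ k ih =>
      have e : u + (k + 1) • y = (u + k • y) + y := by rw [add_smul, one_smul]; abel
      rcases hA _ ih with h | h
      · rw [e]; exact h
      · exfalso
        apply huH
        have : u = -((k + 1) • y) := by
          rw [← e] at h
          exact eq_neg_of_add_eq_zero_left h
        rw [this]
        exact H.neg_mem (H.nsmul_mem hyH _)
  have hinv : ∀ u ∈ Y, u ∉ H → ∀ h ∈ H, u + h ∈ Y := by
    intro u hu huH h hh
    obtain ⟨k, hk⟩ : ∃ k : ℕ, k • y = h := by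
      have : h ∈ AddSubmonoid.multiples y := mem_multiples_iff_mem_zmultiples.2 hh
      simpa [AddSubmonoid.mem_multiples_iff] using this
    rw [← hk]; exact hinv1 u hu huH k
  have hLpos : 0 < addOrderOf y := addOrderOf_pos y
  have hL2 : 2 ≤ addOrderOf y := by
    rcases Nat.lt_or_ge (addOrderOf y) 2 with h | h
    · exfalso
      have : addOrderOf y = 1 := by omega
      exact hy0 (AddMonoid.addOrderOf_eq_one_iff.1 this)
    · exact h
  have hLy : addOrderOf y • y = 0 := addOrderOf_nsmul_eq_zero y
  -- z + w ∈ H
  have hσH : z + w ∈ H := by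
    by_contra hcon
    have hne : z + w ≠ 0 := fun h => hcon (h ▸ H.zero_mem)
    have hback : ∀ k : ℕ, -((k + 1) • y) ∈ Y := by
      intro k
      induction k with
      | zero => simpa using hσ hne
      | succ k ih =>
        rcases hB _ ih with h | h
        · have e : -((k + 1 + 1) • y) = -((k + 1) • y) - y := by
            rw [add_smul (k + 1) 1, one_smul]; abel
          rw [e]; exact h
        · exfalso; apply hcon; rw [← h]
          exact H.neg_mem (H.nsmul_mem hyH _)
    have := hback (addOrderOf y - 1)
    rw [Nat.sub_add_cancel hLpos, hLy, neg_zero] at this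
    exact h0 this
  -- z ∉ H
  have hzH : z ∉ H := by
    intro hz
    obtain ⟨j, hjL, hj⟩ : ∃ j : ℕ, j < addOrderOf y ∧ z = -(j • y) := by
      have h1 : -z ∈ AddSubmonoid.multiples y := mem_multiples_iff_mem_zmultiples.2 (H.neg_mem hz)
      obtain ⟨k, hk⟩ := (AddSubmonoid.mem_multiples_iff _ _).1 h1
      refine ⟨k % addOrderOf y, Nat.mod_lt _ hLpos, ?_⟩
      rw [mod_addOrderOf_nsmul, hk, neg_neg]
    have hj1 : 1 ≤ j := by
      rcases Nat.eq_zero_or_pos j with h | h
      · exfalso; rw [h] at hj; simp at hj; rw [hj] at hzY; exact h0 hzY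
      · exact h
    -- exists i with z + w = -((j+i) • y)
    have hex : ∃ i : ℕ, z + w = -((j + i) • y) := by
      by_contra hcon
      push Not at hcon
      have hall : ∀ i : ℕ, -((j + i) • y) ∈ Y := by
        intro i
        induction i with
        | zero => simpa [← hj] using hzY
        | succ i ih =>
          rcases hB _ ih with h | h
          · have e : -((j + (i + 1)) • y) = -((j + i) • y) - y := by
              rw [← add_assoc, add_smul (j + i) 1, one_smul]; abel
            rw [e]; exact h
          · exact absurd h.symm (hcon i)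
      have := hall (addOrderOf y - j)
      rw [show j + (addOrderOf y - j) = addOrderOf y by omega, hLy, neg_zero] at this
      exact h0 this
    classical
    obtain ⟨i0, hi0, hmin⟩ : ∃ i0 : ℕ, z + w = -((j + i0) • y) ∧
        ∀ i < i0, z + w ≠ -((j + i) • y) :=
      ⟨Nat.find hex, Nat.find_spec hex, fun i hi => Nat.find_min hex hi⟩
    have hall : ∀ i ≤ i0, -((j + i) • y) ∈ Y := by
      intro i
      induction i with
      | zero => intro _; simpa [← hj] using hzY
      | succ i ih =>
        intro hi
        rcases hB _ (ih (by omega)) with h | h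
        · have e : -((j + (i + 1)) • y) = -((j + i) • y) - y := by
            rw [← add_assoc, add_smul (j + i) 1, one_smul]; abel
          rw [e]; exact h
        · exact absurd h.symm (hmin i (by omega))
    have hw : w = -(i0 • y) := by
      have : w = (z + w) - z := by abel
      rw [this, hi0, hj, add_smul]; abel
    have hi1 : 1 ≤ i0 := by
      rcases Nat.eq_zero_or_pos i0 with h | h
      · exfalso; rw [h] at hw; simp at hw; exact hw0 hw
      · exact h
    have hfwd : ∀ k : ℕ, k < j → -((j - k) • y) ∈ Y := by
      intro k
      induction k with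
      | zero => intro _; simpa [← hj] using hzY
      | succ k ih =>
        intro hk
        have e : -((j - k) • y) + y = -((j - (k + 1)) • y) := by
          rw [show j - k = (j - (k + 1)) + 1 by omega, add_smul, one_smul]; abel
        rcases hA _ (ih (by omega)) with h | h
        · rw [← e]; exact h
        · exfalso
          rw [e, neg_eq_zero] at h
          have h5 := addOrderOf_dvd_of_nsmul_eq_zero h
          have h6 := Nat.le_of_dvd (by omega) h5
          omega
    apply hwY
    rw [hw]
    rcases Nat.lt_or_ge i0 j with h | h
    · have := hfwd (j - i0) (by omega)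
      rwa [show j - (j - i0) = i0 by omega] at this
    · have := hall (i0 - j) (by omega)
      rwa [show j + (i0 - j) = i0 by omega] at this
  have hwH : w ∉ H := by
    intro h
    apply hzH
    have : z = (z + w) - w := by abel
    rw [this]; exact H.sub_mem hσH h
  -- cosets as finsets
  have hcoset : ∀ c : A, (Finset.univ.filter (fun u : A => u - c ∈ H)).card = addOrderOf y := by
    intro c
    have e : (Finset.univ.filter (fun u : A => u - c ∈ H))
        = (Finset.univ.filter (fun h : A => h ∈ H)).image (fun h => h + c) := by
      ext a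
      simp only [mem_filter, mem_univ, true_and, mem_image]
      constructor
      · intro h; exact ⟨a - c, h, by abel⟩
      · rintro ⟨h, hh, rfl⟩; simpa using hh
    rw [e, Finset.card_image_of_injective _ (add_left_injective c), ← hcardH,
      Nat.card_eq_fintype_card, Fintype.card_subtype]
  have hzsub : (Finset.univ.filter (fun u : A => u - z ∈ H)) ⊆ Y := by
    intro u hu
    have hu' := (mem_filter.1 hu).2
    have := hinv z hzY hzH _ hu'
    simpa using this
  have hwdisj : ∀ u : A, u - w ∈ H → u ∉ Y := by
    intro u hu huY
    have huH : u ∉ H := by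
      intro h
      apply hwH
      have : w = u - (u - w) := by abel
      rw [this]; exact H.sub_mem h hu
    have := hinv u huY huH _ (H.neg_mem hu)
    apply hwY
    have e : u + -(u - w) = w := by abel
    rwa [e] at this
  have hwsub : (Finset.univ.filter (fun u : A => u - w ∈ H)) ⊆
      ((insert 0 (insert y Y))ᶜ : Finset A) := by
    intro u hu
    have hu' := (mem_filter.1 hu).2
    rw [mem_compl, mem_insert, mem_insert]
    rintro (h | h | h)
    · apply hwH
      have : w = -(u - w) := by rw [h]; abel
      rw [this]; exact H.neg_mem hu'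
    · apply hwH
      have : w = y - (u - w) := by rw [h]; abel
      rw [this]; exact H.sub_mem hyH hu'
    · exact hwdisj u hu' h
  refine ⟨hL2, ?_, ?_, ?_, ?_, ?_⟩
  · exact addOrderOf_dvd_card
  · have hd1 : Disjoint (Finset.univ.filter (fun u : A => u - 0 ∈ H))
        (Finset.univ.filter (fun u : A => u - z ∈ H)) := by
      rw [Finset.disjoint_left]
      intro u hu hu2
      have h1 := (mem_filter.1 hu).2
      have h2 := (mem_filter.1 hu2).2
      apply hzH
      have : z = (u - 0) - (u - z) := by abel
      rw [this]; exact H.sub_mem h1 h2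
    have hd2 : Disjoint ((Finset.univ.filter (fun u : A => u - 0 ∈ H)) ∪
        (Finset.univ.filter (fun u : A => u - z ∈ H)))
        (Finset.univ.filter (fun u : A => u - w ∈ H)) := by
      rw [Finset.disjoint_left]
      intro u hu hu2
      have h2 := (mem_filter.1 hu2).2
      rcases mem_union.1 hu with h | h
      · have h1 := (mem_filter.1 h).2
        apply hwH
        have : w = (u - 0) - (u - w) := by abel
        rw [this]; exact H.sub_mem h1 h2
      · exact hwdisj u h2 (hzsub h)
    have := Finset.card_le_univ (((Finset.univ.filter (fun u : A => u - 0 ∈ H)) ∪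
        (Finset.univ.filter (fun u : A => u - z ∈ H))) ∪
        (Finset.univ.filter (fun u : A => u - w ∈ H)))
    rw [Finset.card_union_of_disjoint hd2, Finset.card_union_of_disjoint hd1, hcoset, hcoset,
      hcoset] at this
    omega
  · calc addOrderOf y = _ := (hcoset z).symm
      _ ≤ _ := Finset.card_le_card hzsub
  · calc addOrderOf y = _ := (hcoset w).symm
      _ ≤ _ := Finset.card_le_card hwsub
  · intro hdiv
    have hsplit := Finset.card_filter_add_card_filter_not (s := Y) (fun u => u ∈ H)
    have hd : addOrderOf y ∣ (Y.filter (fun u => u ∉ H)).card := by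
      rw [← hcardH]
      apply card_dvd_of_invariant
      intro u hu h hh
      obtain ⟨hu1, hu2⟩ := mem_filter.1 hu
      refine mem_filter.2 ⟨hinv u hu1 hu2 h hh, ?_⟩
      intro h3
      apply hu2
      have : u = (u + h) - h := by abel
      rw [this]; exact H.sub_mem h3 hh
    have hle : (Y.filter (fun u => u ∈ H)).card + 2 ≤ addOrderOf y := by
      have hsub : insert 0 (insert y (Y.filter (fun u => u ∈ H))) ⊆
          (Finset.univ.filter (fun u : A => u - 0 ∈ H)) := by
        intro u hu
        rw [mem_filter]
        refine ⟨mem_univ _, ?_⟩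
        rw [sub_zero]
        rcases mem_insert.1 hu with h | h
        · rw [h]; exact H.zero_mem
        · rcases mem_insert.1 h with h | h
          · rw [h]; exact hyH
          · exact (mem_filter.1 h).2
      have := Finset.card_le_card hsub
      rw [hcoset, Finset.card_insert_of_notMem, Finset.card_insert_of_notMem] at this
      · exact this
      · intro h; exact hyY (mem_filter.1 h).1
      · rw [mem_insert]
        rintro (h | h)
        · exact hy0 h.symm
        · exact h0 (mem_filter.1 h).1
    have h7 : addOrderOf y ∣ (Y.filter (fun u => u ∈ H)).card + 1 := by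
      have : (Y.filter (fun u => u ∈ H)).card + 1 + (Y.filter (fun u => u ∉ H)).card = Y.card + 1 := by
        omega
      exact (Nat.dvd_add_left hd).1 (this ▸ hdiv)
    have := Nat.le_of_dvd (by omega) h7
    omega

end HarmUni
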