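import Mathlib

namespace HarmUni

open Finset

/-- The sufficiency part for the four-cycle with leaves at two adjacent vertices. -/
lemma suf4 (n b L : ℕ) [NeZero n] (hL2 : 2 ≤ L) (hLn : L ∣ n) (h3L : 3 * L ≤ n) (hLb : L ≤ b)
    (hLa : L + b + 2 ≤ n) (hLd : ¬ L ∣ b + 1) :
    ∃ (Y : Finset (ZMod n)) (T : ZMod n → ZMod n) (y z w : ZMod n), Y.card = b ∧
      Function.Injective T ∧ y ≠ 0 ∧ 0 ∉ Y ∧ y ∉ Y ∧ w ∉ Y ∧ z ∈ Y ∧ w ≠ 0 ∧ w ≠ y ∧
      (∀ u ∈ Y, T u = u + y) ∧ (∀ u, u ∉ Y → u ≠ 0 → T u = u) ∧ T 0 = z + w := by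
  classical
  obtain ⟨g, hg⟩ := hLn
  have : NeZero L := ⟨by omega⟩
  have hg3 : 3 ≤ g := by
    by_contra h
    have : L * g ≤ L * 2 := Nat.mul_le_mul_left _ (by omega)
    omega
  have : NeZero g := ⟨by omega⟩
  -- division
  obtain ⟨k, r, hb, hrL, hk1⟩ : ∃ k r : ℕ, b = k * L + r ∧ r + 2 ≤ L ∧ 1 ≤ k := by
    refine ⟨b / L, b % L, (Nat.div_add_mod' b L).symm, ?_, Nat.div_pos hLb (by omega)⟩
    have h1 : b % L < L := Nat.mod_lt _ (by omega)
    by_contra h
    apply hLd
    have : b % L + 1 = L := by omega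
    have h2 := Nat.div_add_mod' b L
    exact ⟨b / L + 1, by rw [mul_add, mul_comm L (b / L)]; omega⟩
  have hkg : k + 2 ≤ g := by
    by_contra h
    have h1 : L * g ≤ L * (k + 1) := Nat.mul_le_mul_left _ (by omega)
    have h2 : L * (k + 1) = k * L + L := by ring
    omega
  have hcardn : Fintype.card (ZMod n) = n := ZMod.card n
  set τ : ℕ := L - r with hτ
  have hτ2 : 2 ≤ τ := by omega
  have hτL : τ ≤ L := by omega
  let Λ : ZMod L × Fin g → ZMod n := fun p => ((p.1.val * g + p.2.val : ℕ) : ZMod n)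
  have hbound : ∀ p : ZMod L × Fin g, p.1.val * g + p.2.val < n := by
    intro p
    have h1 := ZMod.val_lt p.1
    have h2 := p.2.isLt
    calc p.1.val * g + p.2.val < p.1.val * g + g := by omega
      _ = (p.1.val + 1) * g := by ring
      _ ≤ L * g := Nat.mul_le_mul_right _ h1
      _ = n := hg.symm
  have hΛinj : Function.Injective Λ := by
    intro p q hpq
    have h1 : p.1.val * g + p.2.val = q.1.val * g + q.2.val := by
      have := (ZMod.natCast_eq_natCast_iff' _ _ _).1 hpq
      rwa [Nat.mod_eq_of_lt (hbound p), Nat.mod_eq_of_lt (hbound q)] at this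
    have h2 := p.2.isLt
    have h3 := q.2.isLt
    have e1 : p.2.val = q.2.val := by
      have := congrArg (· % g) h1
      simpa [Nat.add_mod, Nat.mod_eq_of_lt h2, Nat.mod_eq_of_lt h3] using this
    have e2 : p.1.val = q.1.val := by
      have h4 : p.1.val * g = q.1.val * g := by omega
      exact Nat.eq_of_mul_eq_mul_right (by omega) h4
    exact Prod.ext (ZMod.val_injective L e2) (Fin.ext e1)
  have hΛbij : Function.Bijective Λ := by
    rw [Fintype.bijective_iff_injective_and_card]
    refine ⟨hΛinj, ?_⟩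
    rw [Fintype.card_prod, ZMod.card, ZMod.card, Fintype.card_fin, hg]
  let e := Equiv.ofBijective Λ hΛbij
  have he : ∀ p, e p = Λ p := fun p => rfl
  have hstep : ∀ (q : ZMod L) (c : Fin g), Λ (q + 1, c) = Λ (q, c) + (g : ZMod n) := by
    intro q c
    show (((q + 1).val * g + c.val : ℕ) : ZMod n) = ((q.val * g + c.val : ℕ) : ZMod n) + (g : ZMod n)
    have h1 : (((q + 1).val * g : ℕ) : ZMod n) = ((q.val + 1 : ℕ) * g : ℕ) := by
      rw [ZMod.natCast_eq_natCast_iff]
      rw [hg, ]
      apply Nat.ModEq.mul_right'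
      rw [← ZMod.natCast_eq_natCast_iff]
      simp
    rw [Nat.cast_add, h1]
    push_cast
    ring
  let Y0 : Finset (ZMod L × Fin g) := Finset.univ.filter
    (fun p => (p.2.val = 0 ∧ τ ≤ p.1.val) ∨ (1 ≤ p.2.val ∧ p.2.val ≤ k))
  have hY0mem : ∀ p, p ∈ Y0 ↔ (p.2.val = 0 ∧ τ ≤ p.1.val) ∨ (1 ≤ p.2.val ∧ p.2.val ≤ k) := by
    intro p; simp [Y0]
  let c0 : Fin g := ⟨0, by omega⟩
  have hval1 : (1 : ZMod L).val = 1 := by
    rw [ZMod.val_one_eq_one_mod, Nat.mod_eq_of_lt (by omega)]
  have hY0card : Y0.card = b := by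
    have e1 : Y0 = ((Finset.univ.filter (fun q : ZMod L => τ ≤ q.val)) ×ˢ {c0}) ∪
        ((Finset.univ : Finset (ZMod L)) ×ˢ
          (Finset.univ.filter (fun c : Fin g => 1 ≤ c.val ∧ c.val ≤ k))) := by
      ext p
      rw [hY0mem]
      simp only [mem_union, mem_product, mem_filter, mem_univ, true_and, mem_singleton, Fin.ext_iff, c0]
      tauto
    have e2 : (Finset.univ.filter (fun q : ZMod L => τ ≤ q.val)).card = r := by
      have : (Finset.univ.filter (fun q : ZMod L => τ ≤ q.val)).image ZMod.val = Finset.Ico τ L := by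
        ext m
        simp only [mem_image, mem_filter, mem_univ, true_and, mem_Ico]
        constructor
        · rintro ⟨q, hq, rfl⟩; exact ⟨hq, ZMod.val_lt q⟩
        · rintro ⟨h1, h2⟩
          exact ⟨(m : ZMod L), by rw [ZMod.val_natCast, Nat.mod_eq_of_lt h2]; exact h1,
            by rw [ZMod.val_natCast, Nat.mod_eq_of_lt h2]⟩
      rw [← Finset.card_image_of_injective _ (ZMod.val_injective L), this, Nat.card_Ico]
      omega
    have e3 : (Finset.univ.filter (fun c : Fin g => 1 ≤ c.val ∧ c.val ≤ k)).card = k := by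
      have : (Finset.univ.filter (fun c : Fin g => 1 ≤ c.val ∧ c.val ≤ k)).image Fin.val
          = Finset.Icc 1 k := by
        ext m
        simp only [mem_image, mem_filter, mem_univ, true_and, mem_Icc]
        constructor
        · rintro ⟨q, hq, rfl⟩; exact hq
        · rintro ⟨h1, h2⟩
          exact ⟨⟨m, by omega⟩, ⟨h1, h2⟩, rfl⟩
      rw [← Finset.card_image_of_injective _ Fin.val_injective, this, Nat.card_Icc]
      omega
    rw [e1, Finset.card_union_of_disjoint, Finset.card_product, Finset.card_product, e2, e3,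
      Finset.card_singleton, Finset.card_univ, ZMod.card, hb]
    · ring
    · rw [Finset.disjoint_left]
      intro p hp hp2
      rw [mem_product, mem_singleton] at hp
      rw [mem_product, mem_filter] at hp2
      have h1 := hp2.2.2.1
      rw [hp.2] at h1
      simp [c0] at h1
  let S : ZMod L × Fin g → ZMod L × Fin g := fun p =>
    if p ∈ Y0 then (p.1 + 1, p.2) else if p = (0, c0) then ((τ : ZMod L), c0) else p
  have hS1 : ∀ p, p ∈ Y0 → S p = (p.1 + 1, p.2) := fun p hp => by simp [S, hp]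
  have h00 : ((0 : ZMod L), c0) ∉ Y0 := by
    rw [hY0mem]; simp only [ZMod.val_zero, c0]; omega
  have hS2 : S (0, c0) = ((τ : ZMod L), c0) := by simp [S, h00]
  have hS3 : ∀ p, p ∉ Y0 → p ≠ (0, c0) → S p = p := fun p hp hp2 => by simp [S, hp, hp2]
  have hτm1 : (((τ - 1 : ℕ) : ZMod L)).val = τ - 1 := by
    rw [ZMod.val_natCast, Nat.mod_eq_of_lt (by omega)]
  have hsucc : ∀ q : ZMod L, q.val + 1 < L → (q + 1).val = q.val + 1 := by
    intro q hq
    rw [ZMod.val_add, hval1, Nat.mod_eq_of_lt hq]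
  have hlast : ∀ q : ZMod L, q.val + 1 = L → q + 1 = 0 := by
    intro q hq
    have h1 : ((q.val + 1 : ℕ) : ZMod L) = 0 := by rw [hq]; simp
    simpa using h1
  -- case lemmas
  have cA : ∀ p ∈ Y0, (p.1 + 1, p.2) ≠ ((τ : ZMod L), c0) := by
    intro p hp h
    have h1 := congrArg Prod.fst h
    have h2 := congrArg Prod.snd h
    simp only at h1 h2
    have h3 : p.1 = ((τ - 1 : ℕ) : ZMod L) := by
      rw [Nat.cast_sub (by omega), ← h1]; simp
    rw [hY0mem] at hp
    rw [h2, h3, hτm1] at hp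
    simp only [c0] at hp
    omega
  have cB : ∀ p ∈ Y0, ∀ q, q ∉ Y0 → q ≠ (0, c0) → (p.1 + 1, p.2) ≠ q := by
    intro p hp q hq hq0 h
    have hp' := (hY0mem p).1 hp
    rw [← h] at hq hq0
    rcases hp' with ⟨h1, h2⟩ | h1
    · have h3 : p.2 = c0 := Fin.ext h1
      rcases Nat.lt_or_ge (p.1.val + 1) L with h4 | h4
      · apply hq
        rw [hY0mem]
        left
        refine ⟨h1, ?_⟩
        show τ ≤ (p.1 + 1).val
        rw [hsucc _ h4]; omega
      · have h5 := ZMod.val_lt p.1
        apply hq0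
        rw [hlast p.1 (by omega), h3]
    · apply hq
      rw [hY0mem]
      right; exact h1
  have cC : ∀ q, q ∉ Y0 → q ≠ (0, c0) → ((τ : ZMod L), c0) ≠ q := by
    intro q hq hq0 h
    rcases Nat.lt_or_ge τ L with h1 | h1
    · apply hq
      rw [← h, hY0mem]
      left
      refine ⟨rfl, ?_⟩
      show τ ≤ ((τ : ZMod L)).val
      rw [ZMod.val_natCast, Nat.mod_eq_of_lt h1]
    · apply hq0
      rw [← h, show τ = L by omega]
      simp
  have hSinj : Function.Injective S := by
    intro p q hpq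
    by_cases hp : p ∈ Y0
    · by_cases hq : q ∈ Y0
      · rw [hS1 p hp, hS1 q hq] at hpq
        have h1 := congrArg Prod.fst hpq
        have h2 := congrArg Prod.snd hpq
        simp only [add_left_inj] at h1 h2
        exact Prod.ext h1 h2
      · by_cases hq0 : q = (0, c0)
        · subst hq0
          rw [hS1 p hp, hS2] at hpq
          exact absurd hpq (cA p hp)
        · rw [hS1 p hp, hS3 q hq hq0] at hpq
          exact absurd hpq (cB p hp q hq hq0)
    · by_cases hp0 : p = (0, c0)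
      · subst hp0
        by_cases hq : q ∈ Y0
        · rw [hS1 q hq, hS2] at hpq
          exact absurd hpq.symm (cA q hq)
        · by_cases hq0 : q = (0, c0)
          · exact hq0.symm
          · rw [hS2, hS3 q hq hq0] at hpq
            exact absurd hpq (cC q hq hq0)
      · by_cases hq : q ∈ Y0
        · rw [hS1 q hq, hS3 p hp hp0] at hpq
          exact absurd hpq.symm (cB q hq p hp hp0)
        · by_cases hq0 : q = (0, c0)
          · subst hq0
            rw [hS2, hS3 p hp hp0] at hpq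
            exact absurd hpq.symm (cC p hp hp0)
          · rwa [hS3 p hp hp0, hS3 q hq hq0] at hpq
  have m0 : e (0, c0) = 0 := by
    rw [he]; simp [Λ, c0]
  have m1 : e (1, c0) = (g : ZMod n) := by
    rw [he]
    show (((1 : ZMod L).val * g + 0 : ℕ) : ZMod n) = _
    rw [hval1, one_mul, add_zero]
  have mz : e (0, ⟨1, by omega⟩) = (1 : ZMod n) := by
    rw [he]; simp [Λ]
  have mw : e (((τ - 1 : ℕ) : ZMod L), ⟨g - 1, by omega⟩) = ((τ * g - 1 : ℕ) : ZMod n) := by
    rw [he]
    show ((((τ - 1 : ℕ) : ZMod L).val * g + (g - 1) : ℕ) : ZMod n) = _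
    rw [hτm1]
    congr 1
    obtain ⟨t, ht⟩ : ∃ t, τ = t + 1 := ⟨τ - 1, by omega⟩
    rw [ht, Nat.add_sub_cancel]
    have : (t + 1) * g = t * g + g := by ring
    omega
  have mτ : e ((τ : ZMod L), c0) = ((τ * g : ℕ) : ZMod n) := by
    rw [he]
    show ((((τ : ℕ) : ZMod L).val * g + 0 : ℕ) : ZMod n) = _
    rw [add_zero, ZMod.natCast_eq_natCast_iff, hg]
    apply Nat.ModEq.mul_right'
    rw [← ZMod.natCast_eq_natCast_iff]
    simp
  have hmem : ∀ p, e p ∈ Y0.map e.toEmbedding ↔ p ∈ Y0 := by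
    intro p
    rw [Finset.mem_map]
    constructor
    · rintro ⟨q, hq, h⟩
      have : q = p := e.injective h
      rwa [← this]
    · intro h; exact ⟨p, h, rfl⟩
  have hgpos : 1 ≤ τ * g := Nat.mul_pos (by omega) (by omega)
  refine ⟨Y0.map e.toEmbedding, fun u => e (S (e.symm u)), (g : ZMod n), (1 : ZMod n),
    ((τ * g - 1 : ℕ) : ZMod n), ?_, ?_, ?_, ?_, ?_, ?_, ?_, ?_, ?_, ?_, ?_, ?_⟩
  · rw [Finset.card_map, hY0card]
  · exact e.injective.comp (hSinj.comp e.symm.injective)
  · rw [← m1, ← m0]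
    intro h
    have := congrArg Prod.fst (e.injective h)
    simp only at this
    have h2 := congrArg ZMod.val this
    rw [hval1, ZMod.val_zero] at h2
    omega
  · rw [← m0, hmem]; exact h00
  · rw [← m1, hmem, hY0mem]
    simp only [hval1, c0]; omega
  · rw [← mw, hmem, hY0mem]
    simp only
    omega
  · rw [← mz, hmem, hY0mem]
    simp only
    omega
  · rw [← mw, ← m0]
    intro h
    have := congrArg (fun p => p.2.val) (e.injective h)
    simp only [c0] at this
    omega
  · rw [← mw, ← m1]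
    intro h
    have := congrArg (fun p => p.2.val) (e.injective h)
    simp only [c0] at this
    omega
  · intro u hu
    obtain ⟨p, rfl⟩ := e.surjective u
    rw [hmem] at hu
    show e (S (e.symm (e p))) = _
    rw [Equiv.symm_apply_apply, hS1 p hu, he, he]
    exact hstep p.1 p.2
  · intro u hu hu0
    obtain ⟨p, rfl⟩ := e.surjective u
    rw [hmem] at hu
    show e (S (e.symm (e p))) = _
    rw [Equiv.symm_apply_apply, hS3 p hu]
    rintro rfl
    exact hu0 m0
  · show e (S (e.symm 0)) = _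
    rw [← m0, Equiv.symm_apply_apply, hS2, mτ, Nat.cast_sub hgpos]
    simp

end HarmUni
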