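import Mathlib
import Pool.Agent.Work.MP_3c38ca_co.Nec4
import Pool.Agent.Work.MP_3c38ca_co.Suf4

namespace HarmUni

open Finset

/-- Harmoniousness of the unicyclic graph with edges `v — g v`. -/
def FHarm {V : Type*} [Fintype V] (g : V → V) : Prop :=
  ∃ f : V → ZMod (Fintype.card V), Function.Injective f ∧
    Function.Injective (fun v => f v + f (g v))

lemma c4_count {V : Type*} [Fintype V] [DecidableEq V] (g : V → V) (x y z w : V)
    (hxy : x ≠ y) (hxz : x ≠ z) (hxw : x ≠ w) (hyz : y ≠ z) (hyw : y ≠ w)
    (gx : g x = y) (gy : g y = z) (gz : g z = w) (gw : g w = x)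
    (hl : ∀ v, v ≠ x → v ≠ y → v ≠ z → v ≠ w → g v = x ∨ g v = y) :
    (univ.filter (fun v => g v = x)).card + (univ.filter (fun v => g v = y)).card + 2
      = Fintype.card V := by
  classical
  have h1 : (Finset.univ : Finset V) = ((univ.filter (fun v => g v = x)) ∪
      (univ.filter (fun v => g v = y))) ∪ {y, z} := by
    ext v
    simp only [mem_univ, mem_union, mem_filter, true_and, mem_insert, mem_singleton, true_iff]
    by_cases h1 : v = x
    · left; right; rw [h1, gx]
    · by_cases h2 : v = y
      · right; left; exact h2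
      · by_cases h3 : v = z
        · right; right; exact h3
        · by_cases h4 : v = w
          · left; left; rw [h4, gw]
          · left; exact hl v h1 h2 h3 h4
  have h2 := congrArg Finset.card h1
  rw [Finset.card_univ] at h2
  rw [h2, Finset.card_union_of_disjoint, Finset.card_union_of_disjoint,
    Finset.card_pair hyz]
  · rw [Finset.disjoint_left]
    intro v hv hv2
    have e1 := (mem_filter.1 hv).2
    have e2 := (mem_filter.1 hv2).2
    exact hxy (e1.symm.trans e2)
  · rw [Finset.disjoint_left]
    intro v hv hv2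
    rw [mem_insert, mem_singleton] at hv2
    rw [mem_union, mem_filter, mem_filter] at hv
    rcases hv2 with h | h
    · rw [h, gy] at hv
      rcases hv with h | h
      · exact hxz h.2.symm
      · exact hyz h.2.symm
    · rw [h, gz] at hv
      rcases hv with h | h
      · exact hxw h.2.symm
      · exact hyw h.2.symm

theorem c4_iff {V : Type*} [Fintype V] [DecidableEq V] (g : V → V) (x y z w : V)
    (hxy : x ≠ y) (hxz : x ≠ z) (hxw : x ≠ w) (hyz : y ≠ z) (hyw : y ≠ w) (hzw : z ≠ w)
    (gx : g x = y) (gy : g y = z) (gz : g z = w) (gw : g w = x)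
    (hl : ∀ v, v ≠ x → v ≠ y → v ≠ z → v ≠ w → g v = x ∨ g v = y) :
    FHarm g ↔ ∃ L, L ∣ Fintype.card V ∧ 2 ≤ L ∧ 3 * L ≤ Fintype.card V ∧
      L ≤ (univ.filter (fun v => g v = x)).card ∧ L ≤ (univ.filter (fun v => g v = y)).card ∧
      ¬ L ∣ (univ.filter (fun v => g v = y)).card + 1 := by
  classical
  set a := (univ.filter (fun v => g v = x)).card with ha
  set b := (univ.filter (fun v => g v = y)).card with hb
  have : NeZero (Fintype.card V) := ⟨(Fintype.card_pos_iff.2 ⟨x⟩).ne'⟩
  let S' : Finset V := insert z ((univ.filter (fun v => g v = y)).erase x)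
  have hmemS : ∀ v, v ∈ S' ↔ v = z ∨ (v ≠ x ∧ g v = y) := by
    intro v; simp [S']
  have hzS : z ∈ S' := (hmemS z).2 (Or.inl rfl)
  have hxS : x ∉ S' := by rw [hmemS]; rintro (h | h); exact hxz h; exact h.1 rfl
  have hyS : y ∉ S' := by
    rw [hmemS]; rintro (h | h); exact hyz h; exact hyz (by rw [← h.2, gy])
  have hwS : w ∉ S' := by
    rw [hmemS]; rintro (h | h); exact hzw h.symm; exact hxy (by rw [← h.2, gw])
  have hS'card : S'.card = b := by
    have h1 : z ∉ (univ.filter (fun v => g v = y)).erase x := by
      rw [mem_erase, mem_filter]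
      rintro ⟨_, _, h⟩
      exact hyw (by rw [← h, gz])
    have h2 : x ∈ univ.filter (fun v => g v = y) := mem_filter.2 ⟨mem_univ _, gx⟩
    have h3 : 1 ≤ b := Finset.card_pos.2 ⟨x, h2⟩
    rw [Finset.card_insert_of_notMem h1, Finset.card_erase_of_mem h2, ← hb]
    omega
  have hab : a + b + 2 = Fintype.card V :=
    c4_count g x y z w hxy hxz hxw hyz hyw gx gy gz gw hl
  let ρ : Equiv.Perm V := Equiv.swap x y * Equiv.swap y z
  have ρx : ρ x = y := by
    show Equiv.swap x y (Equiv.swap y z x) = y
    rw [Equiv.swap_apply_of_ne_of_ne hxy hxz, Equiv.swap_apply_left]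
  have ρy : ρ y = z := by
    show Equiv.swap x y (Equiv.swap y z y) = z
    rw [Equiv.swap_apply_left, Equiv.swap_apply_of_ne_of_ne hxz.symm hyz.symm]
  have ρz : ρ z = x := by
    show Equiv.swap x y (Equiv.swap y z z) = x
    rw [Equiv.swap_apply_right, Equiv.swap_apply_right]
  have ρo : ∀ v, v ≠ x → v ≠ y → v ≠ z → ρ v = v := by
    intro v h1 h2 h3
    show Equiv.swap x y (Equiv.swap y z v) = v
    rw [Equiv.swap_apply_of_ne_of_ne h2 h3, Equiv.swap_apply_of_ne_of_ne h1 h2]
  constructor
  · rintro ⟨f0, hf0, hσ0⟩
    let f : V → ZMod (Fintype.card V) := fun v => f0 v - f0 x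
    have hf : Function.Injective f := fun u v h => hf0 (sub_left_injective h)
    have hfx : f x = 0 := sub_self _
    have hσ : Function.Injective (fun v => f v + f (g v)) := by
      intro u v h
      apply hσ0
      have h' : f0 u - f0 x + (f0 (g u) - f0 x) = f0 v - f0 x + (f0 (g v) - f0 x) := h
      show f0 u + f0 (g u) = f0 v + f0 (g v)
      have e1 : f0 u + f0 (g u) = (f0 u - f0 x + (f0 (g u) - f0 x)) + (f0 x + f0 x) := by abel
      have e2 : f0 v + f0 (g v) = (f0 v - f0 x + (f0 (g v) - f0 x)) + (f0 x + f0 x) := by abel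
      rw [e1, e2, h']
    have hbij : Function.Bijective f := by
      rw [Fintype.bijective_iff_injective_and_card]
      exact ⟨hf, by rw [ZMod.card]⟩
    let e := Equiv.ofBijective f hbij
    have he : ∀ v, e v = f v := fun v => rfl
    let T : ZMod (Fintype.card V) → ZMod (Fintype.card V) := fun u =>
      (fun v => f v + f (g v)) (ρ.symm (e.symm u))
    have hT : ∀ v, T (f (ρ v)) = f v + f (g v) := by
      intro v
      show (fun v => f v + f (g v)) (ρ.symm (e.symm (f (ρ v)))) = _
      rw [← he, Equiv.symm_apply_apply, Equiv.symm_apply_apply]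
    have hTinj : Function.Injective T := hσ.comp (ρ.symm.injective.comp e.symm.injective)
    have hmemY : ∀ v, f v ∈ S'.image f ↔ v ∈ S' := fun v => hf.mem_finset_image
    have key := nec4 (S'.image f) T hTinj (f y) (f z) (f w)
      (by rw [← hfx]; exact fun h => hxy (hf h).symm)
      (by rw [← hfx, hmemY]; exact hxS) (by rw [hmemY]; exact hyS) (by rw [hmemY]; exact hwS)
      (by rw [hmemY]; exact hzS) (by rw [← hfx]; exact fun h => hxw (hf h).symm)
      (by
        intro u hu
        obtain ⟨v, hv, rfl⟩ := mem_image.1 hu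
        rcases (hmemS v).1 hv with h | ⟨h1, h2⟩
        · rw [h]
          have := hT y
          rw [ρy, gy] at this
          rw [this, add_comm]
        · have hvy : v ≠ y := fun h => hyS (h ▸ hv)
          by_cases hvz : v = z
          · exfalso; rw [hvz, gz] at h2; exact hyw h2.symm
          · have := hT v
            rw [ρo v h1 hvy hvz, h2] at this
            exact this)
      (by
        intro u hu hu0
        obtain ⟨v, rfl⟩ := hbij.2 u
        rw [hmemY] at hu
        have hvx : v ≠ x := fun h => hu0 (by rw [h, hfx])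
        have hvz : v ≠ z := fun h => hu (by rw [h]; exact hzS)
        by_cases hvy : v = y
        · have := hT x
          rw [ρx, gx, hfx, zero_add] at this
          rw [hvy]; exact this
        · have h3 := hT v
          rw [ρo v hvx hvy hvz] at h3
          rw [h3]
          have hgv : g v = x := by
            by_cases hvw : v = w
            · rw [hvw, gw]
            · rcases hl v hvx hvy hvz hvw with h | h
              · exact h
              · exact absurd ((hmemS v).2 (Or.inr ⟨hvx, h⟩)) hu
          rw [hgv, hfx, add_zero])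
      (by
        have := hT z
        rw [ρz, gz, hfx] at this
        exact this)
    rw [Finset.card_image_of_injective _ hf, hS'card, ZMod.card] at key
    have hcompl : ((insert 0 (insert (f y) (S'.image f)))ᶜ :
        Finset (ZMod (Fintype.card V))).card = a := by
      rw [Finset.card_compl, Finset.card_insert_of_notMem, Finset.card_insert_of_notMem,
        Finset.card_image_of_injective _ hf, hS'card, ZMod.card]
      · omega
      · rw [hmemY]; exact hyS
      · rw [mem_insert, ← hfx, hmemY]
        rintro (h | h)
        · exact hxy (hf h)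
        · exact hxS h
    rw [hcompl] at key
    exact ⟨_, key.2.1, key.1, key.2.2.1, key.2.2.2.2.1, key.2.2.2.1, key.2.2.2.2.2⟩
  · rintro ⟨L, hLn, hL2, h3L, hLa, hLb, hLd⟩
    obtain ⟨Y, T, y', z', w', hYc, hTinj, hy0, h0Y, hyY, hwY, hzY, hw0, hwy, hT1, hT2, hT3⟩ :=
      suf4 (Fintype.card V) b L hL2 hLn h3L hLb (by omega) hLd
    -- extend on S'
    obtain ⟨e1, he1⟩ := Finset.exists_equiv_extend_of_card_eq (α := {v // v ∈ S'})
      (β := ZMod (Fintype.card V)) (t := Y) (by rw [Fintype.card_coe, hS'card, hYc])
      (s := {⟨z, hzS⟩}) (f := fun _ => z') (by simpa using hzY) (by simp)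
    let p : {v // v ∉ S'} → ZMod (Fintype.card V) := fun v =>
      if v.1 = x then 0 else if v.1 = y then y' else w'
    have hcc : Fintype.card {v // v ∉ S'} = (Yᶜ).card := by
      rw [Finset.card_compl, Fintype.card_subtype_compl, Fintype.card_coe, hS'card, hYc, ZMod.card]
    obtain ⟨e2, he2⟩ := Finset.exists_equiv_extend_of_card_eq (α := {v // v ∉ S'})
      (β := ZMod (Fintype.card V)) (t := Yᶜ) hcc
      (s := {⟨x, hxS⟩, ⟨y, hyS⟩, ⟨w, hwS⟩}) (f := p)
      (by
        intro u hu
        obtain ⟨v, hv, rfl⟩ := mem_image.1 hu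
        rw [mem_compl]
        simp only [mem_insert, mem_singleton] at hv
        rcases hv with h | h | h
        · rw [h]; simpa [p] using h0Y
        · rw [h]; simpa [p, hxy.symm] using hyY
        · rw [h]; simpa [p, hxw.symm, hyw.symm] using hwY)
      (by
        intro u hu v hv huv
        simp only [coe_insert, coe_singleton, Set.mem_insert_iff, Set.mem_singleton_iff] at hu hv
        rcases hu with h | h | h <;> rcases hv with h' | h' | h' <;> rw [h, h'] at huv ⊢ <;>
          simp only [p, if_true, hxy.symm, hxw.symm, hyw.symm, if_false] at huv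
        · exact absurd huv.symm hy0
        · exact absurd huv.symm hw0
        · exact absurd huv hy0
        · exact absurd huv.symm hwy
        · exact absurd huv hw0
        · exact absurd huv hwy)
    let f : V → ZMod (Fintype.card V) := fun v =>
      if h : v ∈ S' then (e1 ⟨v, h⟩ : ZMod _) else (e2 ⟨v, h⟩ : ZMod _)
    have hf1 : ∀ v (h : v ∈ S'), f v = e1 ⟨v, h⟩ := fun v h => by simp [f, h]
    have hf2 : ∀ v (h : v ∉ S'), f v = e2 ⟨v, h⟩ := fun v h => by simp [f, h]
    have hfY : ∀ v, f v ∈ Y ↔ v ∈ S' := by
      intro v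
      by_cases h : v ∈ S'
      · rw [hf1 v h]; simp [h]
      · rw [hf2 v h]
        have := (e2 ⟨v, h⟩).2
        rw [mem_compl] at this
        simp [h, this]
    have hf : Function.Injective f := by
      intro u v h
      by_cases hu : u ∈ S'
      · have hv : v ∈ S' := by rw [← hfY, ← h, hfY]; exact hu
        rw [hf1 u hu, hf1 v hv] at h
        have := e1.injective (Subtype.ext h)
        simpa using this
      · have hv : v ∉ S' := by rw [← hfY, ← h, hfY]; exact hu
        rw [hf2 u hu, hf2 v hv] at h
        have := e2.injective (Subtype.ext h)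
        simpa using this
    have fx : f x = 0 := by
      rw [hf2 x hxS, he2 _ (by simp)]; simp [p]
    have fy : f y = y' := by
      rw [hf2 y hyS, he2 _ (by simp)]; simp [p, hxy.symm]
    have fw : f w = w' := by
      rw [hf2 w hwS, he2 _ (by simp)]; simp [p, hxw.symm, hyw.symm]
    have fz : f z = z' := by
      rw [hf1 z hzS, he1 _ (by simp)]
    refine ⟨f, hf, ?_⟩
    have hσ : (fun v => f v + f (g v)) = fun v => T (f (ρ v)) := by
      funext v
      by_cases h1 : v = x
      · rw [h1, ρx, gx, fx, fy, zero_add, hT2 _ hyY hy0]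
      · by_cases h2 : v = y
        · rw [h2, ρy, gy, fy, fz, hT1 _ hzY, add_comm]
        · by_cases h3 : v = z
          · rw [h3, ρz, gz, fz, fw, fx, hT3]
          · rw [ρo v h1 h2 h3]
            have hvx : f v ≠ 0 := by rw [← fx]; exact fun h => h1 (hf h)
            by_cases h4 : v = w
            · rw [h4, gw, fx, fw, add_zero, hT2 _ hwY hw0]
            · rcases hl v h1 h2 h3 h4 with h | h
              · rw [h, fx, add_zero, hT2 _ _ hvx]
                rw [hfY, hmemS]
                rintro (h5 | h5)
                · exact h3 h5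
                · exact hxy (h.symm.trans h5.2)
              · rw [h, fy, hT1]
                rw [hfY, hmemS]
                exact Or.inr ⟨h1, h⟩
    rw [hσ]
    exact hTinj.comp (hf.comp ρ.injective)

end HarmUni
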