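import Mathlib
import Pool.Agent.Work.MP_3c38ca_co.C4

namespace HarmUni

open Finset

lemma prefix_inj (w : ℕ → ℕ) (s s' l l' : ℕ) (hl : l < w s) (hl' : l' < w s')
    (h : ∑ t ∈ range s, w t + l = ∑ t ∈ range s', w t + l') : s = s' ∧ l = l' := by
  have mono : ∀ a b : ℕ, a < b → ∑ t ∈ range a, w t + w a ≤ ∑ t ∈ range b, w t := by
    intro a b hab
    rw [← Finset.sum_range_succ]
    exact Finset.sum_le_sum_of_subset (Finset.range_subset_range.2 hab)
  rcases Nat.lt_trichotomy s s' with h1 | h1 | h1
  · have := mono s s' h1; omega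
  · subst h1; exact ⟨rfl, by omega⟩
  · have := mono s' s h1; omega

lemma prefix_mono (w : ℕ → ℕ) (a b : ℕ) (hab : a ≤ b) :
    ∑ t ∈ range a, w t ≤ ∑ t ∈ range b, w t :=
  Finset.sum_le_sum_of_subset (Finset.range_subset_range.2 hab)

/-- An odd cycle with arbitrarily many pendant vertices attached to its vertices is harmonious. -/
theorem odd_harm {V : Type*} [Fintype V] [DecidableEq V] (g : V → V) (b : V) (h : ℕ)
    (hper : g^[2 * h + 1] b = b)
    (hinj : ∀ i < 2 * h + 1, ∀ j < 2 * h + 1, g^[i] b = g^[j] b → i = j)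
    (hall : ∀ v, (∀ i < 2 * h + 1, v ≠ g^[i] b) → ∃ i < 2 * h + 1, g v = g^[i] b) :
    FHarm g := by
  classical
  -- positions
  let c : ℕ → V := fun i => g^[i] b
  let D : ℕ → Finset V := fun i => univ.filter
    (fun v => (∀ j < 2 * h + 1, v ≠ c j) ∧ g v = c i)
  let d : ℕ → ℕ := fun i => (D i).card
  have hidx : ∀ i, ∃ φ : V → ℕ, (∀ v ∈ D i, φ v < d i) ∧
      (∀ u ∈ D i, ∀ v ∈ D i, φ u = φ v → u = v) := by
    intro i
    refine ⟨fun v => if hv : v ∈ D i then ((D i).equivFin ⟨v, hv⟩ : ℕ) else 0, ?_, ?_⟩
    · intro v hv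
      simp only [hv, dif_pos]
      exact ((D i).equivFin ⟨v, hv⟩).isLt
    · intro u hu v hv huv
      simp only [hu, hv, dif_pos] at huv
      have := (D i).equivFin.injective (Fin.ext huv)
      simpa using this
  choose φ hφlt hφinj using hidx
  -- the index of the hub
  have hpos : ∀ v, ∃ i < 2 * h + 1, (v = c i ∨ ((∀ j < 2 * h + 1, v ≠ c j) ∧ g v = c i)) := by
    intro v
    by_cases hv : ∀ j < 2 * h + 1, v ≠ c j
    · obtain ⟨i, hi, hi2⟩ := hall v hv
      exact ⟨i, hi, Or.inr ⟨hv, hi2⟩⟩
    · push Not at hv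
      obtain ⟨j, hj, hj2⟩ := hv
      exact ⟨j, hj, Or.inl hj2⟩
  choose p hplt hp using hpos
  let E : ℕ → ℕ := fun s => ∑ t ∈ range s, (d (2 * t + 1) + 1)
  let O : ℕ → ℕ := fun s => ∑ t ∈ range s, (d (2 * t) + 1)
  let P : ℕ → ℕ := fun s => ∑ t ∈ range s, (d t + 1)
  have hE1 : ∀ s, E (s + 1) = E s + (d (2 * s + 1) + 1) := fun s => Finset.sum_range_succ _ _
  have hO1 : ∀ s, O (s + 1) = O s + (d (2 * s) + 1) := fun s => Finset.sum_range_succ _ _
  have hP1 : ∀ s, P (s + 1) = P s + (d s + 1) := fun s => Finset.sum_range_succ _ _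
  have hPe : ∀ s, P (2 * s) = E s + O s := by
    intro s
    induction s with
    | zero => simp [P, E, O]
    | succ s ih =>
      rw [show 2 * (s + 1) = 2 * s + 1 + 1 by ring, hP1, hP1, ih, hE1, hO1]; ring
  have hPo : ∀ s, P (2 * s + 1) = E s + O (s + 1) := by
    intro s; rw [hP1, hPe, hO1]; ring
  -- number of vertices
  have hcard : Fintype.card V = P (2 * h + 1) := by
    have h1 : (Finset.univ : Finset V) = (range (2 * h + 1)).biUnion
        (fun i => insert (c i) (D i)) := by
      ext v
      simp only [mem_univ, mem_biUnion, mem_range, mem_insert, true_iff]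
      refine ⟨p v, hplt v, ?_⟩
      rcases hp v with h1 | h1
      · exact Or.inl h1
      · exact Or.inr (by simp only [D, mem_filter, mem_univ, true_and]; exact h1)
    rw [← Finset.card_univ, h1, Finset.card_biUnion]
    · apply Finset.sum_congr rfl
      intro i hi
      rw [Finset.card_insert_of_notMem]
      simp only [D, mem_filter, mem_univ, true_and, not_and]
      intro h2
      exact absurd rfl (h2 i (mem_range.1 hi))
    · intro i hi j hj hij
      rw [Function.onFun, Finset.disjoint_left]
      intro v hv hv2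
      simp only [mem_insert, D, mem_filter, mem_univ, true_and] at hv hv2
      rw [mem_coe, mem_range] at hi hj
      rcases hv with h1 | h1 <;> rcases hv2 with h2 | h2
      · exact hij (hinj i hi j hj (h1.symm.trans h2))
      · exact h2.1 i hi h1
      · exact h1.1 j hj h2
      · exact hij (hinj i hi j hj (h1.2.symm.trans h2.2))
  set n := Fintype.card V with hn
  let α : ℕ := E h + 1
  have hnα : n = α + O h + d (2 * h) := by
    rw [hcard, hPo, hO1]; simp only [α]; ring
  -- label of the cycle vertices, and of the new vertices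
  let U : ℕ → ℕ := fun i => if i % 2 = 0 then E (i / 2) else α + O (i / 2) + d (i - 1)
  let Lam : ℕ → ℕ → ℕ := fun i l => if i % 2 = 0 then α + O (i / 2) + l else 1 + E (i / 2) + l
  have hUe : ∀ s, U (2 * s) = E s := by
    intro s
    simp only [U, show 2 * s % 2 = 0 by omega, if_true, show 2 * s / 2 = s by omega]
  have hUo : ∀ s, U (2 * s + 1) = α + O s + d (2 * s) := by
    intro s
    simp only [U, show (2 * s + 1) % 2 = 1 by omega, show (2 * s + 1) / 2 = s by omega,
      show 2 * s + 1 - 1 = 2 * s by omega]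
    simp
  have hLe : ∀ s l, Lam (2 * s) l = α + O s + l := by
    intro s l
    simp only [Lam, show 2 * s % 2 = 0 by omega, if_true, show 2 * s / 2 = s by omega]
  have hLo : ∀ s l, Lam (2 * s + 1) l = 1 + E s + l := by
    intro s l
    simp only [Lam, show (2 * s + 1) % 2 = 1 by omega, show (2 * s + 1) / 2 = s by omega]
    simp
  -- `Lam` is injective on codes with values in `[1, n]`
  have hLrange : ∀ i < 2 * h + 1, ∀ l ≤ d i, 1 ≤ Lam i l ∧ Lam i l ≤ n := by
    intro i hi l hl
    rcases Nat.even_or_odd' i with ⟨s, rfl | rfl⟩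
    · rw [hLe]
      have h1 : O s + (d (2 * s) + 1) ≤ O (h + 1) := by
        rw [← hO1]; exact prefix_mono _ _ _ (by omega)
      rw [hO1] at h1
      constructor
      · simp only [α]; omega
      · omega
    · rw [hLo]
      have h1 : E s + (d (2 * s + 1) + 1) ≤ E h := by
        rw [← hE1]; exact prefix_mono _ _ _ (by omega)
      constructor
      · omega
      · simp only [α] at hnα; omega
  have hLinj : ∀ i < 2 * h + 1, ∀ l ≤ d i, ∀ i' < 2 * h + 1, ∀ l' ≤ d i',
      Lam i l = Lam i' l' → i = i' ∧ l = l' := by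
    intro i hi l hl i' hi' l' hl' heq
    rcases Nat.even_or_odd' i with ⟨s, rfl | rfl⟩ <;> rcases Nat.even_or_odd' i' with ⟨s', rfl | rfl⟩
    · rw [hLe, hLe] at heq
      have := prefix_inj (fun t => d (2 * t) + 1) s s' l l' (by show l < d (2 * s) + 1; omega)
        (by show l' < d (2 * s') + 1; omega) (by show O s + l = O s' + l'; omega)
      exact ⟨by rw [this.1], this.2⟩
    · rw [hLe, hLo] at heq
      have h1 : E s' + (d (2 * s' + 1) + 1) ≤ E h := by
        rw [← hE1]; exact prefix_mono _ _ _ (by omega)
      simp only [α] at heq; omega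
    · rw [hLo, hLe] at heq
      have h1 : E s + (d (2 * s + 1) + 1) ≤ E h := by
        rw [← hE1]; exact prefix_mono _ _ _ (by omega)
      simp only [α] at heq; omega
    · rw [hLo, hLo] at heq
      have := prefix_inj (fun t => d (2 * t + 1) + 1) s s' l l'
        (by show l < d (2 * s + 1) + 1; omega)
        (by show l' < d (2 * s' + 1) + 1; omega) (by show E s + l = E s' + l'; omega)
      exact ⟨by rw [this.1], this.2⟩
  -- label map
  let f : V → ZMod n := fun v =>
    if ∀ j < 2 * h + 1, v ≠ c j then ((Lam (p v) (φ (p v) v) : ℕ) : ZMod n)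
    else ((U (p v) : ℕ) : ZMod n)
  have hck : c (2 * h + 1) = c 0 := hper
  have hgc : ∀ i, g (c i) = c (i + 1) := fun i => (Function.iterate_succ_apply' g i b).symm
  have hpc : ∀ i < 2 * h + 1, p (c i) = i := by
    intro i hi
    rcases hp (c i) with h1 | h1
    · exact (hinj _ hi _ (hplt _) h1).symm
    · exact absurd rfl (h1.1 i hi)
  have hfc : ∀ i < 2 * h + 1, f (c i) = ((U i : ℕ) : ZMod n) := by
    intro i hi
    have : ¬ ∀ j < 2 * h + 1, c i ≠ c j := fun h1 => h1 i hi rfl
    simp only [f, this, if_false, hpc i hi]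
  have hU0 : U 0 = 0 := by have := hUe 0; simpa [E] using this
  -- U (i+1) as a value of Lam
  have hUL : ∀ i < 2 * h, U (i + 1) = Lam i (d i) := by
    intro i hi
    rcases Nat.even_or_odd' i with ⟨s, rfl | rfl⟩
    · rw [hUo, hLe]
    · rw [show 2 * s + 1 + 1 = 2 * (s + 1) by ring, hUe, hLo, hE1]; ring
  have hUL0 : ((U 0 : ℕ) : ZMod n) = ((Lam (2 * h) (d (2 * h)) : ℕ) : ZMod n) := by
    rw [hU0, hLe, ← hnα]; simp
  -- code of a vertex
  let code : V → ℕ × ℕ := fun v =>
    if ∀ j < 2 * h + 1, v ≠ c j then (p v, φ (p v) v)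
    else if p v = 0 then (2 * h, d (2 * h)) else (p v - 1, d (p v - 1))
  have hnc : ∀ v, (∀ j < 2 * h + 1, v ≠ c j) → v ∈ D (p v) := by
    intro v hv
    rcases hp v with h1 | h1
    · exact absurd h1 (hv _ (hplt v))
    · simp only [D, mem_filter, mem_univ, true_and]; exact h1
  have hcode_lt : ∀ v, (code v).1 < 2 * h + 1 ∧ (code v).2 ≤ d (code v).1 := by
    intro v
    by_cases hv : ∀ j < 2 * h + 1, v ≠ c j
    · have := hφlt (p v) v (hnc v hv)
      have e1 : code v = (p v, φ (p v) v) := if_pos hv
      rw [e1]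
      exact ⟨hplt v, this.le⟩
    · have h2 := hplt v
      by_cases h0 : p v = 0
      · simp only [code, hv, if_false, h0, if_true]; exact ⟨by omega, le_rfl⟩
      · simp only [code, hv, if_false, h0]; exact ⟨by omega, le_rfl⟩
  have hfcode : ∀ v, f v = ((Lam (code v).1 (code v).2 : ℕ) : ZMod n) := by
    intro v
    by_cases hv : ∀ j < 2 * h + 1, v ≠ c j
    · have e1 : code v = (p v, φ (p v) v) := if_pos hv
      have e2 : f v = ((Lam (p v) (φ (p v) v) : ℕ) : ZMod n) := if_pos hv
      rw [e1, e2]
    · have e2 : f v = ((U (p v) : ℕ) : ZMod n) := if_neg hv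
      by_cases h0 : p v = 0
      · have e1 : code v = (2 * h, d (2 * h)) := by simp only [code, hv, if_false, h0, if_true]
        rw [e1, e2, h0, hUL0]
      · have e1 : code v = (p v - 1, d (p v - 1)) := by simp only [code, hv, if_false, h0]
        have h2 := hplt v
        rw [e1, e2, ← hUL _ (by omega), Nat.sub_add_cancel (by omega)]
  have hcode_inj : Function.Injective code := by
    intro u v huv
    have hcv : ∀ v, ¬ (∀ j < 2 * h + 1, v ≠ c j) → v = c (p v) := by
      intro v hv
      rcases hp v with h1 | h1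
      · exact h1
      · exact absurd h1.1 hv
    by_cases hu : ∀ j < 2 * h + 1, u ≠ c j
    · have e1 : code u = (p u, φ (p u) u) := if_pos hu
      have l1 := hφlt (p u) u (hnc u hu)
      by_cases hv : ∀ j < 2 * h + 1, v ≠ c j
      · have e2 : code v = (p v, φ (p v) v) := if_pos hv
        rw [e1, e2, Prod.mk.injEq] at huv
        have h3 := hnc v hv
        rw [← huv.1] at h3
        exact hφinj (p u) u (hnc u hu) v h3 (by rw [huv.2, huv.1])
      · exfalso
        by_cases h0 : p v = 0
        · have e2 : code v = (2 * h, d (2 * h)) := by simp only [code, hv, if_false, h0, if_true]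
          rw [e1, e2, Prod.mk.injEq] at huv
          rw [huv.1] at l1; rw [huv.1] at huv; omega
        · have e2 : code v = (p v - 1, d (p v - 1)) := by simp only [code, hv, if_false, h0]
          rw [e1, e2, Prod.mk.injEq] at huv
          rw [huv.1] at l1; rw [huv.1] at huv; omega
    · by_cases hv : ∀ j < 2 * h + 1, v ≠ c j
      · have e2 : code v = (p v, φ (p v) v) := if_pos hv
        have l1 := hφlt (p v) v (hnc v hv)
        exfalso
        by_cases h0 : p u = 0
        · have e1 : code u = (2 * h, d (2 * h)) := by simp only [code, hu, if_false, h0, if_true]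
          rw [e1, e2, Prod.mk.injEq] at huv
          rw [← huv.1] at l1; rw [← huv.1] at huv; omega
        · have e1 : code u = (p u - 1, d (p u - 1)) := by simp only [code, hu, if_false, h0]
          rw [e1, e2, Prod.mk.injEq] at huv
          rw [← huv.1] at l1; rw [← huv.1] at huv; omega
      · have h1 := hplt u
        have h2 := hplt v
        have hpp : p u = p v := by
          by_cases h0 : p u = 0
          · have e1 : code u = (2 * h, d (2 * h)) := by simp only [code, hu, if_false, h0, if_true]
            by_cases h0' : p v = 0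
            · omega
            · have e2 : code v = (p v - 1, d (p v - 1)) := by simp only [code, hv, if_false, h0']
              rw [e1, e2, Prod.mk.injEq] at huv
              omega
          · have e1 : code u = (p u - 1, d (p u - 1)) := by simp only [code, hu, if_false, h0]
            by_cases h0' : p v = 0
            · have e2 : code v = (2 * h, d (2 * h)) := by simp only [code, hv, if_false, h0', if_true]
              rw [e1, e2, Prod.mk.injEq] at huv
              omega
            · have e2 : code v = (p v - 1, d (p v - 1)) := by simp only [code, hv, if_false, h0']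
              rw [e1, e2, Prod.mk.injEq] at huv
              omega
        rw [hcv u hu, hcv v hv, hpp]
  have hmod : ∀ a a' : ℕ, ∀ m : ℕ, m ≤ a → a < m + n → m ≤ a' → a' < m + n →
      ((a : ℕ) : ZMod n) = ((a' : ℕ) : ZMod n) → a = a' := by
    intro a a' m h1 h2 h3 h4 heq
    have h5 := (ZMod.natCast_eq_natCast_iff _ _ _).1 heq
    rcases Nat.le_total a a' with h6 | h6
    · have h7 := (Nat.modEq_iff_dvd' h6).1 h5
      rcases Nat.eq_zero_or_pos (a' - a) with h8 | h8
      · omega
      · have := Nat.le_of_dvd h8 h7; omega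
    · have h7 := (Nat.modEq_iff_dvd' h6).1 h5.symm
      rcases Nat.eq_zero_or_pos (a - a') with h8 | h8
      · omega
      · have := Nat.le_of_dvd h8 h7; omega
  refine ⟨f, ?_, ?_⟩
  · intro u v huv
    rw [hfcode, hfcode] at huv
    have l1 := hcode_lt u
    have l2 := hcode_lt v
    have r1 := hLrange _ l1.1 _ l1.2
    have r2 := hLrange _ l2.1 _ l2.2
    have := hmod _ _ 1 r1.1 (by omega) r2.1 (by omega) huv
    have := hLinj _ l1.1 _ l1.2 _ l2.1 _ l2.2 this
    exact hcode_inj (Prod.ext this.1 this.2)
  · -- edge sums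
    have hsum : ∀ v, f v + f (g v) = ((α + P (p v) +
        (if ∀ j < 2 * h + 1, v ≠ c j then φ (p v) v else d (p v)) : ℕ) : ZMod n) := by
      intro v
      by_cases hv : ∀ j < 2 * h + 1, v ≠ c j
      · rw [if_pos hv]
        have e2 : f v = ((Lam (p v) (φ (p v) v) : ℕ) : ZMod n) := if_pos hv
        have e3 : g v = c (p v) := by
          have := hnc v hv
          simp only [D, mem_filter, mem_univ, true_and] at this
          exact this.2
        rw [e2, e3, hfc _ (hplt v), ← Nat.cast_add]
        congr 1
        rcases Nat.even_or_odd' (p v) with ⟨s, hs | hs⟩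
        · rw [hs, hLe, hUe, hPe]; ring
        · rw [hs, hLo, hUo, hPo, hO1]; ring
      · rw [if_neg hv]
        have e2 : f v = ((U (p v) : ℕ) : ZMod n) := if_neg hv
        have hcv : v = c (p v) := by
          rcases hp v with h1 | h1
          · exact h1
          · exact absurd h1.1 hv
        have hlt := hplt v
        rw [e2]
        rcases Nat.lt_or_ge (p v) (2 * h) with h1 | h1
        · have e3 : g v = c (p v + 1) := by rw [← hgc, ← hcv]
          rw [e3, hfc _ (by omega), ← Nat.cast_add]
          congr 1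
          rcases Nat.even_or_odd' (p v) with ⟨s, hs | hs⟩
          · rw [hs, hUe, hUo, hPe]; ring
          · rw [hs, hUo, show 2 * s + 1 + 1 = 2 * (s + 1) by ring, hUe, hPo, hO1, hE1]; ring
        · have hs : p v = 2 * h := by omega
          have e3 : g v = c 0 := by rw [← hck, ← hs, ← hgc, ← hcv]
          rw [e3, hfc 0 (by omega), hU0, hs, hUe, hPe]
          have : α + (E h + O h) + d (2 * h) = n + E h := by rw [hnα]; ring
          rw [this]; simp
    intro u v huv
    simp only [hsum] at huv
    set lu := (if ∀ j < 2 * h + 1, u ≠ c j then φ (p u) u else d (p u)) with hlu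
    set lv := (if ∀ j < 2 * h + 1, v ≠ c j then φ (p v) v else d (p v)) with hlv
    have hb : ∀ v, (if ∀ j < 2 * h + 1, v ≠ c j then φ (p v) v else d (p v)) < d (p v) + 1 := by
      intro v
      by_cases hv : ∀ j < 2 * h + 1, v ≠ c j
      · rw [if_pos hv]; have := hφlt (p v) v (hnc v hv); omega
      · rw [if_neg hv]; omega
    have bu := hb u
    have bv := hb v
    rw [← hlu] at bu
    rw [← hlv] at bv
    have mu : P (p u) + (d (p u) + 1) ≤ P (2 * h + 1) := by
      rw [← hP1]; exact prefix_mono _ _ _ (hplt u)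
    have mv : P (p v) + (d (p v) + 1) ≤ P (2 * h + 1) := by
      rw [← hP1]; exact prefix_mono _ _ _ (hplt v)
    have h1 := hmod _ _ α (by omega) (by omega) (by omega) (by omega) huv
    have h2 := prefix_inj (fun t => d t + 1) (p u) (p v) lu lv bu bv
      (by show P (p u) + lu = P (p v) + lv; omega)
    obtain ⟨h3, h4⟩ := h2
    by_cases hu : ∀ j < 2 * h + 1, u ≠ c j
    · rw [if_pos hu] at hlu
      have l1 := hφlt (p u) u (hnc u hu)
      by_cases hv : ∀ j < 2 * h + 1, v ≠ c j
      · rw [if_pos hv] at hlv
        have h5 := hnc v hv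
        rw [← h3] at h5 hlv
        exact hφinj (p u) u (hnc u hu) v h5 (by omega)
      · rw [if_neg hv] at hlv
        rw [← h3] at hlv; omega
    · rw [if_neg hu] at hlu
      by_cases hv : ∀ j < 2 * h + 1, v ≠ c j
      · rw [if_pos hv] at hlv
        have l1 := hφlt (p v) v (hnc v hv)
        rw [← h3] at hlv l1; omega
      · have hcv : ∀ v, ¬ (∀ j < 2 * h + 1, v ≠ c j) → v = c (p v) := by
          intro v hv
          rcases hp v with h1 | h1
          · exact h1
          · exact absurd h1.1 hv
        rw [hcv u hu, hcv v hv, h3]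

end HarmUni
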