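import Mathlib
import Pool.Agent.Work.MP_3c38ca_co.C4

namespace HarmUni

open Finset

/-- A harmonious labelling (for graphs with at least as many edges as vertices). -/
def Harmonious {V : Type*} (G : SimpleGraph V) : Prop :=
  ∃ f : V → ZMod (Nat.card G.edgeSet), Function.Injective f ∧
    ∀ a b c d, G.Adj a b → G.Adj c d → f a + f b = f c + f d → s(a, b) = s(c, d)

/-- `g` presents `G`: the edges of `G` are the pairs `v, g v`, without repetition. -/
structure Pres {V : Type*} (G : SimpleGraph V) (g : V → V) : Prop where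
  adj : ∀ u v, G.Adj u v ↔ (g u = v ∨ g v = u)
  inj : Function.Injective (fun v => s(v, g v))

section
variable {V : Type*} [Fintype V] [DecidableEq V] {G : SimpleGraph V} {g : V → V}

omit [Fintype V] [DecidableEq V] in
lemma Pres.adj_g (h : Pres G g) (v : V) : G.Adj v (g v) := (h.adj _ _).2 (Or.inl rfl)

omit [Fintype V] [DecidableEq V] in
lemma Pres.g_ne (h : Pres G g) (v : V) : g v ≠ v := fun h1 => (h.adj_g v).ne h1.symm

omit [Fintype V] [DecidableEq V] in
lemma Pres.gg_ne (h : Pres G g) (v : V) : g (g v) ≠ v := by
  intro h1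
  have : v = g v := h.inj (by show s(v, g v) = s(g v, g (g v)); rw [h1]; exact Sym2.eq_swap)
  exact h.g_ne v this.symm

lemma harmonious_iff (h : Pres G g) (hcard : Nat.card G.edgeSet = Fintype.card V) :
    Harmonious G ↔ FHarm g := by
  unfold Harmonious FHarm
  rw [hcard]
  constructor
  · rintro ⟨f, hf, hs⟩
    exact ⟨f, hf, fun u v huv => h.inj (hs u (g u) v (g v) (h.adj_g u) (h.adj_g v) huv)⟩
  · rintro ⟨f, hf, hs⟩
    refine ⟨f, hf, ?_⟩
    have key : ∀ a b, G.Adj a b → ∃ v, s(a, b) = s(v, g v) ∧ f a + f b = f v + f (g v) := by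
      intro a b hab
      rcases (h.adj a b).1 hab with h1 | h1
      · exact ⟨a, by rw [h1], by rw [h1]⟩
      · exact ⟨b, by rw [h1]; exact Sym2.eq_swap, by rw [h1, add_comm]⟩
    intro a b c d hab hcd heq
    obtain ⟨u, hu1, hu2⟩ := key a b hab
    obtain ⟨v, hv1, hv2⟩ := key c d hcd
    have : u = v := hs (by show f u + f (g u) = f v + f (g v); rw [← hu2, ← hv2, heq])
    rw [hu1, hv1, this]

lemma degree_eq [DecidableRel G.Adj] (h : Pres G g) (v : V) :
    G.degree v = (univ.filter (fun u => g u = v)).card + 1 := by
  have h1 : G.neighborFinset v = insert (g v) (univ.filter (fun u => g u = v)) := by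
    ext u
    rw [SimpleGraph.mem_neighborFinset, mem_insert, mem_filter, h.adj]
    constructor
    · rintro (h | h)
      · exact Or.inl h.symm
      · exact Or.inr ⟨mem_univ _, h⟩
    · rintro (h | h)
      · exact Or.inl h.symm
      · exact Or.inr h.2
  rw [← SimpleGraph.card_neighborFinset_eq_degree, h1, Finset.card_insert_of_notMem]
  rw [mem_filter]
  rintro ⟨_, h2⟩
  exact h.gg_ne v h2

omit [Fintype V] in
/-- every connected graph with as many edges as vertices has a presentation -/
lemma exists_pres [Finite V] (hconn : G.Connected) (hcard : Nat.card G.edgeSet = Nat.card V) :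
    ∃ (g : V → V) (b : V), Pres G g ∧ (∀ v, ∃ k, g^[k] v = b) := by
  classical
  have := Fintype.ofFinite V
  obtain ⟨T, hTG, hT⟩ := hconn.exists_isTree_le
  have hTcard : T.edgeFinset.card + 1 = Fintype.card V := hT.card_edgeFinset
  have hGcard : G.edgeFinset.card = Fintype.card V := by
    rw [← Nat.card_eq_fintype_card, ← hcard, Nat.card_eq_fintype_card,
      SimpleGraph.edgeFinset_card]
  obtain ⟨e0, he0G, he0T⟩ : ∃ e ∈ G.edgeFinset, e ∉ T.edgeFinset := by
    by_contra hcon
    push Not at hcon
    have := Finset.card_le_card (show G.edgeFinset ⊆ T.edgeFinset from hcon)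
    omega
  induction e0 using Sym2.ind with
  | _ b c =>
  rw [SimpleGraph.mem_edgeFinset, SimpleGraph.mem_edgeSet] at he0G he0T
  have hTconn := hT.1
  have hpar : ∀ v, v ≠ b → ∃ w, T.Adj v w ∧ T.dist w b < T.dist v b := by
    intro v hv
    obtain ⟨p, hp⟩ := hTconn.exists_walk_length_eq_dist v b
    cases p with
    | nil => exact absurd rfl hv
    | cons hadj q =>
      rename_i w
      refine ⟨w, hadj, ?_⟩
      have h1 := SimpleGraph.dist_le q
      rw [SimpleGraph.Walk.length_cons] at hp
      omega
  choose! par hpar1 hpar2 using hpar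
  let g : V → V := fun v => if v = b then c else par v
  have gb : g b = c := if_pos rfl
  have gv : ∀ v, v ≠ b → g v = par v := fun v hv => if_neg hv
  have hadj : ∀ v, G.Adj v (g v) := by
    intro v
    by_cases hv : v = b
    · rw [hv, gb]; exact he0G
    · rw [gv v hv]; exact hTG (hpar1 v hv)
  have hinj : Function.Injective (fun v => s(v, g v)) := by
    intro u v huv
    simp only at huv
    by_cases hu : u = b
    · by_cases hv : v = b
      · rw [hu, hv]
      · exfalso
        rw [hu, gb, gv v hv] at huv
        apply he0T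
        rw [← SimpleGraph.mem_edgeSet, huv, SimpleGraph.mem_edgeSet]
        exact hpar1 v hv
    · by_cases hv : v = b
      · exfalso
        rw [hv, gb, gv u hu] at huv
        apply he0T
        rw [← SimpleGraph.mem_edgeSet, ← huv, SimpleGraph.mem_edgeSet]
        exact hpar1 u hu
      · rw [gv u hu, gv v hv] at huv
        rcases Sym2.eq_iff.1 huv with h | h
        · exact h.1
        · exfalso
          have h1 := hpar2 u hu
          have h2 := hpar2 v hv
          rw [h.2] at h1
          rw [← h.1] at h2
          omega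
  have hsurj : ∀ e ∈ G.edgeFinset, ∃ v, s(v, g v) = e := by
    have h1 : (univ.image (fun v => s(v, g v))) = G.edgeFinset := by
      apply Finset.eq_of_subset_of_card_le
      · intro e he
        obtain ⟨v, _, rfl⟩ := mem_image.1 he
        rw [SimpleGraph.mem_edgeFinset, SimpleGraph.mem_edgeSet]
        exact hadj v
      · rw [Finset.card_image_of_injective _ hinj, hGcard, Finset.card_univ]
    intro e he
    rw [← h1] at he
    obtain ⟨v, _, h⟩ := mem_image.1 he
    exact ⟨v, h⟩
  refine ⟨g, b, ⟨?_, hinj⟩, ?_⟩
  · intro u v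
    constructor
    · intro huv
      obtain ⟨w, hw⟩ := hsurj s(u, v) (by rw [SimpleGraph.mem_edgeFinset, SimpleGraph.mem_edgeSet]; exact huv)
      rcases Sym2.eq_iff.1 hw with h | h
      · left; rw [← h.1]; exact h.2
      · right; rw [← h.1]; exact h.2
    · rintro (h | h)
      · rw [← h]; exact hadj u
      · rw [← h]; exact (hadj v).symm
  · have key : ∀ n v, T.dist v b = n → ∃ k, g^[k] v = b := by
      intro n
      induction n using Nat.strong_induction_on with
      | _ n ih =>
      intro v hv
      by_cases hvb : v = b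
      · exact ⟨0, hvb⟩
      · obtain ⟨k, hk⟩ := ih _ (hv ▸ hpar2 v hvb) (par v) rfl
        exact ⟨k + 1, by rw [Function.iterate_succ_apply, gv v hvb, hk]⟩
    intro v
    exact key _ v rfl

omit [Fintype V] [DecidableEq V] in
/-- distances in terms of a presentation -/
lemma exists_iter_of_walk (h : Pres G g) {u v : V} (p : G.Walk u v) :
    ∃ i j, i + j ≤ p.length ∧ g^[i] u = g^[j] v := by
  induction p with
  | nil => exact ⟨0, 0, by simp, rfl⟩
  | cons hadj q ih =>
    obtain ⟨i, j, hij, he⟩ := ih
    rename_i a b c
    rw [SimpleGraph.Walk.length_cons]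
    rcases (h.adj _ _).1 hadj with h1 | h1
    · exact ⟨i + 1, j, by omega, by rw [Function.iterate_succ_apply, h1, he]⟩
    · cases i with
      | zero =>
        refine ⟨0, j + 1, by omega, ?_⟩
        rw [Function.iterate_succ_apply', ← he]
        exact h1.symm
      | succ i =>
        refine ⟨i, j, by omega, ?_⟩
        rw [Function.iterate_succ_apply, h1] at he
        exact he

omit [Fintype V] [DecidableEq V] in
lemma exists_iter_of_dist (h : Pres G g) (hconn : G.Connected) {u v : V} {r : ℕ}
    (hd : G.dist u v ≤ r) : ∃ i j, i + j ≤ r ∧ g^[i] u = g^[j] v := by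
  obtain ⟨p, hp⟩ := hconn.exists_walk_length_eq_dist u v
  obtain ⟨i, j, hij, he⟩ := exists_iter_of_walk h p
  exact ⟨i, j, by omega, he⟩

end

end HarmUni
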