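import Mathlib
import Pool.Agent.Work.MP_3c38ca_co.C4

namespace HarmUni

open Finset

lemma extend_label {V A : Type*} [Fintype V] [DecidableEq V] [Fintype A] [DecidableEq A]
    (hVA : Fintype.card V = Fintype.card A) (s S' : Finset V) (Y : Finset A) (p : V → A)
    (hp : Set.InjOn p s) (hcard : S'.card = Y.card) (hcomp : ∀ v ∈ s, (p v ∈ Y ↔ v ∈ S')) :
    ∃ f : V → A, Function.Injective f ∧ (∀ v ∈ s, f v = p v) ∧ ∀ v, f v ∈ Y ↔ v ∈ S' := by
  classical
  obtain ⟨e1, he1⟩ := Finset.exists_equiv_extend_of_card_eq (α := {v // v ∈ S'})
    (β := A) (t := Y) (by rw [Fintype.card_coe, hcard])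
    (s := univ.filter (fun v : {v // v ∈ S'} => v.1 ∈ s)) (f := fun v => p v.1)
    (by
      intro u hu
      obtain ⟨v, hv, rfl⟩ := mem_image.1 hu
      exact (hcomp _ (mem_filter.1 hv).2).2 v.2)
    (by
      intro u hu v hv huv
      have h1 := (mem_filter.1 (mem_coe.1 hu)).2
      have h2 := (mem_filter.1 (mem_coe.1 hv)).2
      exact Subtype.ext (hp h1 h2 huv))
  obtain ⟨e2, he2⟩ := Finset.exists_equiv_extend_of_card_eq (α := {v // v ∉ S'})
    (β := A) (t := Yᶜ) (by
      rw [Finset.card_compl, Fintype.card_subtype_compl, Fintype.card_coe, hcard, hVA])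
    (s := univ.filter (fun v : {v // v ∉ S'} => v.1 ∈ s)) (f := fun v => p v.1)
    (by
      intro u hu
      obtain ⟨v, hv, rfl⟩ := mem_image.1 hu
      rw [mem_compl, hcomp _ (mem_filter.1 hv).2]
      exact v.2)
    (by
      intro u hu v hv huv
      have h1 := (mem_filter.1 (mem_coe.1 hu)).2
      have h2 := (mem_filter.1 (mem_coe.1 hv)).2
      exact Subtype.ext (hp h1 h2 huv))
  let f : V → A := fun v =>
    if h : v ∈ S' then (e1 ⟨v, h⟩ : A) else (e2 ⟨v, h⟩ : A)
  have hf1 : ∀ v (h : v ∈ S'), f v = e1 ⟨v, h⟩ := fun v h => by simp [f, h]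
  have hf2 : ∀ v (h : v ∉ S'), f v = e2 ⟨v, h⟩ := fun v h => by simp [f, h]
  have hfY : ∀ v, f v ∈ Y ↔ v ∈ S' := by
    intro v
    by_cases h : v ∈ S'
    · rw [hf1 v h]; simp [h]
    · rw [hf2 v h]
      have := (e2 ⟨v, h⟩).2
      rw [mem_compl] at this
      simp [h, this]
  refine ⟨f, ?_, ?_, hfY⟩
  · intro u v h
    by_cases hu : u ∈ S'
    · have hv : v ∈ S' := by rw [← hfY, ← h, hfY]; exact hu
      rw [hf1 u hu, hf1 v hv] at h
      have := e1.injective (Subtype.ext h)
      simpa using this
    · have hv : v ∉ S' := by rw [← hfY, ← h, hfY]; exact hu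
      rw [hf2 u hu, hf2 v hv] at h
      have := e2.injective (Subtype.ext h)
      simpa using this
  · intro v hv
    by_cases h : v ∈ S'
    · rw [hf1 v h, he1 _ (by simp [hv])]
    · rw [hf2 v h, he2 _ (by simp [hv])]

lemma cast_inj_window {n : ℕ} (a a' m : ℕ) (h1 : m ≤ a) (h2 : a < m + n) (h3 : m ≤ a')
    (h4 : a' < m + n) (heq : ((a : ℕ) : ZMod n) = ((a' : ℕ) : ZMod n)) : a = a' := by
  have h5 := (ZMod.natCast_eq_natCast_iff _ _ _).1 heq
  rcases Nat.le_total a a' with h6 | h6
  · have h7 := (Nat.modEq_iff_dvd' h6).1 h5
    rcases Nat.eq_zero_or_pos (a' - a) with h8 | h8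
    · omega
    · have := Nat.le_of_dvd h8 h7; omega
  · have h7 := (Nat.modEq_iff_dvd' h6).1 h5.symm
    rcases Nat.eq_zero_or_pos (a - a') with h8 | h8
    · omega
    · have := Nat.le_of_dvd h8 h7; omega

/-- A triangle `x y z`, a further neighbour `s` of `x`, and all other vertices pendant at `x` or `s`,
with at least one pendant vertex at `s`. -/
theorem tri_iff {V : Type*} [Fintype V] [DecidableEq V] (g : V → V) (x y z s : V)
    (hxy : x ≠ y) (hxz : x ≠ z) (hxs : x ≠ s) (hyz : y ≠ z) (hys : y ≠ s) (hzs : z ≠ s)
    (gx : g x = y) (gy : g y = z) (gz : g z = x) (gs : g s = x)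
    (hl : ∀ v, v ≠ x → v ≠ y → v ≠ z → v ≠ s → g v = x ∨ g v = s)
    (hq : ∃ v, g v = s) :
    FHarm g ↔ (∃ v, v ≠ z ∧ v ≠ s ∧ g v = x) ∨ 4 ∣ Fintype.card V := by
  classical
  have : NeZero (Fintype.card V) := ⟨(Fintype.card_pos_iff.2 ⟨x⟩).ne'⟩
  have hcz : Fintype.card V = Fintype.card (ZMod (Fintype.card V)) := (ZMod.card _).symm
  set n := Fintype.card V with hn
  set Q := univ.filter (fun v => g v = s) with hQ
  have hmemQ : ∀ v, v ∈ Q ↔ g v = s := by intro v; simp [Q]
  have hxQ : x ∉ Q := by rw [hmemQ, gx]; exact hys
  have hyQ : y ∉ Q := by rw [hmemQ, gy]; exact hzs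
  have hzQ : z ∉ Q := by rw [hmemQ, gz]; exact hxs
  have hsQ : s ∉ Q := by rw [hmemQ, gs]; exact hxs
  have hQpos : 1 ≤ Q.card := by
    obtain ⟨v, hv⟩ := hq
    exact Finset.card_pos.2 ⟨v, (hmemQ v).2 hv⟩
  have h4 : ({x, y, z, s} : Finset V).card = 4 := by
    rw [Finset.card_insert_of_notMem, Finset.card_insert_of_notMem, Finset.card_pair hzs]
    · simp [hyz, hys]
    · simp [hxy, hxz, hxs]
  have hQdisj : Disjoint Q ({x, y, z, s} : Finset V) := by
    rw [Finset.disjoint_left]
    intro v hv hv2
    simp only [mem_insert, mem_singleton] at hv2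
    rcases hv2 with h | h | h | h <;> rw [h] at hv
    · exact hxQ hv
    · exact hyQ hv
    · exact hzQ hv
    · exact hsQ hv
  have hle : Q.card + 4 ≤ n := by
    rw [← h4, ← Finset.card_union_of_disjoint hQdisj]
    exact Finset.card_le_univ _
  let ρ : Equiv.Perm V := Equiv.swap x y
  have ρx : ρ x = y := Equiv.swap_apply_left _ _
  have ρy : ρ y = x := Equiv.swap_apply_right _ _
  have ρo : ∀ v, v ≠ x → v ≠ y → ρ v = v := fun v h1 h2 => Equiv.swap_apply_of_ne_of_ne h1 h2
  constructor
  · rintro ⟨f0, hf0, hσ0⟩
    by_cases hP : ∃ v, v ≠ z ∧ v ≠ s ∧ g v = x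
    · exact Or.inl hP
    right
    push Not at hP
    let f : V → ZMod n := fun v => f0 v - f0 x
    have hf : Function.Injective f := fun u v h => hf0 (sub_left_injective h)
    have hfx : f x = 0 := sub_self _
    have hσ : Function.Injective (fun v => f v + f (g v)) := by
      intro u v h
      apply hσ0
      have h' : f0 u - f0 x + (f0 (g u) - f0 x) = f0 v - f0 x + (f0 (g v) - f0 x) := h
      show f0 u + f0 (g u) = f0 v + f0 (g v)
      have e1 : f0 u + f0 (g u) = (f0 u - f0 x + (f0 (g u) - f0 x)) + (f0 x + f0 x) := by abel
      have e2 : f0 v + f0 (g v) = (f0 v - f0 x + (f0 (g v) - f0 x)) + (f0 x + f0 x) := by abel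
      rw [e1, e2, h']
    have hbij : Function.Bijective f := by
      rw [Fintype.bijective_iff_injective_and_card]
      exact ⟨hf, by rw [ZMod.card]⟩
    let e := Equiv.ofBijective f hbij
    have he : ∀ v, e v = f v := fun v => rfl
    let T : ZMod n → ZMod n := fun u =>
      (fun v => f v + f (g v)) (ρ.symm (e.symm u))
    have hT : ∀ v, T (f (ρ v)) = f v + f (g v) := by
      intro v
      show (fun v => f v + f (g v)) (ρ.symm (e.symm (f (ρ v)))) = _
      rw [← he, Equiv.symm_apply_apply, Equiv.symm_apply_apply]
    have hTinj : Function.Injective T := hσ.comp (ρ.symm.injective.comp e.symm.injective)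
    have hTa : T (f y) = f y := by
      have := hT x; rw [ρx, gx, hfx, zero_add] at this; exact this
    have hT0 : T 0 = f y + f z := by
      have := hT y; rw [ρy, gy, hfx] at this; exact this
    have hTb : T (f z) = f z := by
      have := hT z; rw [ρo z hxz.symm hyz.symm, gz, hfx, add_zero] at this; exact this
    have hTc : T (f s) = f s := by
      have := hT s; rw [ρo s hxs.symm hys.symm, gs, hfx, add_zero] at this; exact this
    have ha0 : f y ≠ 0 := by rw [← hfx]; exact fun h => hxy (hf h).symm
    have hb0 : f z ≠ 0 := by rw [← hfx]; exact fun h => hxz (hf h).symm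
    have hc0 : f s ≠ 0 := by rw [← hfx]; exact fun h => hxs (hf h).symm
    have hab : f y ≠ f z := fun h => hyz (hf h)
    have hac : f y ≠ f s := fun h => hys (hf h)
    have hbc : f z ≠ f s := fun h => hzs (hf h)
    have hTo : ∀ u, u ≠ 0 → u ≠ f y → u ≠ f z → u ≠ f s → T u = u + f s := by
      intro u h0 h1 h2 h3
      obtain ⟨v, rfl⟩ := hbij.2 u
      have k0 : v ≠ x := fun h => h0 (by rw [h, hfx])
      have k1 : v ≠ y := fun h => h1 (by rw [h])
      have k2 : v ≠ z := fun h => h2 (by rw [h])
      have k3 : v ≠ s := fun h => h3 (by rw [h])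
      have h5 : g v = s := by
        rcases hl v k0 k1 k2 k3 with h | h
        · exact absurd h (hP v k2 k3)
        · exact h
      have := hT v
      rw [ρo v k0 k1, h5] at this
      exact this
    generalize f y = a at *
    generalize f z = b at *
    generalize f s = c at *
    -- `u - c ∈ {0, a, b, c}` for `u` in the image of `{0, a, b, c}`
    have hback : ∀ u v, T u = v → (u = 0 ∨ u = a ∨ u = b ∨ u = c) →
        (v - c = 0 ∨ v - c = a ∨ v - c = b ∨ v - c = c) := by
      intro u v huv hu
      by_contra hcon
      push Not at hcon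
      have h1 := hTo (v - c) hcon.1 hcon.2.1 hcon.2.2.1 hcon.2.2.2
      have h2 : v - c = u := hTinj (by rw [h1, sub_add_cancel, huv])
      rw [h2] at hcon
      rcases hu with h | h | h | h
      · exact hcon.1 h
      · exact hcon.2.1 h
      · exact hcon.2.2.1 h
      · exact hcon.2.2.2 h
    have hsum : a + b = c + c := by
      have h1 := hback 0 (a + b) hT0 (Or.inl rfl)
      rcases h1 with h | h | h | h
      · exfalso
        have h2 : a + b = c := sub_eq_zero.1 h
        rw [h2, ← hTc] at hT0
        exact hc0 (hTinj hT0).symm
      · exfalso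
        apply hbc
        have : a + b - c = a + (b - c) := by abel
        rw [this] at h
        exact sub_eq_zero.1 (by simpa using h)
      · exfalso
        apply hac
        have : a + b - c = b + (a - c) := by abel
        rw [this] at h
        exact sub_eq_zero.1 (by simpa using h)
      · exact sub_eq_iff_eq_add.1 h
    have hA := hback a a hTa (Or.inr (Or.inl rfl))
    have hB := hback b b hTb (Or.inr (Or.inr (Or.inl rfl)))
    have hA' : a = b + c ∨ a = c + c := by
      rcases hA with h | h | h | h
      · exact absurd (sub_eq_zero.1 h) hac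
      · exfalso; apply hc0; simpa using h
      · left; exact sub_eq_iff_eq_add.1 h
      · right; exact sub_eq_iff_eq_add.1 h
    have hB' : b = a + c ∨ b = c + c := by
      rcases hB with h | h | h | h
      · exact absurd (sub_eq_zero.1 h) hbc
      · left; exact sub_eq_iff_eq_add.1 h
      · exfalso; apply hc0; simpa using h
      · right; exact sub_eq_iff_eq_add.1 h
    rcases hA' with h1 | h1
    · rcases hB' with h2 | h2
      · -- main case
        have hcc : c + c = 0 := by
          have : a = a + (c + c) := by
            calc a = b + c := h1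
              _ = (a + c) + c := by rw [← h2]
              _ = a + (c + c) := by abel
          simpa using this
        have hbb : b + b = c := by
          have h3 : b + b + c = 0 := by
            calc b + b + c = a + b := by rw [h1]; abel
              _ = 0 := by rw [hsum, hcc]
          have h4 : b + b = -c := eq_neg_of_add_eq_zero_left h3
          rw [h4]
          exact neg_eq_of_add_eq_zero_left hcc
        have hord : addOrderOf b = 2 ^ (1 + 1) := by
          apply addOrderOf_eq_prime_pow
          · rw [pow_one, two_nsmul, hbb]; exact hc0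
          · have : (2 ^ (1 + 1)) • b = (b + b) + (b + b) := by
              rw [show 2 ^ (1 + 1) = 4 by norm_num]
              rw [show (4 : ℕ) = 2 + 2 by norm_num, add_smul, two_nsmul]
            rw [this, hbb, hcc]
        have h5 : addOrderOf b ∣ Fintype.card (ZMod n) := addOrderOf_dvd_card
        rw [hord, ZMod.card] at h5
        exact h5
      · exfalso
        -- b = 2c, a = 3c, a + b = 2c
        apply ha0
        have h3 : a + (c + c) = c + c := by rw [← h2]; rw [hsum, ← h2]
        simpa using h3
    · exfalso
      apply hb0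
      have h3 : (c + c) + b = c + c := by rw [← h1]; rw [hsum, ← h1]
      simpa using h3
  · intro hor
    by_cases hP : ∃ v, v ≠ z ∧ v ≠ s ∧ g v = x
    · -- explicit labelling
      obtain ⟨v0, hv0z, hv0s, hv0⟩ := hP
      have hv0Q : v0 ∉ insert x (insert y (insert z (insert s Q))) := by
        simp only [mem_insert, not_or]
        refine ⟨?_, ?_, hv0z, hv0s, ?_⟩
        · intro h; rw [h, gx] at hv0; exact hxy hv0.symm
        · intro h; rw [h, gy] at hv0; exact hxz hv0.symm
        · rw [hmemQ, hv0]; exact hxs
      have hle5 : Q.card + 5 ≤ n := by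
        have h1 : (insert v0 (insert x (insert y (insert z (insert s Q))))).card = Q.card + 5 := by
          rw [Finset.card_insert_of_notMem hv0Q, Finset.card_insert_of_notMem,
            Finset.card_insert_of_notMem, Finset.card_insert_of_notMem,
            Finset.card_insert_of_notMem hsQ]
          · simp [hzs, hzQ]
          · simp [hyz, hys, hyQ]
          · simp [hxy, hxz, hxs, hxQ]
        rw [← h1]; exact Finset.card_le_univ _
      set m := n - Q.card with hm
      have hm5 : 5 ≤ m := by omega
      have hmn : m < n := by omega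
      have hvalc : ∀ k : ℕ, k < n → ((k : ℕ) : ZMod n).val = k := fun k hk => by
        rw [ZMod.val_natCast, Nat.mod_eq_of_lt hk]
      let Y : Finset (ZMod n) := univ.filter (fun u => m ≤ u.val)
      have hYcard : Y.card = Q.card := by
        have h1 : Y.image ZMod.val = Finset.Ico m n := by
          ext k
          simp only [Y, mem_image, mem_filter, mem_univ, true_and, mem_Ico]
          constructor
          · rintro ⟨q, hq, rfl⟩; exact ⟨hq, ZMod.val_lt q⟩
          · rintro ⟨h1, h2⟩
            exact ⟨(k : ZMod n), by rw [hvalc k h2]; exact h1, hvalc k h2⟩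
        rw [← Finset.card_image_of_injective _ (ZMod.val_injective n), h1, Nat.card_Ico]
        omega
      let p : V → ZMod n := fun v => if v = x then ((0 : ℕ) : ZMod n) else
        if v = y then ((2 : ℕ) : ZMod n) else if v = z then ((m - 2 : ℕ) : ZMod n)
        else ((1 : ℕ) : ZMod n)
      have px : p x = ((0 : ℕ) : ZMod n) := by simp [p]
      have py : p y = ((2 : ℕ) : ZMod n) := by simp [p, hxy.symm]
      have pz : p z = ((m - 2 : ℕ) : ZMod n) := by simp [p, hxz.symm, hyz.symm]
      have ps : p s = ((1 : ℕ) : ZMod n) := by simp [p, hxs.symm, hys.symm, hzs.symm]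
      have hne : ∀ k k' : ℕ, k < n → k' < n → k ≠ k' → ((k : ℕ) : ZMod n) ≠ ((k' : ℕ) : ZMod n) := by
        intro k k' h1 h2 h3 h4
        exact h3 (cast_inj_window k k' 0 (by omega) (by omega) (by omega) (by omega) h4)
      obtain ⟨f, hf, hfs, hfY⟩ := extend_label hcz {x, y, z, s} Q Y p
        (by
          intro u hu v hv huv
          simp only [coe_insert, coe_singleton, Set.mem_insert_iff, Set.mem_singleton_iff] at hu hv
          rcases hu with h | h | h | h <;> rcases hv with h' | h' | h' | h' <;>
            rw [h, h'] at huv ⊢ <;> simp only [px, py, pz, ps] at huv <;> exfalso <;> revert huv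
          · exact hne _ _ (by omega) (by omega) (by omega)
          · exact hne _ _ (by omega) (by omega) (by omega)
          · exact hne _ _ (by omega) (by omega) (by omega)
          · exact hne _ _ (by omega) (by omega) (by omega)
          · exact hne _ _ (by omega) (by omega) (by omega)
          · exact hne _ _ (by omega) (by omega) (by omega)
          · exact hne _ _ (by omega) (by omega) (by omega)
          · exact hne _ _ (by omega) (by omega) (by omega)
          · exact hne _ _ (by omega) (by omega) (by omega)
          · exact hne _ _ (by omega) (by omega) (by omega)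
          · exact hne _ _ (by omega) (by omega) (by omega)
          · exact hne _ _ (by omega) (by omega) (by omega))
        hYcard.symm
        (by
          intro v hv
          simp only [mem_insert, mem_singleton] at hv
          simp only [Y, mem_filter, mem_univ, true_and]
          rcases hv with h | h | h | h <;> rw [h]
          · rw [px, hvalc _ (by omega)]; simp only [hxQ, iff_false]; omega
          · rw [py, hvalc _ (by omega)]; simp only [hyQ, iff_false]; omega
          · rw [pz, hvalc _ (by omega)]; simp only [hzQ, iff_false]; omega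
          · rw [ps, hvalc _ (by omega)]; simp only [hsQ, iff_false]; omega)
      have fx : f x = 0 := by rw [hfs x (by simp), px]; simp
      have fy : f y = ((2 : ℕ) : ZMod n) := by rw [hfs y (by simp), py]
      have fz : f z = ((m - 2 : ℕ) : ZMod n) := by rw [hfs z (by simp), pz]
      have fs : f s = ((1 : ℕ) : ZMod n) := by rw [hfs s (by simp), ps]
      refine ⟨f, hf, ?_⟩
      let T' : ℕ → ℕ := fun k => if k = 0 then m else if k < m then k else k + 1
      have hT'r : ∀ k < n, 1 ≤ T' k ∧ T' k < 1 + n := by
        intro k hk
        simp only [T']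
        split_ifs <;> omega
      have hT'i : ∀ k < n, ∀ k' < n, T' k = T' k' → k = k' := by
        intro k hk k' hk' h
        simp only [T'] at h
        split_ifs at h <;> omega
      let T : ZMod n → ZMod n := fun u => ((T' u.val : ℕ) : ZMod n)
      have hTinj : Function.Injective T := by
        intro u v huv
        have h1 := hT'r _ (ZMod.val_lt u)
        have h2 := hT'r _ (ZMod.val_lt v)
        have h3 := cast_inj_window _ _ 1 h1.1 h1.2 h2.1 h2.2 huv
        exact ZMod.val_injective n (hT'i _ (ZMod.val_lt u) _ (ZMod.val_lt v) h3)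
      have hσ : (fun v => f v + f (g v)) = fun v => T (f (ρ v)) := by
        funext v
        have hfQ : ∀ v, v ∈ Q ↔ m ≤ (f v).val := by
          intro v; rw [← hfY]; simp [Y]
        have hmid : ∀ v, v ≠ x → v ∉ Q → T (f v) = f v := by
          intro v h1 h2
          rw [hfQ] at h2
          have h3 : (f v).val ≠ 0 := by
            rw [Ne, ZMod.val_eq_zero, ← fx]; exact fun h => h1 (hf h)
          show ((T' (f v).val : ℕ) : ZMod n) = f v
          have : T' (f v).val = (f v).val := by simp only [T']; split_ifs <;> omega
          rw [this, ZMod.natCast_val, ZMod.cast_id]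
        by_cases h1 : v = x
        · rw [h1, ρx, gx, fx, zero_add, hmid y hxy.symm hyQ]
        · by_cases h2 : v = y
          · rw [h2, ρy, gy, fy, fz, fx, ← Nat.cast_add]
            show ((2 + (m - 2) : ℕ) : ZMod n) = ((T' (0 : ZMod n).val : ℕ) : ZMod n)
            rw [ZMod.val_zero, show 2 + (m - 2) = m by omega]
            simp [T']
          · rw [ρo v h1 h2]
            by_cases h3 : v = z
            · rw [h3, gz, fx, add_zero, hmid z hxz.symm hzQ]
            · by_cases h4 : v = s
              · rw [h4, gs, fx, add_zero, hmid s hxs.symm hsQ]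
              · rcases hl v h1 h2 h3 h4 with h | h
                · rw [h, fx, add_zero, hmid v h1]
                  rw [hmemQ, h]; exact hxs
                · rw [h, fs]
                  have h5 := (hfQ v).1 ((hmemQ v).2 h)
                  show _ = ((T' (f v).val : ℕ) : ZMod n)
                  have h6 : T' (f v).val = (f v).val + 1 := by simp only [T']; split_ifs <;> omega
                  rw [h6, Nat.cast_add, ZMod.natCast_val, ZMod.cast_id]
      rw [hσ]
      exact hTinj.comp (hf.comp ρ.injective)
    · have h4n : 4 ∣ n := hor.resolve_left hP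
      push Not at hP
      obtain ⟨k, hk⟩ := h4n
      have hk1 : 1 ≤ k := by omega
      have hne : ∀ k k' : ℕ, k < n → k' < n → k ≠ k' → ((k : ℕ) : ZMod n) ≠ ((k' : ℕ) : ZMod n) := by
        intro k k' h1 h2 h3 h4
        exact h3 (cast_inj_window k k' 0 (by omega) (by omega) (by omega) (by omega) h4)
      let p : V → ZMod n := fun v => if v = x then ((0 : ℕ) : ZMod n) else
        if v = y then ((k : ℕ) : ZMod n) else if v = z then ((3 * k : ℕ) : ZMod n)
        else ((2 * k : ℕ) : ZMod n)
      have px : p x = ((0 : ℕ) : ZMod n) := by simp [p]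
      have py : p y = ((k : ℕ) : ZMod n) := by simp [p, hxy.symm]
      have pz : p z = ((3 * k : ℕ) : ZMod n) := by simp [p, hxz.symm, hyz.symm]
      have ps : p s = ((2 * k : ℕ) : ZMod n) := by simp [p, hxs.symm, hys.symm, hzs.symm]
      obtain ⟨f, hf, hfs, -⟩ := extend_label hcz {x, y, z, s} ∅ (∅ : Finset (ZMod n)) p
        (by
          intro u hu v hv huv
          simp only [coe_insert, coe_singleton, Set.mem_insert_iff, Set.mem_singleton_iff] at hu hv
          rcases hu with h | h | h | h <;> rcases hv with h' | h' | h' | h' <;>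
            rw [h, h'] at huv ⊢ <;> simp only [px, py, pz, ps] at huv <;> exfalso <;> revert huv
          · exact hne _ _ (by omega) (by omega) (by omega)
          · exact hne _ _ (by omega) (by omega) (by omega)
          · exact hne _ _ (by omega) (by omega) (by omega)
          · exact hne _ _ (by omega) (by omega) (by omega)
          · exact hne _ _ (by omega) (by omega) (by omega)
          · exact hne _ _ (by omega) (by omega) (by omega)
          · exact hne _ _ (by omega) (by omega) (by omega)
          · exact hne _ _ (by omega) (by omega) (by omega)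
          · exact hne _ _ (by omega) (by omega) (by omega)
          · exact hne _ _ (by omega) (by omega) (by omega)
          · exact hne _ _ (by omega) (by omega) (by omega)
          · exact hne _ _ (by omega) (by omega) (by omega))
        (by simp) (by intro v _; simp)
      have fx : f x = 0 := by rw [hfs x (by simp), px]; simp
      have fy : f y = ((k : ℕ) : ZMod n) := by rw [hfs y (by simp), py]
      have fz : f z = ((3 * k : ℕ) : ZMod n) := by rw [hfs z (by simp), pz]
      have fs : f s = ((2 * k : ℕ) : ZMod n) := by rw [hfs s (by simp), ps]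
      have h4k : ((k : ℕ) : ZMod n) + ((3 * k : ℕ) : ZMod n) = 0 := by
        rw [← Nat.cast_add, show k + 3 * k = n by omega]; simp
      have h22 : ((2 * k : ℕ) : ZMod n) + ((2 * k : ℕ) : ZMod n) = 0 := by
        rw [← Nat.cast_add, show 2 * k + 2 * k = n by omega]; simp
      have h13 : ((k : ℕ) : ZMod n) + ((2 * k : ℕ) : ZMod n) = ((3 * k : ℕ) : ZMod n) := by
        rw [← Nat.cast_add, show k + 2 * k = 3 * k by omega]
      have h31 : ((3 * k : ℕ) : ZMod n) + ((2 * k : ℕ) : ZMod n) = ((k : ℕ) : ZMod n) := by
        rw [← h13, add_assoc, h22, add_zero]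
      refine ⟨f, hf, ?_⟩
      let K : Finset (ZMod n) := {0, ((k : ℕ) : ZMod n), ((2 * k : ℕ) : ZMod n),
        ((3 * k : ℕ) : ZMod n)}
      have hmemK : ∀ u, u ∈ K ↔ u = 0 ∨ u = ((k : ℕ) : ZMod n) ∨ u = ((2 * k : ℕ) : ZMod n) ∨
          u = ((3 * k : ℕ) : ZMod n) := by
        intro u; simp only [K, mem_insert, mem_singleton]
      have hKinv : ∀ u ∈ K, u + ((2 * k : ℕ) : ZMod n) ∈ K := by
        intro u hu
        rw [hmemK] at hu ⊢
        rcases hu with h | h | h | h <;> rw [h]
        · right; right; left; rw [zero_add]
        · right; right; right; exact h13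
        · left; exact h22
        · right; left; exact h31
      let T : ZMod n → ZMod n := fun u => if u ∈ K then u else u + ((2 * k : ℕ) : ZMod n)
      have hcross : ∀ u v, u ∈ K → v ∉ K → u ≠ v + ((2 * k : ℕ) : ZMod n) := by
        intro u v hu hv h
        apply hv
        have : v = u + ((2 * k : ℕ) : ZMod n) := by rw [h, add_assoc, h22, add_zero]
        rw [this]; exact hKinv u hu
      have hTinj : Function.Injective T := by
        intro u v huv
        simp only [T] at huv
        by_cases hu : u ∈ K
        · by_cases hv : v ∈ K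
          · simpa [hu, hv] using huv
          · exfalso
            rw [if_pos hu, if_neg hv] at huv
            exact hcross u v hu hv huv
        · by_cases hv : v ∈ K
          · exfalso
            rw [if_neg hu, if_pos hv] at huv
            exact hcross v u hv hu huv.symm
          · rw [if_neg hu, if_neg hv] at huv
            exact add_right_cancel huv
      have hσ : (fun v => f v + f (g v)) = fun v => T (f (ρ v)) := by
        funext v
        have hTK : ∀ u ∈ K, T u = u := fun u hu => by simp only [T, hu, if_true]
        by_cases h1 : v = x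
        · rw [h1, ρx, gx, fx, zero_add, hTK]
          rw [hmemK]; exact Or.inr (Or.inl fy)
        · by_cases h2 : v = y
          · rw [h2, ρy, gy, fy, fz, fx, h4k, hTK]
            rw [hmemK]; exact Or.inl rfl
          · rw [ρo v h1 h2]
            by_cases h3 : v = z
            · rw [h3, gz, fx, add_zero, hTK]
              rw [hmemK]; exact Or.inr (Or.inr (Or.inr fz))
            · by_cases h4 : v = s
              · rw [h4, gs, fx, add_zero, hTK]
                rw [hmemK]; exact Or.inr (Or.inr (Or.inl fs))
              · rcases hl v h1 h2 h3 h4 with h | h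
                · exact absurd h (hP v h3 h4)
                · rw [h, fs]
                  have hnK : f v ∉ K := by
                    rw [hmemK, ← fx, ← fy, ← fz, ← fs]
                    rintro (h5 | h5 | h5 | h5)
                    · exact h1 (hf h5)
                    · exact h2 (hf h5)
                    · exact h4 (hf h5)
                    · exact h3 (hf h5)
                  show _ = T (f v)
                  simp only [T, hnK, if_false]
      rw [hσ]
      exact hTinj.comp (hf.comp ρ.injective)

end HarmUni
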