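import Mathlib
import Pool.Agent.Work.MP_3c38ca_co.Pres
import Pool.Agent.Work.MP_3c38ca_co.Odd
import Pool.Agent.Work.MP_3c38ca_co.Tri

namespace HarmUni

open Finset

/-- `G` is the six-cycle (for connected `G`). -/
def Ex1 {V : Type*} [Fintype V] (G : SimpleGraph V) [DecidableRel G.Adj] : Prop :=
  Fintype.card V = 6 ∧ ∀ v, G.degree v = 2

/-- `G` contains a four-cycle with two adjacent vertices of degree two, and the other two vertices
`x`, `y` of this cycle violate the arithmetic condition. -/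
def Ex2 {V : Type*} [Fintype V] (G : SimpleGraph V) [DecidableRel G.Adj] : Prop :=
  ∃ x y z w, G.Adj x y ∧ G.Adj y z ∧ G.Adj z w ∧ G.Adj w x ∧ x ≠ z ∧ y ≠ w ∧
    G.degree z = 2 ∧ G.degree w = 2 ∧
    ¬ ∃ L, 2 ≤ L ∧ 3 * L ≤ Fintype.card V ∧ L ∣ Fintype.card V ∧ L < G.degree x ∧
      L < G.degree y ∧ ¬ L ∣ G.degree x

/-- `G` contains a triangle with two vertices of degree two and one vertex of degree three, whose
third neighbour is not a leaf, and the order of `G` is not divisible by four. -/
def Ex3 {V : Type*} [Fintype V] (G : SimpleGraph V) [DecidableRel G.Adj] : Prop :=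
  (∃ x y z s, G.Adj x y ∧ G.Adj y z ∧ G.Adj z x ∧ G.Adj x s ∧ s ≠ y ∧ s ≠ z ∧
    G.degree x = 3 ∧ G.degree y = 2 ∧ G.degree z = 2 ∧ 2 ≤ G.degree s) ∧
  ¬ 4 ∣ Fintype.card V

section struct

variable {V : Type*} {g : V → V} {b : V}

/-- being on the cycle -/
def InC (g : V → V) (b : V) (v : V) : Prop := ∃ i, v = g^[i] b

lemma InC.step {v : V} (h : InC g b v) : InC g b (g v) := by
  obtain ⟨i, rfl⟩ := h
  exact ⟨i + 1, (Function.iterate_succ_apply' g i b).symm⟩

lemma InC.iter {v : V} (h : InC g b v) (n : ℕ) : InC g b (g^[n] v) := by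
  induction n with
  | zero => exact h
  | succ n ih => rw [Function.iterate_succ_apply']; exact ih.step

lemma periodic_of_reach (hr : ∀ v, ∃ k, g^[k] v = b) : b ∈ Function.periodicPts g := by
  obtain ⟨k, hk⟩ := hr (g b)
  exact ⟨k + 1, Nat.succ_pos _, hk⟩

lemma InC.minimalPeriod (hb : b ∈ Function.periodicPts g) {v : V} (h : InC g b v) :
    Function.minimalPeriod g v = Function.minimalPeriod g b := by
  obtain ⟨i, rfl⟩ := h
  exact Function.minimalPeriod_apply_iterate hb i

lemma InC.periodic (hb : b ∈ Function.periodicPts g) {v : V} (h : InC g b v) :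
    v ∈ Function.periodicPts g := by
  rw [← Function.minimalPeriod_pos_iff_mem_periodicPts, h.minimalPeriod hb,
    Function.minimalPeriod_pos_iff_mem_periodicPts]
  exact hb

lemma inC_of_periodic (hr : ∀ v, ∃ k, g^[k] v = b) {v : V} {m : ℕ} (hm : 0 < m)
    (h : g^[m] v = v) : InC g b v := by
  obtain ⟨k, hk⟩ := hr v
  have h1 : g^[m * (k + 1)] v = v := (Function.IsPeriodicPt.mul_const (show Function.IsPeriodicPt g m v from h) (k + 1))
  have h2 : k ≤ m * (k + 1) := by nlinarith
  refine ⟨m * (k + 1) - k, ?_⟩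
  rw [← hk, ← Function.iterate_add_apply, Nat.sub_add_cancel h2, h1]

lemma iter_eq_iff (i j : ℕ) (hb : b ∈ Function.periodicPts g) :
    g^[i] b = g^[j] b ↔ i % Function.minimalPeriod g b = j % Function.minimalPeriod g b := by
  have hpos := Function.minimalPeriod_pos_of_mem_periodicPts hb
  rw [← Function.iterate_mod_minimalPeriod_eq (n := i),
    ← Function.iterate_mod_minimalPeriod_eq (n := j)]
  exact Function.iterate_eq_iterate_iff_of_lt_minimalPeriod (Nat.mod_lt _ hpos) (Nat.mod_lt _ hpos)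

lemma InC.inj (hb : b ∈ Function.periodicPts g) {u v : V} (hu : InC g b u) (hv : InC g b v)
    (h : g u = g v) : u = v := by
  obtain ⟨i, rfl⟩ := hu
  obtain ⟨j, rfl⟩ := hv
  rw [← Function.iterate_succ_apply' g i b, ← Function.iterate_succ_apply' g j b,
    iter_eq_iff _ _ hb] at h
  rw [iter_eq_iff _ _ hb]
  exact Nat.ModEq.add_right_cancel' 1 h

variable (hr : ∀ v, ∃ k, g^[k] v = b)
  (hD : ∀ u v, ∃ i j, i + j ≤ 3 ∧ g^[i] u = g^[j] v) (h3 : 3 ≤ Function.minimalPeriod g b)

include hr hD h3

omit h3 in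
lemma period_le_seven : Function.minimalPeriod g b ≤ 7 := by
  have hb := periodic_of_reach hr
  by_contra hcon
  set k := Function.minimalPeriod g b with hk
  obtain ⟨i, j, hij, he⟩ := hD b (g^[k / 2] b)
  rw [← Function.iterate_add_apply, iter_eq_iff _ _ hb, ← hk, Nat.mod_eq_of_lt (by omega),
    Nat.mod_eq_of_lt (by omega)] at he
  omega

lemma depth_cases {v : V} (hv : ¬ InC g b v) :
    (InC g b (g v) ∧ Function.minimalPeriod g b ≤ 5) ∨
    (¬ InC g b (g v) ∧ InC g b (g (g v)) ∧ Function.minimalPeriod g b = 3) := by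
  classical
  have hb := periodic_of_reach hr
  have hex : ∃ e, InC g b (g^[e] v) := by
    obtain ⟨e, he⟩ := hr v
    exact ⟨e, 0, he⟩
  obtain ⟨e, he, hmin⟩ : ∃ e, InC g b (g^[e] v) ∧ ∀ e' < e, ¬ InC g b (g^[e'] v) :=
    ⟨Nat.find hex, Nat.find_spec hex, fun e' h => Nat.find_min hex h⟩
  set x := g^[e] v with hx
  have hxk := he.minimalPeriod hb
  have hxp := he.periodic hb
  set k := Function.minimalPeriod g b with hk
  have key : ∀ m, ∃ i j, e ≤ i ∧ i + j ≤ 3 ∧ (i - e) % k = (j + m) % k := by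
    intro m
    obtain ⟨i, j, hij, hi⟩ := hD v (g^[m] x)
    have hei : e ≤ i := by
      by_contra hlt
      apply hmin i (by omega)
      rw [hi]
      exact (he.iter m).iter j
    refine ⟨i, j, hei, hij, ?_⟩
    rw [← hxk, ← iter_eq_iff _ _ hxp]
    rw [Function.iterate_add_apply g j m x, ← hi, hx, ← Function.iterate_add_apply,
      Nat.sub_add_cancel hei]
  have he0 : e ≠ 0 := by
    rintro rfl
    exact hv he
  have he2 : e ≤ 2 := by
    by_contra hcon
    obtain ⟨i, j, h1, h2, h4⟩ := key 1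
    have : i - e = 0 := by omega
    have : j = 0 := by omega
    subst this
    rw [Nat.mod_eq_of_lt (by omega), Nat.mod_eq_of_lt (by omega)] at h4
    omega
  rcases (by omega : e = 1 ∨ e = 2) with h1 | h1
  · left
    subst h1
    refine ⟨he, ?_⟩
    by_contra hcon
    obtain ⟨i, j, h1, h2, h4⟩ := key 3
    rw [Nat.mod_eq_of_lt (by omega), Nat.mod_eq_of_lt (by omega)] at h4
    omega
  · right
    subst h1
    refine ⟨hmin 1 (by omega), he, ?_⟩
    by_contra hcon
    obtain ⟨i, j, h1, h2, h4⟩ := key 2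
    rw [Nat.mod_eq_of_lt (by omega), Nat.mod_eq_of_lt (by omega)] at h4
    omega

omit hr h3 in
lemma hubs_close {u v : V} (hu : ¬ InC g b u) (hv : ¬ InC g b v) (hgu : InC g b (g u))
    (hgv : InC g b (g v)) : g u = g v ∨ g (g u) = g v ∨ g u = g (g v) := by
  obtain ⟨i, j, hij, he⟩ := hD u v
  have h2 : ∀ n w, InC g b (g w) → 1 ≤ n → InC g b (g^[n] w) := by
    intro n w hw hn
    obtain ⟨m, rfl⟩ : ∃ m, n = m + 1 := ⟨n - 1, by omega⟩
    rw [Function.iterate_succ_apply]; exact hw.iter m
  rcases Nat.eq_zero_or_pos i with hi | hi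
  · subst hi
    rcases Nat.eq_zero_or_pos j with hj | hj
    · subst hj; left; rw [show u = v from he]
    · exfalso; apply hu
      have he' : u = g^[j] v := he
      rw [he']; exact h2 j v hgv hj
  · rcases Nat.eq_zero_or_pos j with hj | hj
    · subst hj
      exfalso; apply hv
      have he' : g^[i] u = v := he
      rw [← he']; exact h2 i u hgu hi
    · rcases (by omega : (i = 1 ∧ j = 1) ∨ (i = 2 ∧ j = 1) ∨ (i = 1 ∧ j = 2)) with h | h | h
      · left; rw [h.1, h.2] at he; exact he
      · right; left; rw [h.1, h.2] at he; exact he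
      · right; right; rw [h.1, h.2] at he; exact he

end struct

section cyc

variable {V : Type*} [Fintype V] [DecidableEq V] {G : SimpleGraph V} {g : V → V} {b : V}

omit [Fintype V] [DecidableEq V] in
lemma three_le_period (h : Pres G g) (hr : ∀ v, ∃ k, g^[k] v = b) :
    3 ≤ Function.minimalPeriod g b := by
  have hb := periodic_of_reach hr
  have hpos := Function.minimalPeriod_pos_of_mem_periodicPts hb
  have hit : g^[Function.minimalPeriod g b] b = b := Function.iterate_minimalPeriod
  by_contra hcon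
  rcases (by omega : Function.minimalPeriod g b = 1 ∨ Function.minimalPeriod g b = 2) with h1 | h1
  · rw [h1] at hit; exact h.g_ne b hit
  · rw [h1] at hit; exact h.gg_ne b hit

omit [Fintype V] [DecidableEq V] in
lemma orient3 (h : Pres G g) {x y z : V} (h1 : G.Adj x y) (h2 : G.Adj y z) (h3 : G.Adj z x) :
    (g x = y ∧ g y = z ∧ g z = x) ∨ (g y = x ∧ g z = y ∧ g x = z) := by
  have nxy := h1.ne
  have nyz := h2.ne
  have nzx := h3.ne
  rcases (h.adj _ _).1 h1 with a | a <;> rcases (h.adj _ _).1 h2 with b | b <;>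
    rcases (h.adj _ _).1 h3 with c | c <;>
  first
  | exact Or.inl ⟨a, b, c⟩
  | exact Or.inr ⟨a, b, c⟩
  | exact absurd (a.symm.trans c) nyz
  | exact absurd (b.symm.trans c) nxy.symm
  | exact absurd (a.symm.trans b) nzx.symm

omit [Fintype V] [DecidableEq V] in
lemma orient4 (h : Pres G g) {x y z w : V} (h1 : G.Adj x y) (h2 : G.Adj y z) (h3 : G.Adj z w)
    (h4 : G.Adj w x) (hxz : x ≠ z) (hyw : y ≠ w) :
    (g x = y ∧ g y = z ∧ g z = w ∧ g w = x) ∨ (g y = x ∧ g z = y ∧ g w = z ∧ g x = w) := by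
  rcases (h.adj _ _).1 h1 with a | a <;> rcases (h.adj _ _).1 h2 with b | b <;>
    rcases (h.adj _ _).1 h3 with c | c <;> rcases (h.adj _ _).1 h4 with d | d <;>
  first
  | exact Or.inl ⟨a, b, c, d⟩
  | exact Or.inr ⟨a, b, c, d⟩
  | exact absurd (a.symm.trans b) hxz
  | exact absurd (a.symm.trans d) hyw
  | exact absurd (b.symm.trans c) hyw
  | exact absurd (c.symm.trans d) hxz.symm

omit [Fintype V] [DecidableEq V] in
lemma period_dvd (hr : ∀ v, ∃ k, g^[k] v = b) {x : V} {m : ℕ} (hm : 0 < m)
    (hx : g^[m] x = x) : Function.minimalPeriod g b ∣ m := by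
  have hC := inC_of_periodic hr hm hx
  rw [← hC.minimalPeriod (periodic_of_reach hr)]
  exact Function.IsPeriodicPt.minimalPeriod_dvd hx

omit [Fintype V] [DecidableEq V] in
lemma period_eq_three (h : Pres G g) (hr : ∀ v, ∃ k, g^[k] v = b) {x y z : V}
    (h1 : G.Adj x y) (h2 : G.Adj y z) (h3 : G.Adj z x) : Function.minimalPeriod g b = 3 := by
  have hk := three_le_period h hr
  have : Function.minimalPeriod g b ∣ 3 := by
    rcases orient3 h h1 h2 h3 with ⟨a, b', c⟩ | ⟨a, b', c⟩
    · exact period_dvd hr (x := x) (by norm_num) (by show g (g (g x)) = x; rw [a, b', c])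
    · exact period_dvd hr (x := x) (by norm_num) (by show g (g (g x)) = x; rw [c, b', a])
  have := Nat.le_of_dvd (by norm_num) this
  omega

omit [Fintype V] [DecidableEq V] in
lemma period_eq_four (h : Pres G g) (hr : ∀ v, ∃ k, g^[k] v = b) {x y z w : V}
    (h1 : G.Adj x y) (h2 : G.Adj y z) (h3 : G.Adj z w)
    (h4 : G.Adj w x) (hxz : x ≠ z) (hyw : y ≠ w) : Function.minimalPeriod g b = 4 := by
  have hk := three_le_period h hr
  have hd : Function.minimalPeriod g b ∣ 4 := by
    rcases orient4 h h1 h2 h3 h4 hxz hyw with ⟨a, b', c, d⟩ | ⟨a, b', c, d⟩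
    · exact period_dvd hr (x := x) (by norm_num) (by show g (g (g (g x))) = x; rw [a, b', c, d])
    · exact period_dvd hr (x := x) (by norm_num) (by show g (g (g (g x))) = x; rw [d, c, b', a])
  have := Nat.le_of_dvd (by norm_num) hd
  rcases (by omega : Function.minimalPeriod g b = 3 ∨ Function.minimalPeriod g b = 4) with h | h
  · rw [h] at hd; omega
  · exact h

/-- in the depth-one situation, if all degrees are two then all vertices are on the cycle -/
lemma card_eq_period (hr : ∀ v, ∃ k, g^[k] v = b) (hall : ∀ v, InC g b v) :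
    Fintype.card V = Function.minimalPeriod g b := by
  have hb := periodic_of_reach hr
  have hpos := Function.minimalPeriod_pos_of_mem_periodicPts hb
  have h1 : (Finset.univ : Finset V) = (range (Function.minimalPeriod g b)).image
      (fun i => g^[i] b) := by
    ext v
    simp only [mem_univ, mem_image, mem_range, true_iff]
    obtain ⟨i, hi⟩ := hall v
    refine ⟨i % Function.minimalPeriod g b, Nat.mod_lt _ hpos, ?_⟩
    rw [hi]; exact Function.iterate_mod_minimalPeriod_eq
  rw [← Finset.card_univ, h1, Finset.card_image_of_injOn, Finset.card_range]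
  intro i hi j hj hij
  exact (Function.iterate_eq_iterate_iff_of_lt_minimalPeriod (mem_range.1 (mem_coe.1 hi))
    (mem_range.1 (mem_coe.1 hj))).1 hij

lemma sum_zmod_six : (∑ u : ZMod 6, u) ≠ 0 := by decide

lemma even_cycle_not_harm (hn : Fintype.card V = 6) (hg : Function.Bijective g) : ¬ FHarm g := by
  rintro ⟨f, hf, hσ⟩
  have hne : NeZero (Fintype.card V) := ⟨by omega⟩
  have hbf : Function.Bijective f := by
    rw [Fintype.bijective_iff_injective_and_card]; exact ⟨hf, by rw [ZMod.card]⟩
  have hbσ : Function.Bijective (fun v => f v + f (g v)) := by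
    rw [Fintype.bijective_iff_injective_and_card]; exact ⟨hσ, by rw [ZMod.card]⟩
  have e1 : ∑ v, f v = ∑ u : ZMod (Fintype.card V), u := hbf.sum_comp (fun u => u)
  have e2 : ∑ v, (f v + f (g v)) = ∑ u : ZMod (Fintype.card V), u := hbσ.sum_comp (fun u => u)
  have e3 : ∑ v, f (g v) = ∑ v, f v := hg.sum_comp f
  rw [Finset.sum_add_distrib, e3, e1] at e2
  have e4 : ∑ u : ZMod (Fintype.card V), u = 0 := by simpa using e2
  have e5 : ∀ n : ℕ, ∀ [NeZero n], n = 6 → ∑ u : ZMod n, u ≠ 0 := by
    intro n _ h6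
    subst h6
    exact sum_zmod_six
  exact e5 _ hn e4

/-- depth-one situation: degree of a non-cycle vertex -/
lemma degree_leaf [DecidableRel G.Adj] (h : Pres G g) (hD1 : ∀ v, ¬ InC g b v → InC g b (g v))
    {v : V} (hv : ¬ InC g b v) : G.degree v = 1 := by
  rw [degree_eq h]
  have : univ.filter (fun u => g u = v) = ∅ := by
    rw [Finset.filter_eq_empty_iff]
    intro u _ hu
    apply hv
    by_cases hc : InC g b u
    · rw [← hu]; exact hc.step
    · rw [← hu]; exact hD1 u hc
  rw [this, Finset.card_empty]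

lemma ex1_card [DecidableRel G.Adj] (h : Pres G g) (hr : ∀ v, ∃ k, g^[k] v = b)
    (hD1 : ∀ v, ¬ InC g b v → InC g b (g v))
    (hE : Ex1 G) : Function.minimalPeriod g b = 6 := by
  rw [← hE.1]
  refine (card_eq_period hr ?_).symm
  intro v
  by_contra hv
  have h1 := degree_leaf h hD1 hv
  have h2 := hE.2 v
  omega

lemma not_ex3_depth1 [DecidableRel G.Adj] (h : Pres G g) (hr : ∀ v, ∃ k, g^[k] v = b)
    (hD1 : ∀ v, ¬ InC g b v → InC g b (g v)) : ¬ Ex3 G := by
  rintro ⟨⟨x, y, z, s, h1, h2, h3, h4, hsy, hsz, -, -, -, hs2⟩, -⟩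
  have hb := periodic_of_reach hr
  have key : ∀ y z : V, g x = y → g y = z → g z = x → s ≠ y → s ≠ z → False := by
    intro y z a b' c hsy hsz
    have hper : g^[3] x = x := by show g (g (g x)) = x; rw [a, b', c]
    have hx : InC g b x := inC_of_periodic hr (by norm_num) hper
    have hz : InC g b z := by rw [← b', ← a]; exact hx.step.step
    have hgs : g s = x := by
      rcases (h.adj _ _).1 h4 with h5 | h5
      · exact absurd (h5.symm.trans a) hsy
      · exact h5
    have hs : ¬ InC g b s := by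
      intro hs
      exact hsz (InC.inj hb hs hz (hgs.trans c.symm))
    have := degree_leaf h hD1 hs
    omega
  rcases orient3 h h1 h2 h3 with ⟨a, b', c⟩ | ⟨a, b', c⟩
  · exact key y z a b' c hsy hsz
  · exact key z y c b' a hsz hsy

end cyc

end HarmUni
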