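import Mathlib
import Pool.Agent.Work.MP_3c38ca_co.Diam

namespace HarmUni

open Finset

section
variable {V : Type*} [Fintype V] [DecidableEq V] {G : SimpleGraph V} [DecidableRel G.Adj]
  {g : V → V} {b : V}

lemma caseA (h : Pres G g) (hr : ∀ v, ∃ k, g^[k] v = b)
    (hD1 : ∀ v, ¬ InC g b v → InC g b (g v)) (hodd : Function.minimalPeriod g b % 2 = 1) :
    FHarm g ∧ ¬ (Ex1 G ∨ Ex2 G ∨ Ex3 G) := by
  have hb := periodic_of_reach hr
  have hk3 := three_le_period h hr
  have hkk : 2 * (Function.minimalPeriod g b / 2) + 1 = Function.minimalPeriod g b := by omega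
  constructor
  · apply odd_harm g b (Function.minimalPeriod g b / 2)
    · rw [hkk]; exact Function.iterate_minimalPeriod
    · intro i hi j hj hij
      rw [hkk] at hi hj
      exact (Function.iterate_eq_iterate_iff_of_lt_minimalPeriod hi hj).1 hij
    · intro v hv
      rw [hkk] at hv ⊢
      have hnc : ¬ InC g b v := by
        rintro ⟨i, hi⟩
        apply hv (i % Function.minimalPeriod g b) (Nat.mod_lt _ (by omega))
        rw [hi]; exact Function.iterate_mod_minimalPeriod_eq.symm
      obtain ⟨i, hi⟩ := hD1 v hnc
      refine ⟨i % Function.minimalPeriod g b, Nat.mod_lt _ (by omega), ?_⟩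
      rw [hi]; exact Function.iterate_mod_minimalPeriod_eq.symm
  · rintro (h1 | h1 | h1)
    · have := ex1_card h hr hD1 h1
      omega
    · obtain ⟨x, y, z, w, a1, a2, a3, a4, a5, a6, -⟩ := h1
      have := period_eq_four h hr a1 a2 a3 a4 a5 a6
      omega
    · exact not_ex3_depth1 h hr hD1 h1

omit [Fintype V] [DecidableRel G.Adj] [DecidableEq V] in
lemma inC_three (hr : ∀ v, ∃ k, g^[k] v = b) (hk : Function.minimalPeriod g b = 3) {x v : V}
    (hx : InC g b x) (hv : InC g b v) : v = x ∨ v = g x ∨ v = g (g x) := by
  have hb := periodic_of_reach hr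
  obtain ⟨j, rfl⟩ := hx
  obtain ⟨i, rfl⟩ := hv
  rw [← Function.iterate_succ_apply' g j b, ← Function.iterate_succ_apply' g (j + 1) b,
    iter_eq_iff _ _ hb, iter_eq_iff _ _ hb, iter_eq_iff _ _ hb, hk]
  omega

omit [Fintype V] [DecidableRel G.Adj] [DecidableEq V] in
lemma inC_four (hr : ∀ v, ∃ k, g^[k] v = b) (hk : Function.minimalPeriod g b = 4) {x v : V}
    (hx : InC g b x) (hv : InC g b v) : v = x ∨ v = g x ∨ v = g (g x) ∨ v = g (g (g x)) := by
  have hb := periodic_of_reach hr
  obtain ⟨j, rfl⟩ := hx
  obtain ⟨i, rfl⟩ := hv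
  rw [← Function.iterate_succ_apply' g j b, ← Function.iterate_succ_apply' g (j + 1) b,
    ← Function.iterate_succ_apply' g (j + 1 + 1) b,
    iter_eq_iff _ _ hb, iter_eq_iff _ _ hb, iter_eq_iff _ _ hb, iter_eq_iff _ _ hb, hk]
  omega

omit [Fintype V] [DecidableRel G.Adj] [DecidableEq V] in
lemma iter_period_self (hr : ∀ v, ∃ k, g^[k] v = b) {x : V} (hx : InC g b x) :
    g^[Function.minimalPeriod g b] x = x := by
  rw [← hx.minimalPeriod (periodic_of_reach hr)]
  exact Function.iterate_minimalPeriod

lemma caseB (h : Pres G g) (hr : ∀ v, ∃ k, g^[k] v = b)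
    (hD : ∀ u v, ∃ i j, i + j ≤ 3 ∧ g^[i] u = g^[j] v)
    {u : V} (hu : ¬ InC g b u) (hgu : ¬ InC g b (g u)) :
    FHarm g ↔ ¬ (Ex1 G ∨ Ex2 G ∨ Ex3 G) := by
  have hb := periodic_of_reach hr
  have hk3 := three_le_period h hr
  obtain ⟨hxC, hk⟩ : InC g b (g (g u)) ∧ Function.minimalPeriod g b = 3 := by
    rcases depth_cases hr hD hk3 hu with h1 | h1
    · exact absurd h1.1 hgu
    · exact h1.2
  have hdepth : ∀ v, ¬ InC g b v → InC g b (g (g v)) := by
    intro v hv
    rcases depth_cases hr hD hk3 hv with h1 | h1
    · exact h1.1.step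
    · exact h1.2.1
  obtain ⟨s, hs⟩ : ∃ s, s = g u := ⟨_, rfl⟩
  obtain ⟨x, hx⟩ : ∃ x, x = g s := ⟨_, rfl⟩
  obtain ⟨y, hy⟩ : ∃ y, y = g x := ⟨_, rfl⟩
  obtain ⟨z, hz⟩ : ∃ z, z = g y := ⟨_, rfl⟩
  have hsC : ¬ InC g b s := by rw [hs]; exact hgu
  have hxC' : InC g b x := by rw [hx, hs]; exact hxC
  have hyC : InC g b y := by rw [hy]; exact hxC'.step
  have hzC : InC g b z := by rw [hz]; exact hyC.step
  have gz : g z = x := by
    have := iter_period_self hr hxC'
    rw [hk] at this
    rw [hz, hy]; exact this
  have hxy : x ≠ y := by rw [hy]; exact (h.g_ne x).symm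
  have hyz : y ≠ z := by rw [hz]; exact (h.g_ne y).symm
  have hxz : x ≠ z := by rw [hz, hy]; exact (h.gg_ne x).symm
  have hxs : x ≠ s := fun h1 => hsC (h1 ▸ hxC')
  have hys : y ≠ s := fun h1 => hsC (h1 ▸ hyC)
  have hzs : z ≠ s := fun h1 => hsC (h1 ▸ hzC)
  have hCmem : ∀ v, InC g b v → v = x ∨ v = y ∨ v = z := by
    intro v hv
    have := inC_three hr hk hxC' hv
    rwa [← hy, ← hz] at this
  have hl : ∀ v, v ≠ x → v ≠ y → v ≠ z → v ≠ s → g v = x ∨ g v = s := by
    intro v h1 h2 h3 h4
    have hvC : ¬ InC g b v := by
      intro hc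
      rcases hCmem v hc with h | h | h
      · exact h1 h
      · exact h2 h
      · exact h3 h
    have hggv := hdepth v hvC
    obtain ⟨i, j, hij, he⟩ := hD u v
    have hj2 : ∀ j, 2 ≤ j → InC g b (g^[j] v) := by
      intro j hj
      obtain ⟨m, rfl⟩ : ∃ m, j = m + 2 := ⟨j - 2, by omega⟩
      rw [Function.iterate_add_apply]
      exact hggv.iter m
    have e1 : g^[1] u = s := hs.symm
    have e2 : g^[2] u = x := by show g (g u) = x; rw [← hs, ← hx]
    have e3 : g^[3] u = y := by show g (g (g u)) = y; rw [← hs, ← hx, ← hy]
    rcases (by omega : i = 0 ∨ i = 1 ∨ i = 2 ∨ i = 3) with hi | hi | hi | hi <;> subst hi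
    · have he' : u = g^[j] v := he
      rcases (by omega : j = 0 ∨ j = 1 ∨ 2 ≤ j) with hj | hj | hj
      · subst hj
        have : u = v := he'
        right; rw [← this, hs]
      · subst hj
        exfalso; apply hsC
        have : u = g v := he'
        rw [hs, this]; exact hggv
      · exfalso; apply hu; rw [he']; exact hj2 j hj
    · rw [e1] at he
      rcases (by omega : j = 0 ∨ j = 1 ∨ 2 ≤ j) with hj | hj | hj
      · subst hj; exact absurd he.symm h4
      · subst hj; right; exact he.symm
      · exfalso; apply hsC; rw [he]; exact hj2 j hj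
    · rw [e2] at he
      rcases (by omega : j = 0 ∨ j = 1) with hj | hj
      · subst hj; exact absurd he.symm h1
      · subst hj; left; exact he.symm
    · rw [e3] at he
      have : j = 0 := by omega
      subst this
      exact absurd he.symm h2
  rw [tri_iff g x y z s hxy hxz hxs hyz hys hzs hy.symm hz.symm gz hx.symm hl ⟨u, hs.symm⟩]
  have hne1 : ¬ Ex1 G := by
    intro hE
    have h1 := hE.2 u
    rw [degree_eq h] at h1
    have : univ.filter (fun v => g v = u) = ∅ := by
      rw [Finset.filter_eq_empty_iff]
      intro v _ hv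
      have hvC : ¬ InC g b v := by
        intro hc; apply hu; rw [← hv]; exact hc.step
      apply hsC
      rw [hs, ← hv]; exact hdepth v hvC
    rw [this] at h1
    simp at h1
  have hne2 : ¬ Ex2 G := by
    rintro ⟨x, y, z, w, a1, a2, a3, a4, a5, a6, -⟩
    have := period_eq_four h hr a1 a2 a3 a4 a5 a6
    omega
  have hfx : ({z, s} : Finset V) ⊆ univ.filter (fun v => g v = x) := by
    intro v hv
    rw [mem_insert, mem_singleton] at hv
    rw [mem_filter]
    refine ⟨mem_univ _, ?_⟩
    rcases hv with h1 | h1
    · rw [h1, gz]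
    · rw [h1, hx]
  constructor
  · rintro hor (hE | hE | hE)
    · exact hne1 hE
    · exact hne2 hE
    · obtain ⟨⟨x', y', z', s', h1, h2, h3, h4, hsy, hsz, hdx, -, -, hs2⟩, h4n⟩ := hE
      have key : ∀ y' z' : V, g x' = y' → g y' = z' → g z' = x' → s' ≠ y' → s' ≠ z' →
          x' = x := by
        intro y' z' a b' c hsy hsz
        have hper : g^[3] x' = x' := by show g (g (g x')) = x'; rw [a, b', c]
        have hx' : InC g b x' := inC_of_periodic hr (by norm_num) hper
        have hz' : InC g b z' := by rw [← b', ← a]; exact hx'.step.step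
        have hgs : g s' = x' := by
          rcases (h.adj _ _).1 h4 with h5 | h5
          · exact absurd (h5.symm.trans a) hsy
          · exact h5
        have hs' : ¬ InC g b s' := by
          intro hs'
          exact hsz (InC.inj hb hs' hz' (hgs.trans c.symm))
        rw [degree_eq h] at hs2
        obtain ⟨w, hw⟩ := Finset.card_pos.1 (show 0 < (univ.filter (fun v => g v = s')).card by omega)
        have hw' := (mem_filter.1 hw).2
        have hwC : ¬ InC g b w := by
          intro hc; apply hs'; rw [← hw']; exact hc.step
        have hws : w ≠ s := by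
          intro h5; apply hs'; rw [← hw', h5, ← hx]; exact hxC'
        rcases hl w (fun h5 => hwC (h5 ▸ hxC')) (fun h5 => hwC (h5 ▸ hyC))
          (fun h5 => hwC (h5 ▸ hzC)) hws with h5 | h5
        · exfalso; apply hs'; rw [← hw', h5]; exact hxC'
        · rw [← hgs, ← hw', h5, ← hx]
      have hxx : x' = x := by
        rcases orient3 h h1 h2 h3 with ⟨a, b', c⟩ | ⟨a, b', c⟩
        · exact key y' z' a b' c hsy hsz
        · exact key z' y' c b' a hsz hsy
      rcases hor with ⟨v, hvz, hvs, hv⟩ | h5
      · rw [hxx, degree_eq h] at hdx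
        have h6 : insert v ({z, s} : Finset V) ⊆ univ.filter (fun v => g v = x) := by
          intro w hw
          rcases mem_insert.1 hw with h7 | h7
          · rw [h7, mem_filter]; exact ⟨mem_univ _, hv⟩
          · exact hfx h7
        have h8 := Finset.card_le_card h6
        rw [Finset.card_insert_of_notMem (by simp [hvz, hvs]), Finset.card_pair hzs] at h8
        omega
      · exact h4n h5
  · intro hcon
    by_contra hno
    push Not at hno
    apply hcon
    right; right
    refine ⟨⟨x, y, z, s, ?_, ?_, ?_, ?_, hys.symm, hzs.symm, ?_, ?_, ?_, ?_⟩, hno.2⟩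
    · rw [hy]; exact h.adj_g x
    · rw [hz]; exact h.adj_g y
    · rw [← gz]; exact h.adj_g z
    · rw [hx]; exact (h.adj_g s).symm
    · rw [degree_eq h]
      have : univ.filter (fun v => g v = x) = {z, s} := by
        apply Finset.Subset.antisymm _ hfx
        intro v hv
        have hv' := (mem_filter.1 hv).2
        rw [mem_insert, mem_singleton]
        by_contra h5
        push Not at h5
        exact hno.1 v h5.1 h5.2 hv'
      rw [this, Finset.card_pair hzs]
    · rw [degree_eq h]
      have : univ.filter (fun v => g v = y) = {x} := by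
        ext v
        rw [mem_filter, mem_singleton]
        constructor
        · rintro ⟨-, hv⟩
          by_contra h1
          by_cases h2 : v = y
          · rw [h2, ← hz] at hv; exact hyz hv.symm
          · by_cases h5 : v = z
            · rw [h5, gz] at hv; exact hxy hv
            · by_cases h6 : v = s
              · rw [h6, ← hx] at hv; exact hxy hv
              · rcases hl v h1 h2 h5 h6 with h7 | h7
                · exact hxy (h7.symm.trans hv)
                · exact hys (hv.symm.trans h7)
        · intro h1; exact ⟨mem_univ _, by rw [h1, hy]⟩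
      rw [this, Finset.card_singleton]
    · rw [degree_eq h]
      have : univ.filter (fun v => g v = z) = {y} := by
        ext v
        rw [mem_filter, mem_singleton]
        constructor
        · rintro ⟨-, hv⟩
          by_contra h2
          by_cases h1 : v = x
          · rw [h1, ← hy] at hv; exact hyz hv
          · by_cases h5 : v = z
            · rw [h5, gz] at hv; exact hxz hv
            · by_cases h6 : v = s
              · rw [h6, ← hx] at hv; exact hxz hv
              · rcases hl v h1 h2 h5 h6 with h7 | h7
                · exact hxz (h7.symm.trans hv)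
                · exact hzs (hv.symm.trans h7)
        · intro h1; exact ⟨mem_univ _, by rw [h1, hz]⟩
      rw [this, Finset.card_singleton]
    · rw [degree_eq h]
      have : 0 < (univ.filter (fun v => g v = s)).card :=
        Finset.card_pos.2 ⟨u, mem_filter.2 ⟨mem_univ _, hs.symm⟩⟩
      omega

lemma caseC (h : Pres G g) (hr : ∀ v, ∃ k, g^[k] v = b)
    (hD : ∀ u v, ∃ i j, i + j ≤ 3 ∧ g^[i] u = g^[j] v)
    (hD1 : ∀ v, ¬ InC g b v → InC g b (g v)) (hk : Function.minimalPeriod g b = 4) :
    FHarm g ↔ ¬ (Ex1 G ∨ Ex2 G ∨ Ex3 G) := by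
  have hb := periodic_of_reach hr
  have hC4 : ∀ v, InC g b v → g (g (g (g v))) = v := by
    intro v hv
    have := iter_period_self hr hv
    rw [hk] at this
    exact this
  constructor
  · rintro hF (hE | hE | hE)
    · have := ex1_card h hr hD1 hE; omega
    · obtain ⟨x, y, z, w, a1, a2, a3, a4, hxz, hyw, hdz, hdw, hno⟩ := hE
      have hxy := a1.ne
      have hyz := a2.ne
      have hzw := a3.ne
      have hwx := a4.ne
      -- leaves are attached to `x` or `y`
      have hleaf : ∀ v, InC g b x → (∀ u, g u ≠ z ∨ u = y ∨ u = w) → (∀ u, g u ≠ w ∨ u = z ∨ u = x) →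
          (∀ c, InC g b c → c = x ∨ c = y ∨ c = z ∨ c = w) →
          v ≠ x → v ≠ y → v ≠ z → v ≠ w → g v = x ∨ g v = y := by
        intro v hx hz hw hmem h1 h2 h3 h4
        have hvC : ¬ InC g b v := by
          intro hc
          rcases hmem v hc with h | h | h | h
          · exact h1 h
          · exact h2 h
          · exact h3 h
          · exact h4 h
        rcases hmem _ (hD1 v hvC) with h5 | h5 | h5 | h5
        · exact Or.inl h5
        · exact Or.inr h5
        · exfalso
          rcases hz v with h6 | h6 | h6
          · exact h6 h5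
          · exact h2 h6
          · exact h4 h6
        · exfalso
          rcases hw v with h6 | h6 | h6
          · exact h6 h5
          · exact h3 h6
          · exact h1 h6
      -- a vertex with only one preimage
      have huniq : ∀ z p : V, G.degree z = 2 → g p = z → ∀ u, g u ≠ z ∨ u = p := by
        intro z p hd hp u
        by_contra hcon
        push Not at hcon
        rw [degree_eq h] at hd
        have h1 : ({p, u} : Finset V) ⊆ univ.filter (fun v => g v = z) := by
          intro v hv
          rw [mem_insert, mem_singleton] at hv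
          rcases hv with h | h
          · rw [h]; exact mem_filter.2 ⟨mem_univ _, hp⟩
          · rw [h]; exact mem_filter.2 ⟨mem_univ _, hcon.1⟩
        have h2 := Finset.card_le_card h1
        rw [Finset.card_pair (fun h => hcon.2 h.symm)] at h2
        omega
      rcases orient4 h a1 a2 a3 a4 hxz hyw with ⟨gx, gy, gz, gw⟩ | ⟨gy, gz, gw, gx⟩
      · have hxC : InC g b x := inC_of_periodic hr (m := 4) (by norm_num)
          (by show g (g (g (g x))) = x; rw [gx, gy, gz, gw])
        have hmem : ∀ c, InC g b c → c = x ∨ c = y ∨ c = z ∨ c = w := by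
          intro c hc
          have := inC_four hr hk hxC hc
          rwa [gx, gy, gz] at this
        have hl : ∀ v, v ≠ x → v ≠ y → v ≠ z → v ≠ w → g v = x ∨ g v = y := by
          intro v
          apply hleaf v hxC _ _ hmem
          · intro u
            rcases huniq z y hdz gy u with h | h
            · exact Or.inl h
            · exact Or.inr (Or.inl h)
          · intro u
            rcases huniq w z hdw gz u with h | h
            · exact Or.inl h
            · exact Or.inr (Or.inl h)
        rw [c4_iff g x y z w hxy hxz hwx.symm hyz hyw hzw gx gy gz gw hl] at hF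
        obtain ⟨L, b1, b2, b3, b4, b5, b6⟩ := hF
        have hcnt := c4_count g x y z w hxy hxz hwx.symm hyz hyw gx gy gz gw hl
        apply hno
        refine ⟨L, b2, b3, b1, by rw [degree_eq h]; omega, by rw [degree_eq h]; omega, ?_⟩
        rw [degree_eq h]
        intro hd
        apply b6
        have : (univ.filter (fun v => g v = x)).card + 1 +
            ((univ.filter (fun v => g v = y)).card + 1) = Fintype.card V := by omega
        rw [← this] at b1
        exact (Nat.dvd_add_right hd).1 b1
      · have hxC : InC g b x := inC_of_periodic hr (m := 4) (by norm_num)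
          (by show g (g (g (g x))) = x; rw [gx, gw, gz, gy])
        have hmem : ∀ c, InC g b c → c = x ∨ c = y ∨ c = z ∨ c = w := by
          intro c hc
          have := inC_four hr hk hxC hc
          rw [gx, gw, gz] at this
          tauto
        have hl : ∀ v, v ≠ y → v ≠ x → v ≠ w → v ≠ z → g v = y ∨ g v = x := by
          intro v h1 h2 h3 h4
          refine Or.symm (hleaf v hxC ?_ ?_ hmem h2 h1 h4 h3)
          · intro u
            rcases huniq z w hdz gw u with h | h
            · exact Or.inl h
            · exact Or.inr (Or.inr h)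
          · intro u
            rcases huniq w x hdw gx u with h | h
            · exact Or.inl h
            · exact Or.inr (Or.inr h)
        rw [c4_iff g y x w z hxy.symm hyw hyz hwx.symm hxz hzw.symm gy gx gw gz hl] at hF
        obtain ⟨L, b1, b2, b3, b4, b5, b6⟩ := hF
        apply hno
        refine ⟨L, b2, b3, b1, by rw [degree_eq h]; omega, by rw [degree_eq h]; omega, ?_⟩
        rw [degree_eq h]
        exact b6
    · exact not_ex3_depth1 h hr hD1 hE
  · intro hcon
    -- choose the hubs
    obtain ⟨x, hxC, hxh⟩ : ∃ x, InC g b x ∧ ∀ v, ¬ InC g b v → g v = x ∨ g v = g x := by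
      by_cases hne : ∃ u, ¬ InC g b u
      · obtain ⟨u, hu⟩ := hne
        by_cases hall : ∀ v, ¬ InC g b v → g v = g u ∨ g v = g (g u)
        · exact ⟨g u, hD1 u hu, hall⟩
        · push Not at hall
          obtain ⟨v, hv, hv1, hv2⟩ := hall
          have hgv := hD1 v hv
          have hgu := hD1 u hu
          have h1 : g u = g (g v) := by
            rcases hubs_close hD hu hv hgu hgv with h2 | h2 | h2
            · exact absurd h2.symm hv1
            · exact absurd h2.symm hv2
            · exact h2
          refine ⟨g v, hgv, ?_⟩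
          intro w hw
          have hgw := hD1 w hw
          by_contra hcw
          push Not at hcw
          have c1 : g (g u) = g w := by
            rcases hubs_close hD hu hw hgu hgw with h2 | h2 | h2
            · exact absurd (h2.symm.trans h1) hcw.2
            · exact h2
            · exfalso
              apply hcw.1
              exact InC.inj hb hgw hgv (h2.symm.trans h1)
          have c2 : g v = g (g w) := by
            rcases hubs_close hD hv hw hgv hgw with h2 | h2 | h2
            · exact absurd h2.symm hcw.1
            · exact absurd h2.symm hcw.2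
            · exact h2
          -- g v = g (g (g (g v)))... period three
          have c3 : g (g (g (g v))) = g v := by rw [← h1, c1, ← c2]
          have c4 := period_dvd hr (x := g v) (m := 3) (by norm_num) c3
          rw [hk] at c4
          omega
      · push Not at hne
        exact ⟨b, ⟨0, rfl⟩, fun v hv => absurd (hne v) hv⟩
    obtain ⟨y, hy⟩ : ∃ y, y = g x := ⟨_, rfl⟩
    obtain ⟨z, hz⟩ : ∃ z, z = g y := ⟨_, rfl⟩
    obtain ⟨w, hw⟩ : ∃ w, w = g z := ⟨_, rfl⟩
    have hyC : InC g b y := by rw [hy]; exact hxC.step
    have hzC : InC g b z := by rw [hz]; exact hyC.step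
    have hwC : InC g b w := by rw [hw]; exact hzC.step
    have gw : g w = x := by rw [hw, hz, hy]; exact hC4 x hxC
    have hxy : x ≠ y := by rw [hy]; exact (h.g_ne x).symm
    have hyz : y ≠ z := by rw [hz]; exact (h.g_ne y).symm
    have hzw : z ≠ w := by rw [hw]; exact (h.g_ne z).symm
    have hxz : x ≠ z := by rw [hz, hy]; exact (h.gg_ne x).symm
    have hyw : y ≠ w := by rw [hw, hz]; exact (h.gg_ne y).symm
    have hxw : x ≠ w := by
      intro h1
      have := h.g_ne w
      rw [gw] at this
      exact this h1
    have hmem : ∀ c, InC g b c → c = x ∨ c = y ∨ c = z ∨ c = w := by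
      intro c hc
      have := inC_four hr hk hxC hc
      rwa [← hy, ← hz, ← hw] at this
    have hl : ∀ v, v ≠ x → v ≠ y → v ≠ z → v ≠ w → g v = x ∨ g v = y := by
      intro v h1 h2 h3 h4
      have hvC : ¬ InC g b v := by
        intro hc
        rcases hmem v hc with h | h | h | h
        · exact h1 h
        · exact h2 h
        · exact h3 h
        · exact h4 h
      rw [hy]; exact hxh v hvC
    have hdeg : ∀ c p : V, InC g b c → InC g b p → g p = c → c ≠ x → c ≠ y → G.degree c = 2 := by
      intro c p hc hp hpc h1 h2
      rw [degree_eq h]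
      have : univ.filter (fun v => g v = c) = {p} := by
        ext v
        rw [mem_filter, mem_singleton]
        constructor
        · rintro ⟨-, hv⟩
          by_cases hvC : InC g b v
          · exact InC.inj hb hvC hp (hv.trans hpc.symm)
          · exfalso
            rcases hxh v hvC with h3 | h3
            · exact h1 (hv.symm.trans h3)
            · exact h2 (by rw [hy, ← h3, hv])
        · intro h3; exact ⟨mem_univ _, by rw [h3, hpc]⟩
      rw [this, Finset.card_singleton]
    rw [c4_iff g x y z w hxy hxz hxw hyz hyw hzw hy.symm hz.symm hw.symm gw hl]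
    by_contra hno
    apply hcon
    right; left
    refine ⟨x, y, z, w, ?_, ?_, ?_, ?_, hxz, hyw, hdeg z y hzC hyC hz.symm hxz.symm hyz.symm,
      hdeg w z hwC hzC hw.symm hxw.symm hyw.symm, ?_⟩
    · rw [hy]; exact h.adj_g x
    · rw [hz]; exact h.adj_g y
    · rw [hw]; exact h.adj_g z
    · rw [← gw]; exact h.adj_g w
    · rintro ⟨L, b1, b2, b3, b4, b5, b6⟩
      have hcnt := c4_count g x y z w hxy hxz hxw hyz hyw hy.symm hz.symm hw.symm gw hl
      rw [degree_eq h] at b4 b5 b6
      apply hno
      refine ⟨L, b3, b1, b2, by omega, by omega, ?_⟩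
      intro hd
      apply b6
      have : (univ.filter (fun v => g v = y)).card + 1 +
          ((univ.filter (fun v => g v = x)).card + 1) = Fintype.card V := by omega
      rw [← this] at b3
      exact (Nat.dvd_add_right hd).1 b3

lemma caseD (h : Pres G g) (hr : ∀ v, ∃ k, g^[k] v = b)
    (hD : ∀ u v, ∃ i j, i + j ≤ 3 ∧ g^[i] u = g^[j] v) (hk : Function.minimalPeriod g b = 6) :
    ¬ FHarm g ∧ Ex1 G := by
  have hb := periodic_of_reach hr
  have hall : ∀ v, InC g b v := by
    intro v
    by_contra hv
    rcases depth_cases hr hD (by omega) hv with h1 | h1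
    · have := h1.2; omega
    · have := h1.2.2; omega
  have hcard : Fintype.card V = 6 := by rw [card_eq_period hr hall, hk]
  have hinj : Function.Injective g := fun u v huv => InC.inj hb (hall u) (hall v) huv
  have hbij : Function.Bijective g := Finite.injective_iff_bijective.1 hinj
  refine ⟨even_cycle_not_harm hcard hbij, hcard, ?_⟩
  intro v
  rw [degree_eq h]
  obtain ⟨u, hu⟩ := hbij.2 v
  have : univ.filter (fun w => g w = v) = {u} := by
    ext w
    rw [mem_filter, mem_singleton]
    constructor
    · rintro ⟨-, hw⟩; exact hinj (hw.trans hu.symm)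
    · intro h1; exact ⟨mem_univ _, by rw [h1, hu]⟩
  rw [this, Finset.card_singleton]

/-- classification of the harmonious unicyclic graphs of diameter at most three -/
theorem classification (hconn : G.Connected) (huni : G.edgeFinset.card = Fintype.card V)
    (hdiam : ∀ u v, G.dist u v ≤ 3) : Harmonious G ↔ ¬ (Ex1 G ∨ Ex2 G ∨ Ex3 G) := by
  have hcard : Nat.card G.edgeSet = Fintype.card V := by
    rw [Nat.card_eq_fintype_card, ← SimpleGraph.edgeFinset_card, huni]
  obtain ⟨g, b, h, hr⟩ := exists_pres hconn (by rw [hcard, Nat.card_eq_fintype_card])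
  rw [harmonious_iff h hcard]
  have hb := periodic_of_reach hr
  have hk3 := three_le_period h hr
  have hD : ∀ u v, ∃ i j, i + j ≤ 3 ∧ g^[i] u = g^[j] v :=
    fun u v => exists_iter_of_dist h hconn (hdiam u v)
  have hk7 := period_le_seven hr hD
  by_cases hD1 : ∀ v, ¬ InC g b v → InC g b (g v)
  · rcases Nat.even_or_odd (Function.minimalPeriod g b) with he | ho
    · obtain ⟨m, hm⟩ := he
      rcases (by omega : Function.minimalPeriod g b = 4 ∨ Function.minimalPeriod g b = 6)
        with h4 | h6
      · exact caseC h hr hD hD1 h4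
      · have := caseD h hr hD h6
        exact ⟨fun h1 => absurd h1 this.1, fun h1 => absurd (Or.inl this.2) h1⟩
    · have := caseA h hr hD1 (Nat.odd_iff.1 ho)
      exact ⟨fun _ => this.2, fun _ => this.1⟩
  · push Not at hD1
    obtain ⟨u, hu, hgu⟩ := hD1
    exact caseB h hr hD hu hgu

end

end HarmUni
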