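import Mathlib

namespace HarmUni

open Finset

/-- an integer valued homomorphism on `ℤ^r` which does not vanish on given nonzero vectors -/
lemma exists_hom_ne_zero {r : ℕ} (S : Finset (Fin r →₀ ℤ)) (hS : ∀ s ∈ S, s ≠ 0) :
    ∃ χ : (Fin r →₀ ℤ) →+ ℤ, ∀ s ∈ S, χ s ≠ 0 := by
  classical
  -- the polynomial attached to a vector
  let P : (Fin r →₀ ℤ) → Polynomial ℤ := fun s => ∑ i : Fin r, Polynomial.monomial (i : ℕ) (s i)
  have hP : ∀ s, s ≠ 0 → P s ≠ 0 := by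
    intro s hs h0
    apply hs
    ext i
    have h1 := congrArg (fun p => Polynomial.coeff p (i : ℕ)) h0
    simp only [P, Polynomial.finsetSum_coeff, Polynomial.coeff_monomial, Polynomial.coeff_zero] at h1
    rw [Finset.sum_eq_single i] at h1
    · simpa using h1
    · intro j _ hj
      rw [if_neg]
      intro h2
      exact hj (Fin.ext h2)
    · intro h2; exact absurd (mem_univ i) h2
  have hprod : (∏ s ∈ S, P s) ≠ 0 := Finset.prod_ne_zero_iff.2 (fun s hs => hP s (hS s hs))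
  obtain ⟨K, hK⟩ : ∃ K : ℤ, (∏ s ∈ S, P s).eval K ≠ 0 := by
    by_contra hcon
    push Not at hcon
    exact hprod (Polynomial.funext (by simpa using hcon))
  refine ⟨{ toFun := fun s => (P s).eval K, map_zero' := ?_, map_add' := ?_ }, ?_⟩
  · simp [P]
  · intro a b
    simp [P, Polynomial.eval_finsetSum, ← Finset.sum_add_distrib]
  · intro s hs
    rw [Polynomial.eval_prod, Finset.prod_ne_zero_iff] at hK
    exact hK s hs

/-- the homomorphism `ℤ → ZMod n`, and its use to repair a homomorphism outside torsion -/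
lemma exists_good_k {M : Type*} [AddCommGroup M] (S : Finset M) (χ : M →+ ℤ) (B : ℕ)
    (hB : ∀ s ∈ S, (χ s).natAbs ≤ B) (n : ℕ) (hn : S.card * B < n)
    (φ : M →+ ZMod n) (hφ : ∀ s ∈ S, χ s = 0 → φ s ≠ 0) :
    ∃ ψ : M →+ ZMod n, ∀ s ∈ S, ψ s ≠ 0 := by
  classical
  let ψ : ℕ → (M →+ ZMod n) := fun k => φ + k • ((Int.castAddHom (ZMod n)).comp χ)
  have hψ : ∀ k s, ψ k s = φ s + ((k * χ s : ℤ) : ZMod n) := by
    intro k s
    simp [ψ]
  by_contra hcon
  push Not at hcon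
  -- for each k ≤ |S| there is a bad s
  have hbad : ∀ k ∈ range (S.card + 1), ∃ s ∈ S, ψ k s = 0 := fun k _ => hcon (ψ k)
  choose! bad hbad1 hbad2 using hbad
  obtain ⟨k, hk, k', hk', hkk, heq⟩ := Finset.exists_ne_map_eq_of_card_lt_of_maps_to
    (show S.card < (range (S.card + 1)).card by rw [card_range]; omega)
    (fun k hk => hbad1 k hk)
  have h1 := hbad2 k hk
  have h2 := hbad2 k' hk'
  rw [← heq] at h2
  set s := bad k with hs
  have hsS : s ∈ S := hbad1 k hk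
  rw [hψ] at h1 h2
  have h3 : (((k * χ s : ℤ)) : ZMod n) = ((k' * χ s : ℤ) : ZMod n) := by
    have := h1.trans h2.symm
    exact add_left_cancel this
  rw [ZMod.intCast_eq_intCast_iff_dvd_sub] at h3
  have hne : χ s ≠ 0 := by
    intro h0
    have := hφ s hsS h0
    rw [h0] at h1
    simp at h1
    exact this h1
  have h4 : ((k' : ℤ) * χ s - k * χ s) ≠ 0 := by
    rw [← sub_mul]
    apply mul_ne_zero _ hne
    intro h5
    apply hkk
    have : (k' : ℤ) = k := by linarith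
    exact_mod_cast this.symm
  have h5 := Int.le_of_dvd (abs_pos.2 h4) ((dvd_abs _ _).2 h3)
  rw [← sub_mul, abs_mul] at h5
  have h6 : |χ s| ≤ B := by
    have := hB s hsS
    rw [← Int.natCast_natAbs]; exact_mod_cast this
  have h7 : |(k' : ℤ) - k| ≤ S.card := by
    rw [mem_range] at hk hk'
    rw [abs_le]; constructor <;> omega
  have h8 : |(k' : ℤ) - k| * |χ s| ≤ (S.card : ℤ) * B :=
    mul_le_mul h7 h6 (abs_nonneg _) (by positivity)
  have h9 : ((S.card * B : ℕ) : ℤ) < n := by exact_mod_cast hn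
  push_cast at h9
  linarith

/-- multiplication by `n / d` as an injective homomorphism `ZMod d → ZMod n` whose range is the
`d`-torsion -/
lemma exists_incl (n d : ℕ) (hn : 0 < n) (hd : d ∣ n) :
    ∃ ι : ZMod d →+ ZMod n, Function.Injective ι ∧ ∀ x : ZMod n, d • x = 0 → ∃ j, ι j = x := by
  obtain ⟨q, hq⟩ := hd
  have hdpos : 0 < d := Nat.pos_of_ne_zero (by rintro rfl; omega)
  have hqpos : 0 < q := Nat.pos_of_ne_zero (by rintro rfl; omega)
  have : NeZero n := ⟨by omega⟩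
  let f : ℤ →+ ZMod n := (Int.castAddHom (ZMod n)).comp (AddMonoidHom.mulLeft (q : ℤ))
  have hf : ∀ m : ℤ, f m = ((q * m : ℤ) : ZMod n) := fun m => rfl
  have hf0 : f d = 0 := by
    rw [hf, ZMod.intCast_zmod_eq_zero_iff_dvd, hq]
    push_cast
    rw [mul_comm]
  refine ⟨ZMod.lift d ⟨f, hf0⟩, ?_, ?_⟩
  · rw [ZMod.lift_injective]
    intro m hm
    have hm' : f m = 0 := hm
    rw [hf, ZMod.intCast_zmod_eq_zero_iff_dvd, hq] at hm'
    rw [ZMod.intCast_zmod_eq_zero_iff_dvd]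
    have h1 : (q : ℤ) * d ∣ q * m := by
      have : ((d * q : ℕ) : ℤ) = (q : ℤ) * d := by push_cast; ring
      rwa [this] at hm'
    exact Int.dvd_of_mul_dvd_mul_left (by exact_mod_cast hqpos.ne') h1
  · intro x hx
    have h1 : n ∣ d * x.val := by
      rw [← ZMod.natCast_eq_zero_iff]
      rw [Nat.cast_mul, ZMod.natCast_val, ZMod.cast_id, ← nsmul_eq_mul]
      exact hx
    have h1' : d * q ∣ d * x.val := hq ▸ h1
    have h2 : q ∣ x.val := Nat.dvd_of_mul_dvd_mul_left hdpos h1'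
    obtain ⟨j, hj⟩ := h2
    refine ⟨(j : ℤ), ?_⟩
    rw [ZMod.lift_coe]
    show f j = x
    rw [hf]
    have : ((q * (j : ℤ) : ℤ) : ZMod n) = ((x.val : ℕ) : ZMod n) := by
      rw [hj]; push_cast; ring
    rw [this, ZMod.natCast_val, ZMod.cast_id]

/-- transfer of homomorphisms from a group of exponent dividing `N` -/
lemma transfer_torsion {D : Type*} [AddCommGroup D] (N : ℕ) (hN : ∀ t : D, N • t = 0) (n n' : ℕ)
    (hn : 0 < n) (hn' : 0 < n') (hg : Nat.gcd n N = Nat.gcd n' N) (φ : D →+ ZMod n) :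
    ∃ φ' : D →+ ZMod n', ∀ t, φ' t = 0 ↔ φ t = 0 := by
  set d := Nat.gcd n N with hd
  obtain ⟨ι, hι, hιr⟩ := exists_incl n d hn (Nat.gcd_dvd_left _ _)
  obtain ⟨ι', hι', -⟩ := exists_incl n' d hn' (hg ▸ Nat.gcd_dvd_left _ _)
  have hr : ∀ t, φ t ∈ ι.range := by
    intro t
    have h1 : N • φ t = 0 := by rw [← map_nsmul, hN, map_zero]
    have h2 : n • φ t = 0 := by
      rw [nsmul_eq_mul, ZMod.natCast_self, zero_mul]
    have h3 : d • φ t = 0 := by
      rw [← addOrderOf_dvd_iff_nsmul_eq_zero] at h1 h2 ⊢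
      exact Nat.dvd_gcd h2 h1
    obtain ⟨j, hj⟩ := hιr _ h3
    exact ⟨j, hj⟩
  let e := ι.ofInjective hι
  let ψ : D →+ ZMod d := e.symm.toAddMonoidHom.comp (φ.codRestrict ι.range hr)
  refine ⟨ι'.comp ψ, ?_⟩
  intro t
  have h1 : ι'.comp ψ t = 0 ↔ ψ t = 0 := by
    show ι' (ψ t) = 0 ↔ ψ t = 0
    rw [map_eq_zero_iff ι' hι']
  rw [h1]
  show e.symm (φ.codRestrict ι.range hr t) = 0 ↔ φ t = 0
  rw [AddEquiv.map_eq_zero_iff]
  rw [← Subtype.coe_inj]
  rfl

lemma transfer {M : Type*} [AddCommGroup M] [AddGroup.FG M] (S : Finset M) :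
    ∃ N n0 : ℕ, 0 < N ∧ ∀ N', N ∣ N' → ∀ n n', n0 ≤ n → n0 ≤ n' → Nat.gcd n N' = Nat.gcd n' N' →
      (∃ φ : M →+ ZMod n, ∀ s ∈ S, φ s ≠ 0) → (∃ φ : M →+ ZMod n', ∀ s ∈ S, φ s ≠ 0) := by
  classical
  obtain ⟨r, ι, hι, p, hp, ex, ⟨e⟩⟩ := AddCommGroup.equiv_free_prod_directSum_zmod M
  let D := DirectSum ι (fun i => ZMod (p i ^ ex i))
  let N : ℕ := ∏ i, p i ^ ex i
  have hNpos : 0 < N := Finset.prod_pos (fun i _ => pow_pos (hp i).pos _)
  have hN : ∀ t : D, N • t = 0 := by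
    intro t
    ext i
    show ((N • t) i) = 0
    rw [DFinsupp.smul_apply]
    rw [nsmul_eq_mul]
    have : ((N : ℕ) : ZMod (p i ^ ex i)) = 0 := by
      rw [ZMod.natCast_eq_zero_iff]
      exact Finset.dvd_prod_of_mem _ (mem_univ i)
    rw [this, zero_mul]
  obtain ⟨χ0, hχ0⟩ := exists_hom_ne_zero ((S.image (fun s => (e s).1)).filter (fun a => a ≠ 0))
    (fun s hs => (mem_filter.1 hs).2)
  let χ : M →+ ℤ := χ0.comp ((AddMonoidHom.fst _ _).comp e.toAddMonoidHom)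
  have hχ : ∀ s ∈ S, χ s = 0 → (e s).1 = 0 := by
    intro s hs h0
    by_contra hne
    exact hχ0 (e s).1 (mem_filter.2 ⟨mem_image_of_mem _ hs, hne⟩) h0
  let B : ℕ := ∑ s ∈ S, (χ s).natAbs
  have hB : ∀ s ∈ S, (χ s).natAbs ≤ B := fun s hs =>
    Finset.single_le_sum (f := fun s => (χ s).natAbs) (fun _ _ => Nat.zero_le _) hs
  refine ⟨N, S.card * B + 1, hNpos, ?_⟩
  rintro N' ⟨c, rfl⟩ n n' hn hn' hg ⟨φ, hφ⟩
  have hN' : ∀ t : D, (N * c) • t = 0 := by
    intro t; rw [mul_comm, mul_smul, hN, smul_zero]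
  obtain ⟨φD, hφD⟩ := transfer_torsion (D := D) (N * c) hN' n n' (by omega) (by omega) hg
    ((φ.comp e.symm.toAddMonoidHom).comp (AddMonoidHom.inr _ _))
  refine exists_good_k S χ B hB n' (by omega)
    (φD.comp ((AddMonoidHom.snd _ _).comp e.toAddMonoidHom)) ?_
  intro s hs h0 h1
  have h2 := hχ s hs h0
  have h3 : φD (e s).2 = 0 := h1
  rw [hφD] at h3
  apply hφ s hs
  have h4 : φ (e.symm (0, (e s).2)) = 0 := h3
  have h5 : ((0 : Fin r →₀ ℤ), (e s).2) = e s := Prod.ext h2.symm rfl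
  rw [h5, AddEquiv.symm_apply_apply] at h4
  exact h4

end HarmUni
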