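import Mathlib
import Pool.Agent.Work.MP_3c38ca_co.FG
import Pool.Agent.Work.MP_3c38ca_co.Pres

namespace HarmUni

open Finset

/-- `G` with `m` further vertices, all pendant at `v` -/
def pend {V : Type*} (G : SimpleGraph V) (v : V) (m : ℕ) : SimpleGraph (V ⊕ Fin m) where
  Adj
    | Sum.inl a, Sum.inl b => G.Adj a b
    | Sum.inl a, Sum.inr _ => a = v
    | Sum.inr _, Sum.inl b => b = v
    | Sum.inr _, Sum.inr _ => False
  symm := ⟨by
    rintro (a | a) (b | b) h
    · exact (show G.Adj a b from h).symm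
    · exact h
    · exact h
    · exact h⟩
  loopless := ⟨by
    rintro (a | a) h
    · exact G.loopless.irrefl a h
    · exact h⟩

/-- the presentation of `pend G v m` -/
def gpend {V : Type*} (g : V → V) (v : V) (m : ℕ) : V ⊕ Fin m → V ⊕ Fin m :=
  Sum.elim (fun u => Sum.inl (g u)) (fun _ => Sum.inl v)

lemma pres_pend {V : Type*} {G : SimpleGraph V} {g : V → V} (h : Pres G g) (v : V) (m : ℕ) :
    Pres (pend G v m) (gpend g v m) := by
  constructor
  · rintro (a | a) (b | b)
    · show G.Adj a b ↔ (Sum.inl (g a) = Sum.inl b ∨ Sum.inl (g b) = (Sum.inl a : V ⊕ Fin m))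
      rw [h.adj]; simp
    · show a = v ↔ (Sum.inl (g a) = Sum.inr b ∨ Sum.inl v = (Sum.inl a : V ⊕ Fin m))
      simp [eq_comm]
    · show b = v ↔ (Sum.inl v = Sum.inl b ∨ Sum.inl (g b) = (Sum.inr a : V ⊕ Fin m))
      simp [eq_comm]
    · show False ↔ (Sum.inl v = Sum.inr b ∨ Sum.inl v = (Sum.inr a : V ⊕ Fin m))
      simp
  · rintro (a | a) (b | b) hab
    · have h1 : s((Sum.inl a : V ⊕ Fin m), Sum.inl (g a)) = s(Sum.inl b, Sum.inl (g b)) := hab
      have h2 : s(a, g a) = s(b, g b) := by
        rcases Sym2.eq_iff.1 h1 with h3 | h3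
        · have h4 := Sum.inl_injective h3.1
          rw [h4]
        · rw [Sym2.eq_iff]; right
          exact ⟨Sum.inl_injective h3.1, Sum.inl_injective h3.2⟩
      rw [h.inj h2]
    · have h1 : s((Sum.inl a : V ⊕ Fin m), Sum.inl (g a)) = s(Sum.inr b, Sum.inl v) := hab
      rcases Sym2.eq_iff.1 h1 with h3 | h3
      · exact absurd h3.1 (by simp)
      · exact absurd h3.2 (by simp)
    · have h1 : s((Sum.inr a : V ⊕ Fin m), Sum.inl v) = s(Sum.inl b, Sum.inl (g b)) := hab
      rcases Sym2.eq_iff.1 h1 with h3 | h3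
      · exact absurd h3.1 (by simp)
      · exact absurd h3.1 (by simp)
    · have h1 : s((Sum.inr a : V ⊕ Fin m), Sum.inl v) = s(Sum.inr b, Sum.inl v) := hab
      rcases Sym2.eq_iff.1 h1 with h3 | h3
      · exact h3.1
      · exact absurd h3.1 (by simp)

lemma pres_card {V : Type*} [Finite V] {G : SimpleGraph V} {g : V → V} (h : Pres G g) :
    Nat.card G.edgeSet = Nat.card V := by
  symm
  refine Nat.card_congr (Equiv.ofBijective (fun v => ⟨s(v, g v), h.adj_g v⟩) ⟨?_, ?_⟩)
  · intro u v huv
    exact h.inj (Subtype.ext_iff.1 huv)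
  · rintro ⟨e, he⟩
    induction e using Sym2.ind with
    | _ a b =>
    rcases (h.adj a b).1 he with h1 | h1
    · exact ⟨a, Subtype.ext (by show s(a, g a) = s(a, b); rw [h1])⟩
    · exact ⟨b, Subtype.ext (by show s(b, g b) = s(a, b); rw [h1]; exact Sym2.eq_swap)⟩

section
variable {V : Type*} [Fintype V] [DecidableEq V]

/-- the hub lemma -/
lemma hub_lemma (g : V → V) (v : V) (m : ℕ) :
    FHarm (gpend g v m) ↔ ∃ (π : Equiv.Perm V) (f : V → ZMod (Fintype.card V + m)),
      Function.Injective f ∧ f v = 0 ∧ ∀ u, f u + f (g u) = f (π u) := by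
  classical
  have hcard : Fintype.card (V ⊕ Fin m) = Fintype.card V + m := by simp
  have hpos : 0 < Fintype.card V + m := by
    have : 0 < Fintype.card V := Fintype.card_pos_iff.2 ⟨v⟩
    omega
  have : NeZero (Fintype.card V + m) := ⟨hpos.ne'⟩
  unfold FHarm
  rw [hcard]
  constructor
  · rintro ⟨f0, hf0, hσ0⟩
    let f' : V ⊕ Fin m → ZMod (Fintype.card V + m) := fun u => f0 u - f0 (Sum.inl v)
    have hf' : Function.Injective f' := fun a b h => hf0 (sub_left_injective h)
    have hσ' : Function.Injective (fun u => f' u + f' (gpend g v m u)) := by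
      intro a b h
      apply hσ0
      have h' : f0 a - f0 (Sum.inl v) + (f0 (gpend g v m a) - f0 (Sum.inl v)) =
        f0 b - f0 (Sum.inl v) + (f0 (gpend g v m b) - f0 (Sum.inl v)) := h
      show f0 a + f0 (gpend g v m a) = f0 b + f0 (gpend g v m b)
      have e1 : ∀ c, f0 c + f0 (gpend g v m c) = (f0 c - f0 (Sum.inl v) +
          (f0 (gpend g v m c) - f0 (Sum.inl v))) + (f0 (Sum.inl v) + f0 (Sum.inl v)) := by
        intro c; abel
      rw [e1, e1, h']
    have hfv : f' (Sum.inl v) = 0 := sub_self _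
    have hbij : Function.Bijective f' := by
      rw [Fintype.bijective_iff_injective_and_card]
      exact ⟨hf', by rw [ZMod.card, hcard]⟩
    have key : ∀ u : V, ∃ u' : V, f' (Sum.inl u) + f' (Sum.inl (g u)) = f' (Sum.inl u') := by
      intro u
      obtain ⟨y, hy⟩ := hbij.2 (f' (Sum.inl u) + f' (Sum.inl (g u)))
      rcases y with y | y
      · exact ⟨y, hy.symm⟩
      · exfalso
        have h1 : f' (Sum.inr y) + f' (gpend g v m (Sum.inr y)) =
            f' (Sum.inl u) + f' (gpend g v m (Sum.inl u)) := by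
          show f' (Sum.inr y) + f' (Sum.inl v) = f' (Sum.inl u) + f' (Sum.inl (g u))
          rw [hfv, add_zero, hy]
        exact absurd (hσ' h1) (by simp)
    choose π hπ using key
    have hπi : Function.Injective π := by
      intro a b hab
      have h1 : f' (Sum.inl a) + f' (gpend g v m (Sum.inl a)) =
          f' (Sum.inl b) + f' (gpend g v m (Sum.inl b)) := by
        show f' (Sum.inl a) + f' (Sum.inl (g a)) = f' (Sum.inl b) + f' (Sum.inl (g b))
        rw [hπ, hπ, hab]
      exact Sum.inl_injective (hσ' h1)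
    refine ⟨Equiv.ofBijective π (Finite.injective_iff_bijective.1 hπi), fun u => f' (Sum.inl u),
      hf'.comp Sum.inl_injective, hfv, fun u => hπ u⟩
  · rintro ⟨π, f, hf, hfv, hπ⟩
    have hc : Fintype.card (Fin m) = ((univ.image f)ᶜ : Finset (ZMod (Fintype.card V + m))).card := by
      rw [Finset.card_compl, Finset.card_image_of_injective _ hf, ZMod.card, Fintype.card_fin,
        Finset.card_univ]
      omega
    let e : Fin m ≃ ((univ.image f)ᶜ : Finset (ZMod (Fintype.card V + m))) :=
      Fintype.equivOfCardEq (by rw [Fintype.card_coe, hc])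
    let f' : V ⊕ Fin m → ZMod (Fintype.card V + m) :=
      Sum.elim f (fun i => (e i : ZMod (Fintype.card V + m)))
    have hdisj : ∀ i u, (e i : ZMod (Fintype.card V + m)) ≠ f u := by
      intro i u h
      have := (e i).2
      rw [mem_compl] at this
      apply this
      rw [h]; exact mem_image_of_mem _ (mem_univ u)
    refine ⟨f', ?_, ?_⟩
    · rintro (a | a) (b | b) hab
      · exact congrArg _ (hf hab)
      · exact absurd hab.symm (hdisj b a)
      · exact absurd hab (hdisj a b)
      · exact congrArg _ (e.injective (Subtype.ext hab))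
    · have e1 : ∀ u, f' (Sum.inl u) + f' (gpend g v m (Sum.inl u)) = f (π u) := fun u => hπ u
      have e2 : ∀ i, f' (Sum.inr i) + f' (gpend g v m (Sum.inr i)) = e i := by
        intro i
        show (e i : ZMod (Fintype.card V + m)) + f v = e i
        rw [hfv, add_zero]
      rintro (a | a) (b | b) hab
      · simp only [e1] at hab
        exact congrArg _ (π.injective (hf hab))
      · simp only [e1, e2] at hab
        exact absurd hab.symm (hdisj b _)
      · simp only [e1, e2] at hab
        exact absurd hab (hdisj a _)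
      · simp only [e2] at hab
        exact congrArg _ (e.injective (Subtype.ext hab))

/-- the relations -/
noncomputable def rels (g : V → V) (v : V) (π : Equiv.Perm V) : AddSubgroup (V →₀ ℤ) :=
  AddSubgroup.closure (insert (Finsupp.single v 1)
    (Set.range (fun u => Finsupp.single u 1 + Finsupp.single (g u) 1 - Finsupp.single (π u) 1)))

open scoped Classical in
lemma hom_iff (g : V → V) (v : V) (π : Equiv.Perm V) (n : ℕ) :
    (∃ f : V → ZMod n, Function.Injective f ∧ f v = 0 ∧ ∀ u, f u + f (g u) = f (π u)) ↔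
    ∃ φ : ((V →₀ ℤ) ⧸ rels g v π) →+ ZMod n, ∀ s ∈ (univ.filter (fun p : V × V => p.1 ≠ p.2)).image
      (fun p => (QuotientAddGroup.mk (Finsupp.single p.1 1 - Finsupp.single p.2 1) :
        (V →₀ ℤ) ⧸ rels g v π)), φ s ≠ 0 := by
  classical
  constructor
  · rintro ⟨f, hf, hfv, hπ⟩
    let F : (V →₀ ℤ) →+ ZMod n := Finsupp.liftAddHom (fun u => (zmultiplesHom (ZMod n)) (f u))
    have hF : ∀ u, F (Finsupp.single u 1) = f u := by
      intro u
      simp [F]
    have hker : rels g v π ≤ F.ker := by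
      unfold rels
      rw [AddSubgroup.closure_le]
      intro x hx
      rcases hx with hx | ⟨u, hu⟩
      · rw [hx]; show F _ = 0; rw [hF, hfv]
      · rw [← hu]; show F _ = 0
        rw [map_sub, map_add, hF, hF, hF, hπ, sub_self]
    refine ⟨QuotientAddGroup.lift _ F hker, ?_⟩
    intro s hs
    obtain ⟨p, hp, rfl⟩ := mem_image.1 hs
    have hp' := (mem_filter.1 hp).2
    show F _ ≠ 0
    rw [map_sub, hF, hF, sub_ne_zero]
    exact fun h => hp' (hf h)
  · rintro ⟨φ, hφ⟩
    let q : (V →₀ ℤ) →+ ((V →₀ ℤ) ⧸ rels g v π) := QuotientAddGroup.mk' _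
    have hq : ∀ x ∈ rels g v π, q x = 0 := fun x hx => (QuotientAddGroup.eq_zero_iff x).2 hx
    refine ⟨fun u => φ (q (Finsupp.single u 1)), ?_, ?_, ?_⟩
    · intro a b hab
      by_contra hne
      apply hφ (q (Finsupp.single a 1 - Finsupp.single b 1))
      · rw [mem_image]
        exact ⟨(a, b), mem_filter.2 ⟨mem_univ _, hne⟩, rfl⟩
      · rw [map_sub, map_sub]
        exact sub_eq_zero.2 hab
    · show φ (q _) = 0
      rw [hq _ (AddSubgroup.subset_closure (Set.mem_insert _ _)), map_zero]
    · intro u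
      have h1 := hq _ (AddSubgroup.subset_closure (Set.mem_insert_of_mem _ (Set.mem_range_self u)))
      rw [map_sub, map_add, sub_eq_zero] at h1
      show φ (q _) + φ (q _) = φ (q _)
      rw [← map_add, h1]

lemma hub_periodic (g : V → V) (v : V) :
    ∃ N m0 : ℕ, 0 < N ∧ ∀ m m', m0 ≤ m → m0 ≤ m' →
      Nat.gcd (Fintype.card V + m) N = Nat.gcd (Fintype.card V + m') N →
      (FHarm (gpend g v m) ↔ FHarm (gpend g v m')) := by
  classical
  have hfg : ∀ π : Equiv.Perm V, AddGroup.FG ((V →₀ ℤ) ⧸ rels g v π) := by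
    intro π
    have : AddGroup.FG (V →₀ ℤ) := Module.Finite.iff_addGroup_fg.1 inferInstance
    infer_instance
  have h := fun π : Equiv.Perm V => @transfer ((V →₀ ℤ) ⧸ rels g v π) _ (hfg π)
    ((univ.filter (fun p : V × V => p.1 ≠ p.2)).image
      (fun p => (QuotientAddGroup.mk (Finsupp.single p.1 1 - Finsupp.single p.2 1) :
        (V →₀ ℤ) ⧸ rels g v π)))
  choose N n0 hNpos hN using h
  have key : ∀ m m', (∑ π, n0 π) ≤ m → (∑ π, n0 π) ≤ m' →
      Nat.gcd (Fintype.card V + m) (∏ π, N π) = Nat.gcd (Fintype.card V + m') (∏ π, N π) →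
      FHarm (gpend g v m) → FHarm (gpend g v m') := by
    intro m m' hm hm' hg
    rw [hub_lemma, hub_lemma]
    rintro ⟨π, hπ⟩
    refine ⟨π, ?_⟩
    rw [hom_iff] at hπ ⊢
    have h1 : n0 π ≤ ∑ π, n0 π :=
      Finset.single_le_sum (f := n0) (fun _ _ => Nat.zero_le _) (mem_univ π)
    exact hN π _ (Finset.dvd_prod_of_mem _ (mem_univ π)) _ _ (by omega) (by omega) hg hπ
  exact ⟨∏ π, N π, ∑ π, n0 π, Finset.prod_pos (fun π _ => hNpos π),
    fun m m' hm hm' hg => ⟨key m m' hm hm' hg, key m' m hm' hm hg.symm⟩⟩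

/-- For a fixed unicyclic graph and a fixed vertex `v`, whether the graph with `m` additional
pendant vertices at `v` is harmonious only depends on a gcd, for all large `m`. -/
theorem hub_theorem {V : Type*} [Finite V] (G : SimpleGraph V) (hconn : G.Connected)
    (hcard : Nat.card G.edgeSet = Nat.card V) (v : V) :
    ∃ N m0 : ℕ, 0 < N ∧ ∀ m m', m0 ≤ m → m0 ≤ m' →
      Nat.gcd (Nat.card V + m) N = Nat.gcd (Nat.card V + m') N →
      (Harmonious (pend G v m) ↔ Harmonious (pend G v m')) := by
  classical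
  have := Fintype.ofFinite V
  obtain ⟨g, b, h, -⟩ := exists_pres hconn hcard
  obtain ⟨N, m0, hN, hm⟩ := hub_periodic g v
  refine ⟨N, m0, hN, ?_⟩
  intro m m' h1 h2 h3
  have hp : ∀ m, Harmonious (pend G v m) ↔ FHarm (gpend g v m) := by
    intro m
    apply harmonious_iff (pres_pend h v m)
    rw [pres_card (pres_pend h v m), Nat.card_eq_fintype_card]
  rw [hp, hp]
  rw [Nat.card_eq_fintype_card] at h3
  exact hm m m' h1 h2 h3

end

end HarmUni
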