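import Mathlib

/-!
Harmonious labelings of the unicyclic graphs consisting of a cycle `C_m` and `k` pendant edges
at one vertex of the cycle.
-/

namespace Pool.Agent.Results.MP_3c38ca_co.CycleWithStar

open Finset

/-- `G` is harmonious: with `q` the number of edges there is an injective map from the vertices to
`Z_q` whose edge sums (mod `q`), taken over the edges, are pairwise distinct. -/
def Harmonious {V : Type} (G : SimpleGraph V) : Prop :=
  ∃ f : V → ZMod G.edgeSet.ncard, Function.Injective f ∧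
    ∀ a b c d : V, G.Adj a b → G.Adj c d → f a + f b = f c + f d → s(a, b) = s(c, d)

/-- the cycle `0, 1, ..., m-1` (vertices `inl i`) together with `k` pendant edges from the vertex
`inl 0` to the leaves `inr j`. -/
def cycleStar (m k : ℕ) : SimpleGraph (Fin m ⊕ Fin k) where
  Adj x y := match x, y with
    | .inl i, .inl j => i ≠ j ∧ ((i.val + 1) % m = j.val ∨ (j.val + 1) % m = i.val)
    | .inl i, .inr _ => i.val = 0
    | .inr _, .inl j => j.val = 0
    | .inr _, .inr _ => False
  symm := ⟨by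
    rintro (i | i) (j | j) h
    · exact ⟨h.1.symm, h.2.symm⟩
    · exact h
    · exact h
    · exact h⟩
  loopless := ⟨by
    rintro (i | i) h
    · exact h.1 rfl
    · exact h⟩

/-- the successor on the cycle -/
def nxt {m : ℕ} (i : Fin m) : Fin m := ⟨(i.val + 1) % m, Nat.mod_lt _ i.pos⟩

theorem nxt_val {m : ℕ} (i : Fin m) :
    ((nxt i).val = i.val + 1 ∧ i.val + 1 < m) ∨ ((nxt i).val = 0 ∧ i.val + 1 = m) := by
  have hi := i.2
  unfold nxt
  by_cases h : i.val + 1 < m
  · left
    exact ⟨Nat.mod_eq_of_lt h, h⟩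
  · right
    have h2 : i.val + 1 = m := by omega
    refine ⟨?_, h2⟩
    show (i.val + 1) % m = 0
    rw [h2, Nat.mod_self]

/-- the edges, indexed by the vertices -/
def edg {m k : ℕ} (h0 : 0 < m) : Fin m ⊕ Fin k → Sym2 (Fin m ⊕ Fin k)
  | .inl i => s(.inl i, .inl (nxt i))
  | .inr j => s(.inl ⟨0, h0⟩, .inr j)

theorem edg_inj {m k : ℕ} (h0 : 0 < m) (hm : 3 ≤ m) :
    Function.Injective (edg h0 : Fin m ⊕ Fin k → Sym2 (Fin m ⊕ Fin k)) := by
  rintro (i | i) (j | j) h
  · simp only [edg, Sym2.eq_iff, Sum.inl.injEq] at h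
    rcases h with h | h
    · rw [h.1]
    · exfalso
      have h1 := congrArg Fin.val h.1
      have h2 := congrArg Fin.val h.2
      rcases nxt_val i with hi | hi <;> rcases nxt_val j with hj | hj <;> omega
  · exfalso
    simp [edg] at h
  · exfalso
    simp [edg] at h
  · simp only [edg, Sym2.eq_iff, Sum.inr.injEq] at h
    rcases h with h | h
    · rw [h.2]
    · exact absurd h.1 (by simp)

theorem edg_range {m k : ℕ} (h0 : 0 < m) (hm : 3 ≤ m) :
    Set.range (edg h0 : Fin m ⊕ Fin k → Sym2 (Fin m ⊕ Fin k)) = (cycleStar m k).edgeSet := by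
  ext e
  constructor
  · rintro ⟨x, rfl⟩
    rcases x with i | j
    · show (cycleStar m k).Adj (.inl i) (.inl (nxt i))
      refine ⟨?_, Or.inl rfl⟩
      intro h
      have h1 := congrArg Fin.val h
      rcases nxt_val i with hi | hi <;> omega
    · show (cycleStar m k).Adj (.inl ⟨0, h0⟩) (.inr j)
      exact rfl
  · intro he
    induction e using Sym2.ind with
    | _ a b =>
      rcases a with i | i <;> rcases b with j | j
      · have h : i ≠ j ∧ ((i.val + 1) % m = j.val ∨ (j.val + 1) % m = i.val) := he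
        rcases h.2 with h | h
        · refine ⟨.inl i, ?_⟩
          have : nxt i = j := Fin.ext h
          simp only [edg, this]
        · refine ⟨.inl j, ?_⟩
          have : nxt j = i := Fin.ext h
          simp only [edg, this]
          exact Sym2.eq_swap
      · have h : i.val = 0 := he
        refine ⟨.inr j, ?_⟩
        have : i = ⟨0, h0⟩ := Fin.ext h
        simp only [edg, this]
      · have h : j.val = 0 := he
        refine ⟨.inr i, ?_⟩
        have : j = ⟨0, h0⟩ := Fin.ext h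
        simp only [edg, this]
        exact Sym2.eq_swap
      · exact absurd he (fun h => h)

theorem ncard_edges {m k : ℕ} (hm : 3 ≤ m) : (cycleStar m k).edgeSet.ncard = m + k := by
  have h0 : 0 < m := by omega
  rw [← edg_range h0 hm, Set.ncard_range_of_injective (edg_inj h0 hm)]
  simp

/-- the edge sums, indexed by the vertices -/
def esum {m k q : ℕ} (h0 : 0 < m) (f : Fin m ⊕ Fin k → ZMod q) : Fin m ⊕ Fin k → ZMod q
  | .inl i => f (.inl i) + f (.inl (nxt i))
  | .inr j => f (.inl ⟨0, h0⟩) + f (.inr j)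

theorem harmonious_iff {m k : ℕ} (h0 : 0 < m) (hm : 3 ≤ m) :
    Harmonious (cycleStar m k) ↔
      ∃ f : Fin m ⊕ Fin k → ZMod (m + k), Function.Injective f ∧ Function.Injective (esum h0 f) := by
  have key : ∀ q : ℕ, (cycleStar m k).edgeSet.ncard = q → (Harmonious (cycleStar m k) ↔
      ∃ f : Fin m ⊕ Fin k → ZMod q, Function.Injective f ∧ Function.Injective (esum h0 f)) := by
    intro q hq
    subst hq
    unfold Harmonious
    have hr := edg_range (k := k) h0 hm
    have hi := edg_inj (k := k) h0 hm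
    -- the sum along an edge
    have hsum : ∀ (f : Fin m ⊕ Fin k → ZMod (cycleStar m k).edgeSet.ncard) (x : Fin m ⊕ Fin k)
        (a b : Fin m ⊕ Fin k), edg h0 x = s(a, b) → esum h0 f x = f a + f b := by
      intro f x a b h
      rcases x with i | j
      · simp only [edg, Sym2.eq_iff] at h
        rcases h with h | h
        · rw [← h.1, ← h.2]; rfl
        · rw [← h.1, ← h.2, add_comm]; rfl
      · simp only [edg, Sym2.eq_iff] at h
        rcases h with h | h
        · rw [← h.1, ← h.2]; rfl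
        · rw [← h.1, ← h.2, add_comm]; rfl
    constructor
    · rintro ⟨f, hf, hs⟩
      refine ⟨f, hf, ?_⟩
      intro x y hxy
      apply hi
      -- both are edges
      have hx : edg h0 x ∈ (cycleStar m k).edgeSet := by rw [← hr]; exact ⟨x, rfl⟩
      have hy : edg h0 y ∈ (cycleStar m k).edgeSet := by rw [← hr]; exact ⟨y, rfl⟩
      obtain ⟨a, b, hab⟩ : ∃ a b, edg h0 x = s(a, b) := by
        induction h : edg h0 x using Sym2.ind with
        | _ a b => exact ⟨a, b, rfl⟩
      obtain ⟨c, d, hcd⟩ : ∃ c d, edg h0 y = s(c, d) := by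
        induction h : edg h0 y using Sym2.ind with
        | _ a b => exact ⟨a, b, rfl⟩
      rw [hab] at hx ⊢
      rw [hcd] at hy ⊢
      apply hs a b c d hx hy
      rw [← hsum f x a b hab, ← hsum f y c d hcd, hxy]
    · rintro ⟨f, hf, hs⟩
      refine ⟨f, hf, ?_⟩
      intro a b c d hab hcd h
      have h1 : s(a, b) ∈ (cycleStar m k).edgeSet := hab
      have h2 : s(c, d) ∈ (cycleStar m k).edgeSet := hcd
      rw [← hr] at h1 h2
      obtain ⟨x, hx⟩ := h1
      obtain ⟨y, hy⟩ := h2
      rw [← hsum f x a b hx, ← hsum f y c d hy] at h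
      rw [← hx, ← hy, hs h]
  exact key _ (ncard_edges hm)

/-! ### Necessary conditions -/

theorem sum_zmod_odd {n : ℕ} [NeZero n] (hn : Odd n) : ∑ z : ZMod n, z = 0 := by
  have h1 : ∑ z : ZMod n, z = ∑ z : ZMod n, -z := (Equiv.sum_comp (Equiv.neg (ZMod n)) id).symm
  rw [Finset.sum_neg_distrib] at h1
  have h2 : (2 : ZMod n) * ∑ z : ZMod n, z = 0 := by
    linear_combination h1
  have hu : IsUnit (2 : ZMod n) := by
    have h3 : IsUnit ((2 : ℕ) : ZMod n) := by
      rw [ZMod.isUnit_iff_coprime]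
      exact (Nat.coprime_two_left).2 hn
    exact_mod_cast h3
  exact (hu.mul_right_eq_zero).1 h2

theorem sum_zmod_even {n : ℕ} [NeZero n] (hn : Even n) : ∑ z : ZMod n, z ≠ 0 := by
  have h1 : ∑ z : ZMod n, z = ((∑ i ∈ Finset.range n, i : ℕ) : ZMod n) := by
    rw [Nat.cast_sum]
    symm
    refine Finset.sum_bij (fun (i : ℕ) _ => (i : ZMod n)) ?_ ?_ ?_ ?_
    · intro i _; exact Finset.mem_univ _
    · intro i hi j hj h
      have h2 := (ZMod.natCast_eq_natCast_iff' i j n).1 h
      rw [Nat.mod_eq_of_lt (Finset.mem_range.1 hi), Nat.mod_eq_of_lt (Finset.mem_range.1 hj)] at h2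
      exact h2
    · intro z _
      exact ⟨z.val, Finset.mem_range.2 (ZMod.val_lt z), ZMod.natCast_zmod_val z⟩
    · intro i _; rfl
  rw [h1]
  intro h
  rw [ZMod.natCast_eq_zero_iff] at h
  have hpos : 0 < n := Nat.pos_of_ne_zero (NeZero.ne n)
  have h2 := Finset.sum_range_id_mul_two n
  obtain ⟨t, ht⟩ := hn
  obtain ⟨c, hc⟩ := h
  rw [hc] at h2
  have h3 : n * (c * 2) = n * (n - 1) := by rw [← h2]; ring
  have h4 := Nat.eq_of_mul_eq_mul_left hpos h3
  omega

theorem nxt_bij {m : ℕ} : Function.Bijective (nxt : Fin m → Fin m) := by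
  rw [← Finite.injective_iff_bijective]
  intro i j h
  have h1 := congrArg Fin.val h
  have hi := i.2
  have hj := j.2
  apply Fin.ext
  rcases nxt_val i with hi | hi <;> rcases nxt_val j with hj | hj <;> omega

theorem bij_of_inj {m k : ℕ} [NeZero (m + k)] (f : Fin m ⊕ Fin k → ZMod (m + k))
    (hf : Function.Injective f) : Function.Bijective f := by
  rw [Fintype.bijective_iff_injective_and_card]
  refine ⟨hf, ?_⟩
  simp [ZMod.card]

theorem sum_cond {m k : ℕ} (h0 : 0 < m) [NeZero (m + k)] (f : Fin m ⊕ Fin k → ZMod (m + k))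
    (hf : Function.Injective f) (hs : Function.Injective (esum h0 f)) :
    (∑ i : Fin m, f (.inl i)) + k * f (.inl ⟨0, h0⟩) = 0 ∧
    (∑ i : Fin m, f (.inl i)) + (∑ j : Fin k, f (.inr j)) = ∑ z : ZMod (m + k), z := by
  have h1 : ∑ x, f x = ∑ z : ZMod (m + k), z :=
    (bij_of_inj f hf).sum_comp (fun z => z)
  have h2 : ∑ x, esum h0 f x = ∑ z : ZMod (m + k), z :=
    (bij_of_inj _ hs).sum_comp (fun z => z)
  rw [Fintype.sum_sum_type] at h1 h2
  refine ⟨?_, h1⟩
  have h3 : ∑ i : Fin m, esum h0 f (.inl i) = 2 * ∑ i : Fin m, f (.inl i) := by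
    have : ∑ i : Fin m, f (.inl (nxt i)) = ∑ i : Fin m, f (.inl i) :=
      nxt_bij.sum_comp (fun i => f (.inl i))
    simp only [esum, Finset.sum_add_distrib]
    rw [this]; ring
  have h4 : ∑ j : Fin k, esum h0 f (.inr j) = k * f (.inl ⟨0, h0⟩) + ∑ j : Fin k, f (.inr j) := by
    simp only [esum, Finset.sum_add_distrib, Finset.sum_const, Finset.card_univ, Fintype.card_fin,
      nsmul_eq_mul]
  rw [h3, h4] at h2
  linear_combination h2 - h1

theorem not_zero {m : ℕ} (h0 : 0 < m) (he : Even m) (f : Fin m ⊕ Fin 0 → ZMod (m + 0))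
    (hf : Function.Injective f) (hs : Function.Injective (esum h0 f)) : False := by
  have : NeZero (m + 0) := ⟨by omega⟩
  obtain ⟨h1, h2⟩ := sum_cond h0 f hf hs
  simp only [Nat.cast_zero, zero_mul, add_zero, Finset.univ_eq_empty, Finset.sum_empty] at h1 h2
  rw [h1] at h2
  exact sum_zmod_even (n := m + 0) (by simpa using he) h2.symm

theorem not_one {m : ℕ} (h0 : 0 < m) (he : Even m) (f : Fin m ⊕ Fin 1 → ZMod (m + 1))
    (hf : Function.Injective f) (hs : Function.Injective (esum h0 f)) : False := by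
  have : NeZero (m + 1) := ⟨by omega⟩
  obtain ⟨h1, h2⟩ := sum_cond h0 f hf hs
  rw [sum_zmod_odd (n := m + 1) he.add_one] at h2
  simp only [Nat.cast_one, one_mul, Finset.univ_unique, Finset.sum_singleton] at h1 h2
  have h3 : f (.inr default) = f (.inl ⟨0, h0⟩) := by linear_combination h2 - h1
  have h4 := hf h3
  simp at h4

/-- the inner edge sums of the cycle are `f 0 + f y` with `y` a vertex of the cycle not adjacent
to the hub -/
theorem inner {m k : ℕ} (h0 : 0 < m) (hm : 3 ≤ m) (f : Fin m ⊕ Fin k → ZMod (m + k))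
    (hf : Function.Injective f) (hs : Function.Injective (esum h0 f))
    (i : Fin m) (hi : 1 ≤ i.val) (hi2 : i.val + 1 < m) :
    ∃ y : Fin m, y.val ≠ 1 ∧ y.val + 1 ≠ m ∧
      f (.inl i) + f (.inl (nxt i)) = f (.inl ⟨0, h0⟩) + f (.inl y) := by
  have : NeZero (m + k) := ⟨by omega⟩
  obtain ⟨x, hx⟩ := (bij_of_inj f hf).2 (f (.inl i) + f (.inl (nxt i)) - f (.inl ⟨0, h0⟩))
  have hx2 : f (.inl i) + f (.inl (nxt i)) = f (.inl ⟨0, h0⟩) + f x := by
    rw [hx]; ring
  rcases x with y | j
  · refine ⟨y, ?_, ?_, hx2⟩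
    · intro hy
      have h1 : nxt (⟨0, h0⟩ : Fin m) = y := by
        apply Fin.ext
        rcases nxt_val (⟨0, h0⟩ : Fin m) with h | h <;> simp only at h <;> omega
      have h2 : esum h0 f (.inl i) = esum h0 f (.inl ⟨0, h0⟩) := by
        simp only [esum]
        rw [h1, hx2]
      have h3 := hs h2
      simp only [Sum.inl.injEq] at h3
      rw [h3] at hi
      simp at hi
    · intro hy
      have h1 : nxt y = (⟨0, h0⟩ : Fin m) := by
        apply Fin.ext
        rcases nxt_val y with h | h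
        · omega
        · exact h.1
      have h2 : esum h0 f (.inl i) = esum h0 f (.inl y) := by
        simp only [esum]
        rw [h1, hx2]; ring
      have h3 := hs h2
      simp only [Sum.inl.injEq] at h3
      rw [h3] at hi2
      omega
  · exfalso
    have h2 : esum h0 f (.inl i) = esum h0 f (.inr j) := by
      simp only [esum]
      rw [hx2]
    have h3 := hs h2
    simp at h3

theorem not_four {k : ℕ} (h0 : 0 < 4) (f : Fin 4 ⊕ Fin k → ZMod (4 + k))
    (hf : Function.Injective f) (hs : Function.Injective (esum h0 f)) : False := by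
  obtain ⟨y, hy1, hy2, hy⟩ := inner h0 (by norm_num) f hf hs 1 (by decide) (by decide)
  obtain ⟨z, hz1, hz2, hz⟩ := inner h0 (by norm_num) f hf hs 2 (by decide) (by decide)
  have e1 : nxt (1 : Fin 4) = 2 := rfl
  have e2 : nxt (2 : Fin 4) = 3 := rfl
  have e0 : (⟨0, h0⟩ : Fin 4) = 0 := rfl
  rw [e1, e0] at hy
  rw [e2, e0] at hz
  have ny : y = 0 := by
    have : y = 0 ∨ y = 2 := by
      fin_cases y <;> simp_all
    rcases this with h | h
    · exact h
    · exfalso
      rw [h] at hy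
      have h5 : f (.inl 1) = f (.inl 0) := by linear_combination hy
      have h6 := hf h5
      simp at h6
  have nz : z = 0 := by
    have : z = 0 ∨ z = 2 := by
      fin_cases z <;> simp_all
    rcases this with h | h
    · exact h
    · exfalso
      rw [h] at hz
      have h5 : f (.inl 3) = f (.inl 0) := by linear_combination hz
      have h6 := hf h5
      simp at h6
  rw [ny] at hy
  rw [nz] at hz
  have h5 : f (.inl 1) = f (.inl 3) := by linear_combination hy - hz
  have h6 := hf h5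
  simp at h6

theorem not_six {k : ℕ} (h0 : 0 < 6) (f : Fin 6 ⊕ Fin k → ZMod (6 + k))
    (hf : Function.Injective f) (hs : Function.Injective (esum h0 f)) : False := by
  obtain ⟨a, a1, a2, ha⟩ := inner h0 (by norm_num) f hf hs 1 (by decide) (by decide)
  obtain ⟨b, b1, b2, hb⟩ := inner h0 (by norm_num) f hf hs 2 (by decide) (by decide)
  obtain ⟨c, c1, c2, hc⟩ := inner h0 (by norm_num) f hf hs 3 (by decide) (by decide)
  obtain ⟨d, d1, d2, hd⟩ := inner h0 (by norm_num) f hf hs 4 (by decide) (by decide)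
  have e1 : nxt (1 : Fin 6) = 2 := rfl
  have e2 : nxt (2 : Fin 6) = 3 := rfl
  have e3 : nxt (3 : Fin 6) = 4 := rfl
  have e4 : nxt (4 : Fin 6) = 5 := rfl
  have e0 : (⟨0, h0⟩ : Fin 6) = 0 := rfl
  rw [e1, e0] at ha
  rw [e2, e0] at hb
  rw [e3, e0] at hc
  rw [e4, e0] at hd
  have ne : ∀ i j : Fin 6, i ≠ j → f (.inl i) ≠ f (.inl j) := by
    intro i j hij h
    exact hij (by simpa using hf h)
  have nes : ∀ i j : Fin 6, i ≠ j →
      f (.inl i) + f (.inl (nxt i)) ≠ f (.inl j) + f (.inl (nxt j)) := by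
    intro i j hij h
    exact hij (by simpa using hs (a₁ := .inl i) (a₂ := .inl j) h)
  have nab : a ≠ b := fun h => nes 1 2 (by decide) (by rw [e1, e2, ha, hb, h])
  have nac : a ≠ c := fun h => nes 1 3 (by decide) (by rw [e1, e3, ha, hc, h])
  have nad : a ≠ d := fun h => nes 1 4 (by decide) (by rw [e1, e4, ha, hd, h])
  have nbc : b ≠ c := fun h => nes 2 3 (by decide) (by rw [e2, e3, hb, hc, h])
  have nbd : b ≠ d := fun h => nes 2 4 (by decide) (by rw [e2, e4, hb, hd, h])
  have ncd : c ≠ d := fun h => nes 3 4 (by decide) (by rw [e3, e4, hc, hd, h])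
  have xa : a ≠ 2 := fun h => ne 1 0 (by decide) (by rw [h] at ha; linear_combination ha)
  have xb : b ≠ 2 := fun h => ne 3 0 (by decide) (by rw [h] at hb; linear_combination hb)
  have xb3 : b ≠ 3 := fun h => ne 2 0 (by decide) (by rw [h] at hb; linear_combination hb)
  have xc : c ≠ 3 := fun h => ne 4 0 (by decide) (by rw [h] at hc; linear_combination hc)
  have xc4 : c ≠ 4 := fun h => ne 3 0 (by decide) (by rw [h] at hc; linear_combination hc)
  have xd : d ≠ 4 := fun h => ne 5 0 (by decide) (by rw [h] at hd; linear_combination hd)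
  have four : ∀ y : Fin 6, y.val ≠ 1 → y.val + 1 ≠ 6 → y = 0 ∨ y = 2 ∨ y = 3 ∨ y = 4 := by
    decide
  have cases : (a = 4 ∧ b = 0 ∧ c = 2 ∧ d = 3) ∨ (a = 3 ∧ b = 4 ∧ c = 0 ∧ d = 2) ∨
      (a = 0 ∧ b = 4 ∧ c = 2 ∧ d = 3) ∨ (a = 3 ∧ b = 4 ∧ c = 2 ∧ d = 0) := by
    clear ha hb hc hd ne nes hf hs
    rcases four a a1 a2 with h | h | h | h <;> rcases four b b1 b2 with h' | h' | h' | h' <;>
      rcases four c c1 c2 with h'' | h'' | h'' | h'' <;>
      rcases four d d1 d2 with h3 | h3 | h3 | h3 <;> simp_all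
  rcases cases with ⟨rfl, rfl, rfl, rfl⟩ | ⟨rfl, rfl, rfl, rfl⟩ | ⟨rfl, rfl, rfl, rfl⟩ |
      ⟨rfl, rfl, rfl, rfl⟩
  · exact ne 1 2 (by decide) (by linear_combination ha + hc - hb)
  · exact ne 5 4 (by decide) (by linear_combination hd + hb - hc)
  · exact ne 1 5 (by decide) (by linear_combination ha - hd - hb)
  · exact ne 1 5 (by decide) (by linear_combination ha - hd + hc)

/-! ### Constructions -/

theorem of_labels {m k : ℕ} (hm : 3 ≤ m) (v : ℕ → ZMod (m + k))
    (hv : ∀ i j, i < m → j < m → v i = v j → i = j)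
    (hs : ∀ i j, i < m → j < m → v i + v ((i + 1) % m) = v j + v ((j + 1) % m) → i = j)
    (hw : ∀ i, i < m → ∃ j, j < m ∧ v i + v ((i + 1) % m) = v 0 + v j) :
    Harmonious (cycleStar m k) := by
  classical
  have h0 : 0 < m := by omega
  have : NeZero (m + k) := ⟨by omega⟩
  rw [harmonious_iff h0 hm]
  set A : Finset (ZMod (m + k)) := (Finset.range m).image v with hA
  have hcard : A.card = m := by
    rw [hA, Finset.card_image_of_injOn, Finset.card_range]
    intro i hi j hj h
    exact hv i j (Finset.mem_range.1 hi) (Finset.mem_range.1 hj) h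
  have hcompl : Aᶜ.card = k := by
    rw [Finset.card_compl, ZMod.card, hcard]; omega
  let e : Fin k ≃ {x // x ∈ Aᶜ} := (Aᶜ.equivFinOfCardEq hcompl).symm
  have he : ∀ (j : Fin k) (i : ℕ), i < m → v i ≠ (e j).1 := by
    intro j i hi h
    have h1 := (e j).2
    rw [Finset.mem_compl] at h1
    apply h1
    rw [← h, hA]
    exact Finset.mem_image_of_mem v (Finset.mem_range.2 hi)
  refine ⟨fun x => match x with
    | .inl i => v i.val
    | .inr j => (e j).1, ?_, ?_⟩
  · rintro (i | i) (j | j) h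
    · exact congrArg _ (Fin.ext (hv _ _ i.2 j.2 h))
    · exact absurd h (he j _ i.2)
    · exact absurd h.symm (he i _ j.2)
    · exact congrArg _ (e.injective (Subtype.ext h))
  · rintro (i | i) (j | j) h
    · exact congrArg _ (Fin.ext (hs _ _ i.2 j.2 h))
    · exfalso
      obtain ⟨t, ht, h1⟩ := hw i.val i.2
      have h2 : v i.val + v ((i.val + 1) % m) = v 0 + (e j).1 := h
      rw [h1] at h2
      exact he j t ht (add_left_cancel h2)
    · exfalso
      obtain ⟨t, ht, h1⟩ := hw j.val j.2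
      have h2 : v 0 + (e i).1 = v j.val + v ((j.val + 1) % m) := h
      rw [h1] at h2
      exact he i t ht (add_left_cancel h2).symm
    · have h2 : v 0 + (e i).1 = v 0 + (e j).1 := h
      exact congrArg _ (e.injective (Subtype.ext (add_left_cancel h2)))

theorem of_ints {m k : ℕ} (hm : 3 ≤ m) (S : Finset ℤ) (w σ : ℕ → ℤ)
    (hcard : S.card = m) (hwin : ∀ x ∈ S, ∀ y ∈ S, x - y < (m : ℤ) + k)
    (hw0 : w 0 = 0) (hwS : ∀ i, i < m → w i ∈ S)
    (hwi : ∀ i j, i < m → j < m → w i = w j → i = j)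
    (hσ : ∀ i, i + 1 < m → w i + w (i + 1) = σ i) (hσl : σ (m - 1) = w (m - 1))
    (hσS : ∀ i, i < m → σ i ∈ S)
    (hσi : ∀ i j, i < m → j < m → σ i = σ j → i = j) :
    Harmonious (cycleStar m k) := by
  classical
  have hcast : ∀ x ∈ S, ∀ y ∈ S, ((x : ℤ) : ZMod (m + k)) = ((y : ℤ) : ZMod (m + k)) → x = y := by
    intro x hx y hy h
    rw [ZMod.intCast_eq_intCast_iff_dvd_sub] at h
    have h1 := hwin x hx y hy
    have h2 := hwin y hy x hx
    obtain ⟨c, hc⟩ := h
    have hpos : (0 : ℤ) < (m : ℤ) + k := by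
      have : (0 : ℤ) < m := by exact_mod_cast (by omega : 0 < m)
      positivity
    push_cast at hc
    have hc0 : c = 0 := by
      by_contra hne
      rcases lt_or_gt_of_ne hne with h | h
      · have : ((m : ℤ) + k) * c ≤ ((m : ℤ) + k) * (-1) :=
          mul_le_mul_of_nonneg_left (by omega) hpos.le
        linarith
      · have : ((m : ℤ) + k) * 1 ≤ ((m : ℤ) + k) * c :=
          mul_le_mul_of_nonneg_left (by omega) hpos.le
        linarith
    rw [hc0] at hc
    linarith
  have hsum : ∀ i, i < m → w i + w ((i + 1) % m) = σ i := by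
    intro i hi
    by_cases h : i + 1 < m
    · rw [Nat.mod_eq_of_lt h]; exact hσ i h
    · have h1 : i + 1 = m := by omega
      rw [h1, Nat.mod_self, hw0, add_zero]
      have h2 : i = m - 1 := by omega
      rw [h2, hσl]
  have hsurj : ∀ x ∈ S, ∃ j, j < m ∧ w j = x := by
    have himg : (Finset.range m).image w = S := by
      apply Finset.eq_of_subset_of_card_le
      · intro x hx
        obtain ⟨i, hi, rfl⟩ := Finset.mem_image.1 hx
        exact hwS i (Finset.mem_range.1 hi)
      · rw [Finset.card_image_of_injOn, Finset.card_range, hcard]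
        intro i hi j hj h
        exact hwi i j (Finset.mem_range.1 hi) (Finset.mem_range.1 hj) h
    intro x hx
    rw [← himg] at hx
    obtain ⟨i, hi, h⟩ := Finset.mem_image.1 hx
    exact ⟨i, Finset.mem_range.1 hi, h⟩
  apply of_labels hm (fun i => ((w i : ℤ) : ZMod (m + k)))
  · intro i j hi hj h
    exact hwi i j hi hj (hcast _ (hwS i hi) _ (hwS j hj) h)
  · intro i j hi hj h
    have h1 : ((σ i : ℤ) : ZMod (m + k)) = ((σ j : ℤ) : ZMod (m + k)) := by
      rw [← hsum i hi, ← hsum j hj]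
      push_cast
      exact h
    exact hσi i j hi hj (hcast _ (hσS i hi) _ (hσS j hj) h1)
  · intro i hi
    obtain ⟨j, hj, h⟩ := hsurj _ (hσS i hi)
    refine ⟨j, hj, ?_⟩
    show ((w i : ℤ) : ZMod (m + k)) + ((w ((i + 1) % m) : ℤ) : ZMod (m + k)) =
      ((w 0 : ℤ) : ZMod (m + k)) + ((w j : ℤ) : ZMod (m + k))
    rw [h, hw0, ← hsum i hi]
    push_cast
    ring

/-- the odd cycle -/
theorem pos_odd {m k : ℕ} (hm : 3 ≤ m) (ho : Odd m) : Harmonious (cycleStar m k) := by
  obtain ⟨h, rfl⟩ := ho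
  apply of_ints (m := 2 * h + 1) (k := k) hm (Finset.Icc (-(h : ℤ)) h)
    (fun i => if i % 2 = 0 then -((i / 2 : ℕ) : ℤ) else (h : ℤ) - ((i / 2 : ℕ) : ℤ))
    (fun i => (h : ℤ) - i)
  · rw [Int.card_Icc]; omega
  · intro x hx y hy
    rw [Finset.mem_Icc] at hx hy
    push_cast
    omega
  · simp
  · intro i hi
    rw [Finset.mem_Icc]
    show _ ≤ (if i % 2 = 0 then -((i / 2 : ℕ) : ℤ) else (h : ℤ) - ((i / 2 : ℕ) : ℤ)) ∧
      (if i % 2 = 0 then -((i / 2 : ℕ) : ℤ) else (h : ℤ) - ((i / 2 : ℕ) : ℤ)) ≤ _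
    split_ifs <;> omega
  · intro i j hi hj hij
    split_ifs at hij <;> omega
  · intro i hi
    split_ifs <;> omega
  · split_ifs <;> omega
  · intro i hi
    rw [Finset.mem_Icc]
    omega
  · intro i j hi hj hij
    omega

theorem of_even {N k : ℕ} (hN : 4 ≤ N) (hk : 2 ≤ k) (w σ : ℕ → ℤ)
    (hw0 : w 0 = 0)
    (hwS : ∀ i, i < 2 * N → -(N : ℤ) - 1 ≤ w i ∧ w i ≤ N ∧ w i ≠ -1 ∧ w i ≠ -(N : ℤ))
    (hwi : ∀ i j, i < 2 * N → j < 2 * N → w i = w j → i = j)
    (hσ : ∀ i, i + 1 < 2 * N → w i + w (i + 1) = σ i) (hσl : σ (2 * N - 1) = w (2 * N - 1))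
    (hσS : ∀ i, i < 2 * N → -(N : ℤ) - 1 ≤ σ i ∧ σ i ≤ N ∧ σ i ≠ -1 ∧ σ i ≠ -(N : ℤ))
    (hσi : ∀ i j, i < 2 * N → j < 2 * N → σ i = σ j → i = j) :
    Harmonious (cycleStar (2 * N) k) := by
  apply of_ints (by omega) (((Finset.Icc (-(N : ℤ) - 1) N).erase (-1)).erase (-(N : ℤ))) w σ
    ?_ ?_ hw0 ?_ hwi hσ hσl ?_ hσi
  · rw [Finset.card_erase_of_mem, Finset.card_erase_of_mem, Int.card_Icc]
    · omega
    · rw [Finset.mem_Icc]; omega
    · rw [Finset.mem_erase, Finset.mem_Icc]; omega
  · intro x hx y hy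
    rw [Finset.mem_erase, Finset.mem_erase, Finset.mem_Icc] at hx hy
    push_cast
    omega
  · intro i hi
    rw [Finset.mem_erase, Finset.mem_erase, Finset.mem_Icc]
    obtain ⟨h1, h2, h3, h4⟩ := hwS i hi
    exact ⟨h4, h3, h1, h2⟩
  · intro i hi
    rw [Finset.mem_erase, Finset.mem_erase, Finset.mem_Icc]
    obtain ⟨h1, h2, h3, h4⟩ := hσS i hi
    exact ⟨h4, h3, h1, h2⟩

end Pool.Agent.Results.MP_3c38ca_co.CycleWithStar
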