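import Pool.Agent.Work.MP_3c38ca_co.Base

/-!
Explicit labelings for `m = 8 t + 8` and `m = 8 t + 20`.
-/

namespace Pool.Agent.Results.MP_3c38ca_co.CycleWithStar

/-- labels, class A -/
def wA (t i : ℕ) : ℤ :=
    if i = 0 then 0
    else if i < 4 * t + 4 ∧ i % 2 = 1 then 4 * (t : ℤ) + 4 - ((i / 2 : ℕ) : ℤ)
    else if i < 4 * t + 4 then -((i / 2 : ℕ) : ℤ) - 1
    else if i = 4 * t + 4 then -2 * (t : ℤ) - 3
    else if i = 4 * t + 5 then 2 * (t : ℤ) + 1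
    else if i = 4 * t + 6 then 2 * (t : ℤ) + 2
    else if i = 8 * t + 7 then -4 * (t : ℤ) - 5
    else if (i - (4 * t + 7)) % 4 = 0 then -2 * (t : ℤ) - 5 - 2 * (((i - (4 * t + 7)) / 4 : ℕ) : ℤ)
    else if (i - (4 * t + 7)) % 4 = 1 then 2 * (t : ℤ) - 1 - 2 * (((i - (4 * t + 7)) / 4 : ℕ) : ℤ)
    else if (i - (4 * t + 7)) % 4 = 2 then -2 * (t : ℤ) - 4 - 2 * (((i - (4 * t + 7)) / 4 : ℕ) : ℤ)
    else 2 * (t : ℤ) - 2 * (((i - (4 * t + 7)) / 4 : ℕ) : ℤ)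

/-- edge sums, class A -/
def sA (t i : ℕ) : ℤ :=
    if i = 0 then 4 * (t : ℤ) + 4
    else if i < 4 * t + 4 ∧ i % 2 = 1 then 4 * (t : ℤ) + 2 - 2 * ((i / 2 : ℕ) : ℤ)
    else if i < 4 * t + 4 then 4 * (t : ℤ) + 3 - 2 * ((i / 2 : ℕ) : ℤ)
    else if i = 4 * t + 4 then -2
    else if i = 4 * t + 5 then 4 * (t : ℤ) + 3
    else if i = 4 * t + 6 then -3
    else if i = 8 * t + 7 then -4 * (t : ℤ) - 5
    else if (i - (4 * t + 7)) % 4 = 0 then -6 - 4 * (((i - (4 * t + 7)) / 4 : ℕ) : ℤ)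
    else if (i - (4 * t + 7)) % 4 = 1 then -5 - 4 * (((i - (4 * t + 7)) / 4 : ℕ) : ℤ)
    else if (i - (4 * t + 7)) % 4 = 2 then -4 - 4 * (((i - (4 * t + 7)) / 4 : ℕ) : ℤ)
    else -7 - 4 * (((i - (4 * t + 7)) / 4 : ℕ) : ℤ)

theorem cA (t i : ℕ) (hi : i < 8 * t + 8) :
    (i = 0 ∧ wA t i = 0 ∧ sA t i = 4 * (t : ℤ) + 4) ∨
    (∃ b : ℕ, i = 2 * b + 1 ∧ i < 4 * t + 4 ∧ wA t i = 4 * (t : ℤ) + 4 - (b : ℤ) ∧ sA t i = 4 * (t : ℤ) + 2 - 2 * (b : ℤ)) ∨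
    (∃ b : ℕ, i = 2 * b ∧ i < 4 * t + 4 ∧ 0 < i ∧ wA t i = -(b : ℤ) - 1 ∧ sA t i = 4 * (t : ℤ) + 3 - 2 * (b : ℤ)) ∨
    (i = 4 * t + 4 ∧ wA t i = -2 * (t : ℤ) - 3 ∧ sA t i = -2) ∨
    (i = 4 * t + 5 ∧ wA t i = 2 * (t : ℤ) + 1 ∧ sA t i = 4 * (t : ℤ) + 3) ∨
    (i = 4 * t + 6 ∧ wA t i = 2 * (t : ℤ) + 2 ∧ sA t i = -3) ∨
    (i = 8 * t + 7 ∧ wA t i = -4 * (t : ℤ) - 5 ∧ sA t i = -4 * (t : ℤ) - 5) ∨
    (∃ b : ℕ, i = 4 * t + 7 + 4 * b ∧ b < t ∧ wA t i = -2 * (t : ℤ) - 5 - 2 * (b : ℤ) ∧ sA t i = -6 - 4 * (b : ℤ)) ∨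
    (∃ b : ℕ, i = 4 * t + 8 + 4 * b ∧ b < t ∧ wA t i = 2 * (t : ℤ) - 1 - 2 * (b : ℤ) ∧ sA t i = -5 - 4 * (b : ℤ)) ∨
    (∃ b : ℕ, i = 4 * t + 9 + 4 * b ∧ b < t ∧ wA t i = -2 * (t : ℤ) - 4 - 2 * (b : ℤ) ∧ sA t i = -4 - 4 * (b : ℤ)) ∨
    (∃ b : ℕ, i = 4 * t + 10 + 4 * b ∧ b < t ∧ wA t i = 2 * (t : ℤ) - 2 * (b : ℤ) ∧ sA t i = -7 - 4 * (b : ℤ)) := by
  by_cases h0 : i = 0
  · left
    refine ⟨by omega, ?_, ?_⟩
    · unfold wA; rw [if_pos h0]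
    · unfold sA; rw [if_pos h0]
  by_cases h1 : i < 4 * t + 4 ∧ i % 2 = 1
  · right; left
    refine ⟨i / 2, by omega, by omega, ?_, ?_⟩
    · unfold wA; rw [if_neg h0, if_pos h1]
    · unfold sA; rw [if_neg h0, if_pos h1]
  by_cases h2 : i < 4 * t + 4
  · right; right; left
    refine ⟨i / 2, by omega, by omega, by omega, ?_, ?_⟩
    · unfold wA; rw [if_neg h0, if_neg h1, if_pos h2]
    · unfold sA; rw [if_neg h0, if_neg h1, if_pos h2]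
  by_cases h3 : i = 4 * t + 4
  · right; right; right; left
    refine ⟨by omega, ?_, ?_⟩
    · unfold wA; rw [if_neg h0, if_neg h1, if_neg h2, if_pos h3]
    · unfold sA; rw [if_neg h0, if_neg h1, if_neg h2, if_pos h3]
  by_cases h4 : i = 4 * t + 5
  · right; right; right; right; left
    refine ⟨by omega, ?_, ?_⟩
    · unfold wA; rw [if_neg h0, if_neg h1, if_neg h2, if_neg h3, if_pos h4]
    · unfold sA; rw [if_neg h0, if_neg h1, if_neg h2, if_neg h3, if_pos h4]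
  by_cases h5 : i = 4 * t + 6
  · right; right; right; right; right; left
    refine ⟨by omega, ?_, ?_⟩
    · unfold wA; rw [if_neg h0, if_neg h1, if_neg h2, if_neg h3, if_neg h4, if_pos h5]
    · unfold sA; rw [if_neg h0, if_neg h1, if_neg h2, if_neg h3, if_neg h4, if_pos h5]
  by_cases h6 : i = 8 * t + 7
  · right; right; right; right; right; right; left
    refine ⟨by omega, ?_, ?_⟩
    · unfold wA; rw [if_neg h0, if_neg h1, if_neg h2, if_neg h3, if_neg h4, if_neg h5, if_pos h6]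
    · unfold sA; rw [if_neg h0, if_neg h1, if_neg h2, if_neg h3, if_neg h4, if_neg h5, if_pos h6]
  by_cases h7 : (i - (4 * t + 7)) % 4 = 0
  · right; right; right; right; right; right; right; left
    refine ⟨(i - (4 * t + 7)) / 4, by omega, by omega, ?_, ?_⟩
    · unfold wA; rw [if_neg h0, if_neg h1, if_neg h2, if_neg h3, if_neg h4, if_neg h5, if_neg h6, if_pos h7]
    · unfold sA; rw [if_neg h0, if_neg h1, if_neg h2, if_neg h3, if_neg h4, if_neg h5, if_neg h6, if_pos h7]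
  by_cases h8 : (i - (4 * t + 7)) % 4 = 1
  · right; right; right; right; right; right; right; right; left
    refine ⟨(i - (4 * t + 7)) / 4, by omega, by omega, ?_, ?_⟩
    · unfold wA; rw [if_neg h0, if_neg h1, if_neg h2, if_neg h3, if_neg h4, if_neg h5, if_neg h6, if_neg h7, if_pos h8]
    · unfold sA; rw [if_neg h0, if_neg h1, if_neg h2, if_neg h3, if_neg h4, if_neg h5, if_neg h6, if_neg h7, if_pos h8]
  by_cases h9 : (i - (4 * t + 7)) % 4 = 2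
  · right; right; right; right; right; right; right; right; right; left
    refine ⟨(i - (4 * t + 7)) / 4, by omega, by omega, ?_, ?_⟩
    · unfold wA; rw [if_neg h0, if_neg h1, if_neg h2, if_neg h3, if_neg h4, if_neg h5, if_neg h6, if_neg h7, if_neg h8, if_pos h9]
    · unfold sA; rw [if_neg h0, if_neg h1, if_neg h2, if_neg h3, if_neg h4, if_neg h5, if_neg h6, if_neg h7, if_neg h8, if_pos h9]
  right; right; right; right; right; right; right; right; right; right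
  refine ⟨(i - (4 * t + 7)) / 4, by omega, by omega, ?_, ?_⟩
  · unfold wA; rw [if_neg h0, if_neg h1, if_neg h2, if_neg h3, if_neg h4, if_neg h5, if_neg h6, if_neg h7, if_neg h8, if_neg h9]
  · unfold sA; rw [if_neg h0, if_neg h1, if_neg h2, if_neg h3, if_neg h4, if_neg h5, if_neg h6, if_neg h7, if_neg h8, if_neg h9]

theorem pos_A {k : ℕ} (hk : 2 ≤ k) (t : ℕ) : Harmonious (cycleStar (2 * (4 * t + 4)) k) := by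
  apply of_even (N := 4 * t + 4) (by omega) hk (wA t) (sA t)
  · rfl
  · intro i hi
    have h := cA t i (by omega)
    push_cast
    rcases h with ⟨a1, a2, a3⟩ | ⟨ab, a1, a2, a3, a4⟩ | ⟨ab, a1, a2, a3, a4, a5⟩ | ⟨a1, a2, a3⟩ | ⟨a1, a2, a3⟩ | ⟨a1, a2, a3⟩ | ⟨a1, a2, a3⟩ | ⟨ab, a1, a2, a3, a4⟩ | ⟨ab, a1, a2, a3, a4⟩ | ⟨ab, a1, a2, a3, a4⟩ | ⟨ab, a1, a2, a3, a4⟩ <;> omega
  · intro i j hi hj hij
    have h := cA t i (by omega)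
    have h' := cA t j (by omega)
    rcases h with ⟨a1, a2, a3⟩ | ⟨ab, a1, a2, a3, a4⟩ | ⟨ab, a1, a2, a3, a4, a5⟩ | ⟨a1, a2, a3⟩ | ⟨a1, a2, a3⟩ | ⟨a1, a2, a3⟩ | ⟨a1, a2, a3⟩ | ⟨ab, a1, a2, a3, a4⟩ | ⟨ab, a1, a2, a3, a4⟩ | ⟨ab, a1, a2, a3, a4⟩ | ⟨ab, a1, a2, a3, a4⟩ <;>
      rcases h' with ⟨c1, c2, c3⟩ | ⟨cb, c1, c2, c3, c4⟩ | ⟨cb, c1, c2, c3, c4, c5⟩ | ⟨c1, c2, c3⟩ | ⟨c1, c2, c3⟩ | ⟨c1, c2, c3⟩ | ⟨c1, c2, c3⟩ | ⟨cb, c1, c2, c3, c4⟩ | ⟨cb, c1, c2, c3, c4⟩ | ⟨cb, c1, c2, c3, c4⟩ | ⟨cb, c1, c2, c3, c4⟩ <;> omega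
  · intro i hi
    have h := cA t i (by omega)
    have h' := cA t (i + 1) (by omega)
    rcases h with ⟨a1, a2, a3⟩ | ⟨ab, a1, a2, a3, a4⟩ | ⟨ab, a1, a2, a3, a4, a5⟩ | ⟨a1, a2, a3⟩ | ⟨a1, a2, a3⟩ | ⟨a1, a2, a3⟩ | ⟨a1, a2, a3⟩ | ⟨ab, a1, a2, a3, a4⟩ | ⟨ab, a1, a2, a3, a4⟩ | ⟨ab, a1, a2, a3, a4⟩ | ⟨ab, a1, a2, a3, a4⟩ <;>
      rcases h' with ⟨c1, c2, c3⟩ | ⟨cb, c1, c2, c3, c4⟩ | ⟨cb, c1, c2, c3, c4, c5⟩ | ⟨c1, c2, c3⟩ | ⟨c1, c2, c3⟩ | ⟨c1, c2, c3⟩ | ⟨c1, c2, c3⟩ | ⟨cb, c1, c2, c3, c4⟩ | ⟨cb, c1, c2, c3, c4⟩ | ⟨cb, c1, c2, c3, c4⟩ | ⟨cb, c1, c2, c3, c4⟩ <;> omega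
  · have h := cA t (2 * (4 * t + 4) - 1) (by omega)
    rcases h with ⟨a1, a2, a3⟩ | ⟨ab, a1, a2, a3, a4⟩ | ⟨ab, a1, a2, a3, a4, a5⟩ | ⟨a1, a2, a3⟩ | ⟨a1, a2, a3⟩ | ⟨a1, a2, a3⟩ | ⟨a1, a2, a3⟩ | ⟨ab, a1, a2, a3, a4⟩ | ⟨ab, a1, a2, a3, a4⟩ | ⟨ab, a1, a2, a3, a4⟩ | ⟨ab, a1, a2, a3, a4⟩ <;> omega
  · intro i hi
    have h := cA t i (by omega)
    push_cast
    rcases h with ⟨a1, a2, a3⟩ | ⟨ab, a1, a2, a3, a4⟩ | ⟨ab, a1, a2, a3, a4, a5⟩ | ⟨a1, a2, a3⟩ | ⟨a1, a2, a3⟩ | ⟨a1, a2, a3⟩ | ⟨a1, a2, a3⟩ | ⟨ab, a1, a2, a3, a4⟩ | ⟨ab, a1, a2, a3, a4⟩ | ⟨ab, a1, a2, a3, a4⟩ | ⟨ab, a1, a2, a3, a4⟩ <;> omega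
  · intro i j hi hj hij
    have h := cA t i (by omega)
    have h' := cA t j (by omega)
    rcases h with ⟨a1, a2, a3⟩ | ⟨ab, a1, a2, a3, a4⟩ | ⟨ab, a1, a2, a3, a4, a5⟩ | ⟨a1, a2, a3⟩ | ⟨a1, a2, a3⟩ | ⟨a1, a2, a3⟩ | ⟨a1, a2, a3⟩ | ⟨ab, a1, a2, a3, a4⟩ | ⟨ab, a1, a2, a3, a4⟩ | ⟨ab, a1, a2, a3, a4⟩ | ⟨ab, a1, a2, a3, a4⟩ <;>
      rcases h' with ⟨c1, c2, c3⟩ | ⟨cb, c1, c2, c3, c4⟩ | ⟨cb, c1, c2, c3, c4, c5⟩ | ⟨c1, c2, c3⟩ | ⟨c1, c2, c3⟩ | ⟨c1, c2, c3⟩ | ⟨c1, c2, c3⟩ | ⟨cb, c1, c2, c3, c4⟩ | ⟨cb, c1, c2, c3, c4⟩ | ⟨cb, c1, c2, c3, c4⟩ | ⟨cb, c1, c2, c3, c4⟩ <;> omega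

/-- labels, class B -/
def wB (t i : ℕ) : ℤ :=
    if i = 0 then 0
    else if i < 4 * t + 10 ∧ i % 2 = 1 then 4 * (t : ℤ) + 10 - ((i / 2 : ℕ) : ℤ)
    else if i < 4 * t + 10 then -((i / 2 : ℕ) : ℤ) - 1
    else if i = 4 * t + 10 then -2 * (t : ℤ) - 6
    else if i = 4 * t + 11 then 2 * (t : ℤ) + 4
    else if i = 4 * t + 12 then 2 * (t : ℤ) + 5
    else if i = 4 * t + 13 then -2 * (t : ℤ) - 8
    else if i = 4 * t + 14 then 2 * (t : ℤ) + 3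
    else if i = 4 * t + 15 then -2 * (t : ℤ) - 7
    else if i = 4 * t + 16 then 2 * (t : ℤ) + 1
    else if i = 4 * t + 17 then -2 * (t : ℤ) - 9
    else if i = 4 * t + 18 then 2 * (t : ℤ) + 2
    else if i = 8 * t + 19 then -4 * (t : ℤ) - 11
    else if (i - (4 * t + 19)) % 4 = 0 then -2 * (t : ℤ) - 11 - 2 * (((i - (4 * t + 19)) / 4 : ℕ) : ℤ)
    else if (i - (4 * t + 19)) % 4 = 1 then 2 * (t : ℤ) - 1 - 2 * (((i - (4 * t + 19)) / 4 : ℕ) : ℤ)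
    else if (i - (4 * t + 19)) % 4 = 2 then -2 * (t : ℤ) - 10 - 2 * (((i - (4 * t + 19)) / 4 : ℕ) : ℤ)
    else 2 * (t : ℤ) - 2 * (((i - (4 * t + 19)) / 4 : ℕ) : ℤ)

/-- edge sums, class B -/
def sB (t i : ℕ) : ℤ :=
    if i = 0 then 4 * (t : ℤ) + 10
    else if i < 4 * t + 10 ∧ i % 2 = 1 then 4 * (t : ℤ) + 8 - 2 * ((i / 2 : ℕ) : ℤ)
    else if i < 4 * t + 10 then 4 * (t : ℤ) + 9 - 2 * ((i / 2 : ℕ) : ℤ)
    else if i = 4 * t + 10 then -2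
    else if i = 4 * t + 11 then 4 * (t : ℤ) + 9
    else if i = 4 * t + 12 then -3
    else if i = 4 * t + 13 then -5
    else if i = 4 * t + 14 then -4
    else if i = 4 * t + 15 then -6
    else if i = 4 * t + 16 then -8
    else if i = 4 * t + 17 then -7
    else if i = 4 * t + 18 then -9
    else if i = 8 * t + 19 then -4 * (t : ℤ) - 11
    else if (i - (4 * t + 19)) % 4 = 0 then -12 - 4 * (((i - (4 * t + 19)) / 4 : ℕ) : ℤ)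
    else if (i - (4 * t + 19)) % 4 = 1 then -11 - 4 * (((i - (4 * t + 19)) / 4 : ℕ) : ℤ)
    else if (i - (4 * t + 19)) % 4 = 2 then -10 - 4 * (((i - (4 * t + 19)) / 4 : ℕ) : ℤ)
    else -13 - 4 * (((i - (4 * t + 19)) / 4 : ℕ) : ℤ)

theorem cB (t i : ℕ) (hi : i < 8 * t + 20) :
    (i = 0 ∧ wB t i = 0 ∧ sB t i = 4 * (t : ℤ) + 10) ∨
    (∃ b : ℕ, i = 2 * b + 1 ∧ i < 4 * t + 10 ∧ wB t i = 4 * (t : ℤ) + 10 - (b : ℤ) ∧ sB t i = 4 * (t : ℤ) + 8 - 2 * (b : ℤ)) ∨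
    (∃ b : ℕ, i = 2 * b ∧ i < 4 * t + 10 ∧ 0 < i ∧ wB t i = -(b : ℤ) - 1 ∧ sB t i = 4 * (t : ℤ) + 9 - 2 * (b : ℤ)) ∨
    (i = 4 * t + 10 ∧ wB t i = -2 * (t : ℤ) - 6 ∧ sB t i = -2) ∨
    (i = 4 * t + 11 ∧ wB t i = 2 * (t : ℤ) + 4 ∧ sB t i = 4 * (t : ℤ) + 9) ∨
    (i = 4 * t + 12 ∧ wB t i = 2 * (t : ℤ) + 5 ∧ sB t i = -3) ∨
    (i = 4 * t + 13 ∧ wB t i = -2 * (t : ℤ) - 8 ∧ sB t i = -5) ∨
    (i = 4 * t + 14 ∧ wB t i = 2 * (t : ℤ) + 3 ∧ sB t i = -4) ∨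
    (i = 4 * t + 15 ∧ wB t i = -2 * (t : ℤ) - 7 ∧ sB t i = -6) ∨
    (i = 4 * t + 16 ∧ wB t i = 2 * (t : ℤ) + 1 ∧ sB t i = -8) ∨
    (i = 4 * t + 17 ∧ wB t i = -2 * (t : ℤ) - 9 ∧ sB t i = -7) ∨
    (i = 4 * t + 18 ∧ wB t i = 2 * (t : ℤ) + 2 ∧ sB t i = -9) ∨
    (i = 8 * t + 19 ∧ wB t i = -4 * (t : ℤ) - 11 ∧ sB t i = -4 * (t : ℤ) - 11) ∨
    (∃ b : ℕ, i = 4 * t + 19 + 4 * b ∧ b < t ∧ wB t i = -2 * (t : ℤ) - 11 - 2 * (b : ℤ) ∧ sB t i = -12 - 4 * (b : ℤ)) ∨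
    (∃ b : ℕ, i = 4 * t + 20 + 4 * b ∧ b < t ∧ wB t i = 2 * (t : ℤ) - 1 - 2 * (b : ℤ) ∧ sB t i = -11 - 4 * (b : ℤ)) ∨
    (∃ b : ℕ, i = 4 * t + 21 + 4 * b ∧ b < t ∧ wB t i = -2 * (t : ℤ) - 10 - 2 * (b : ℤ) ∧ sB t i = -10 - 4 * (b : ℤ)) ∨
    (∃ b : ℕ, i = 4 * t + 22 + 4 * b ∧ b < t ∧ wB t i = 2 * (t : ℤ) - 2 * (b : ℤ) ∧ sB t i = -13 - 4 * (b : ℤ)) := by
  by_cases h0 : i = 0
  · left
    refine ⟨by omega, ?_, ?_⟩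
    · unfold wB; rw [if_pos h0]
    · unfold sB; rw [if_pos h0]
  by_cases h1 : i < 4 * t + 10 ∧ i % 2 = 1
  · right; left
    refine ⟨i / 2, by omega, by omega, ?_, ?_⟩
    · unfold wB; rw [if_neg h0, if_pos h1]
    · unfold sB; rw [if_neg h0, if_pos h1]
  by_cases h2 : i < 4 * t + 10
  · right; right; left
    refine ⟨i / 2, by omega, by omega, by omega, ?_, ?_⟩
    · unfold wB; rw [if_neg h0, if_neg h1, if_pos h2]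
    · unfold sB; rw [if_neg h0, if_neg h1, if_pos h2]
  by_cases h3 : i = 4 * t + 10
  · right; right; right; left
    refine ⟨by omega, ?_, ?_⟩
    · unfold wB; rw [if_neg h0, if_neg h1, if_neg h2, if_pos h3]
    · unfold sB; rw [if_neg h0, if_neg h1, if_neg h2, if_pos h3]
  by_cases h4 : i = 4 * t + 11
  · right; right; right; right; left
    refine ⟨by omega, ?_, ?_⟩
    · unfold wB; rw [if_neg h0, if_neg h1, if_neg h2, if_neg h3, if_pos h4]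
    · unfold sB; rw [if_neg h0, if_neg h1, if_neg h2, if_neg h3, if_pos h4]
  by_cases h5 : i = 4 * t + 12
  · right; right; right; right; right; left
    refine ⟨by omega, ?_, ?_⟩
    · unfold wB; rw [if_neg h0, if_neg h1, if_neg h2, if_neg h3, if_neg h4, if_pos h5]
    · unfold sB; rw [if_neg h0, if_neg h1, if_neg h2, if_neg h3, if_neg h4, if_pos h5]
  by_cases h6 : i = 4 * t + 13
  · right; right; right; right; right; right; left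
    refine ⟨by omega, ?_, ?_⟩
    · unfold wB; rw [if_neg h0, if_neg h1, if_neg h2, if_neg h3, if_neg h4, if_neg h5, if_pos h6]
    · unfold sB; rw [if_neg h0, if_neg h1, if_neg h2, if_neg h3, if_neg h4, if_neg h5, if_pos h6]
  by_cases h7 : i = 4 * t + 14
  · right; right; right; right; right; right; right; left
    refine ⟨by omega, ?_, ?_⟩
    · unfold wB; rw [if_neg h0, if_neg h1, if_neg h2, if_neg h3, if_neg h4, if_neg h5, if_neg h6, if_pos h7]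
    · unfold sB; rw [if_neg h0, if_neg h1, if_neg h2, if_neg h3, if_neg h4, if_neg h5, if_neg h6, if_pos h7]
  by_cases h8 : i = 4 * t + 15
  · right; right; right; right; right; right; right; right; left
    refine ⟨by omega, ?_, ?_⟩
    · unfold wB; rw [if_neg h0, if_neg h1, if_neg h2, if_neg h3, if_neg h4, if_neg h5, if_neg h6, if_neg h7, if_pos h8]
    · unfold sB; rw [if_neg h0, if_neg h1, if_neg h2, if_neg h3, if_neg h4, if_neg h5, if_neg h6, if_neg h7, if_pos h8]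
  by_cases h9 : i = 4 * t + 16
  · right; right; right; right; right; right; right; right; right; left
    refine ⟨by omega, ?_, ?_⟩
    · unfold wB; rw [if_neg h0, if_neg h1, if_neg h2, if_neg h3, if_neg h4, if_neg h5, if_neg h6, if_neg h7, if_neg h8, if_pos h9]
    · unfold sB; rw [if_neg h0, if_neg h1, if_neg h2, if_neg h3, if_neg h4, if_neg h5, if_neg h6, if_neg h7, if_neg h8, if_pos h9]
  by_cases h10 : i = 4 * t + 17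
  · right; right; right; right; right; right; right; right; right; right; left
    refine ⟨by omega, ?_, ?_⟩
    · unfold wB; rw [if_neg h0, if_neg h1, if_neg h2, if_neg h3, if_neg h4, if_neg h5, if_neg h6, if_neg h7, if_neg h8, if_neg h9, if_pos h10]
    · unfold sB; rw [if_neg h0, if_neg h1, if_neg h2, if_neg h3, if_neg h4, if_neg h5, if_neg h6, if_neg h7, if_neg h8, if_neg h9, if_pos h10]
  by_cases h11 : i = 4 * t + 18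
  · right; right; right; right; right; right; right; right; right; right; right; left
    refine ⟨by omega, ?_, ?_⟩
    · unfold wB; rw [if_neg h0, if_neg h1, if_neg h2, if_neg h3, if_neg h4, if_neg h5, if_neg h6, if_neg h7, if_neg h8, if_neg h9, if_neg h10, if_pos h11]
    · unfold sB; rw [if_neg h0, if_neg h1, if_neg h2, if_neg h3, if_neg h4, if_neg h5, if_neg h6, if_neg h7, if_neg h8, if_neg h9, if_neg h10, if_pos h11]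
  by_cases h12 : i = 8 * t + 19
  · right; right; right; right; right; right; right; right; right; right; right; right; left
    refine ⟨by omega, ?_, ?_⟩
    · unfold wB; rw [if_neg h0, if_neg h1, if_neg h2, if_neg h3, if_neg h4, if_neg h5, if_neg h6, if_neg h7, if_neg h8, if_neg h9, if_neg h10, if_neg h11, if_pos h12]
    · unfold sB; rw [if_neg h0, if_neg h1, if_neg h2, if_neg h3, if_neg h4, if_neg h5, if_neg h6, if_neg h7, if_neg h8, if_neg h9, if_neg h10, if_neg h11, if_pos h12]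
  by_cases h13 : (i - (4 * t + 19)) % 4 = 0
  · right; right; right; right; right; right; right; right; right; right; right; right; right; left
    refine ⟨(i - (4 * t + 19)) / 4, by omega, by omega, ?_, ?_⟩
    · unfold wB; rw [if_neg h0, if_neg h1, if_neg h2, if_neg h3, if_neg h4, if_neg h5, if_neg h6, if_neg h7, if_neg h8, if_neg h9, if_neg h10, if_neg h11, if_neg h12, if_pos h13]
    · unfold sB; rw [if_neg h0, if_neg h1, if_neg h2, if_neg h3, if_neg h4, if_neg h5, if_neg h6, if_neg h7, if_neg h8, if_neg h9, if_neg h10, if_neg h11, if_neg h12, if_pos h13]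
  by_cases h14 : (i - (4 * t + 19)) % 4 = 1
  · right; right; right; right; right; right; right; right; right; right; right; right; right; right; left
    refine ⟨(i - (4 * t + 19)) / 4, by omega, by omega, ?_, ?_⟩
    · unfold wB; rw [if_neg h0, if_neg h1, if_neg h2, if_neg h3, if_neg h4, if_neg h5, if_neg h6, if_neg h7, if_neg h8, if_neg h9, if_neg h10, if_neg h11, if_neg h12, if_neg h13, if_pos h14]
    · unfold sB; rw [if_neg h0, if_neg h1, if_neg h2, if_neg h3, if_neg h4, if_neg h5, if_neg h6, if_neg h7, if_neg h8, if_neg h9, if_neg h10, if_neg h11, if_neg h12, if_neg h13, if_pos h14]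
  by_cases h15 : (i - (4 * t + 19)) % 4 = 2
  · right; right; right; right; right; right; right; right; right; right; right; right; right; right; right; left
    refine ⟨(i - (4 * t + 19)) / 4, by omega, by omega, ?_, ?_⟩
    · unfold wB; rw [if_neg h0, if_neg h1, if_neg h2, if_neg h3, if_neg h4, if_neg h5, if_neg h6, if_neg h7, if_neg h8, if_neg h9, if_neg h10, if_neg h11, if_neg h12, if_neg h13, if_neg h14, if_pos h15]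
    · unfold sB; rw [if_neg h0, if_neg h1, if_neg h2, if_neg h3, if_neg h4, if_neg h5, if_neg h6, if_neg h7, if_neg h8, if_neg h9, if_neg h10, if_neg h11, if_neg h12, if_neg h13, if_neg h14, if_pos h15]
  right; right; right; right; right; right; right; right; right; right; right; right; right; right; right; right
  refine ⟨(i - (4 * t + 19)) / 4, by omega, by omega, ?_, ?_⟩
  · unfold wB; rw [if_neg h0, if_neg h1, if_neg h2, if_neg h3, if_neg h4, if_neg h5, if_neg h6, if_neg h7, if_neg h8, if_neg h9, if_neg h10, if_neg h11, if_neg h12, if_neg h13, if_neg h14, if_neg h15]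
  · unfold sB; rw [if_neg h0, if_neg h1, if_neg h2, if_neg h3, if_neg h4, if_neg h5, if_neg h6, if_neg h7, if_neg h8, if_neg h9, if_neg h10, if_neg h11, if_neg h12, if_neg h13, if_neg h14, if_neg h15]

theorem pos_B {k : ℕ} (hk : 2 ≤ k) (t : ℕ) : Harmonious (cycleStar (2 * (4 * t + 10)) k) := by
  apply of_even (N := 4 * t + 10) (by omega) hk (wB t) (sB t)
  · rfl
  · intro i hi
    have h := cB t i (by omega)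
    push_cast
    rcases h with ⟨a1, a2, a3⟩ | ⟨ab, a1, a2, a3, a4⟩ | ⟨ab, a1, a2, a3, a4, a5⟩ | ⟨a1, a2, a3⟩ | ⟨a1, a2, a3⟩ | ⟨a1, a2, a3⟩ | ⟨a1, a2, a3⟩ | ⟨a1, a2, a3⟩ | ⟨a1, a2, a3⟩ | ⟨a1, a2, a3⟩ | ⟨a1, a2, a3⟩ | ⟨a1, a2, a3⟩ | ⟨a1, a2, a3⟩ | ⟨ab, a1, a2, a3, a4⟩ | ⟨ab, a1, a2, a3, a4⟩ | ⟨ab, a1, a2, a3, a4⟩ | ⟨ab, a1, a2, a3, a4⟩ <;> omega
  · intro i j hi hj hij
    have h := cB t i (by omega)
    have h' := cB t j (by omega)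
    rcases h with ⟨a1, a2, a3⟩ | ⟨ab, a1, a2, a3, a4⟩ | ⟨ab, a1, a2, a3, a4, a5⟩ | ⟨a1, a2, a3⟩ | ⟨a1, a2, a3⟩ | ⟨a1, a2, a3⟩ | ⟨a1, a2, a3⟩ | ⟨a1, a2, a3⟩ | ⟨a1, a2, a3⟩ | ⟨a1, a2, a3⟩ | ⟨a1, a2, a3⟩ | ⟨a1, a2, a3⟩ | ⟨a1, a2, a3⟩ | ⟨ab, a1, a2, a3, a4⟩ | ⟨ab, a1, a2, a3, a4⟩ | ⟨ab, a1, a2, a3, a4⟩ | ⟨ab, a1, a2, a3, a4⟩ <;>
      rcases h' with ⟨c1, c2, c3⟩ | ⟨cb, c1, c2, c3, c4⟩ | ⟨cb, c1, c2, c3, c4, c5⟩ | ⟨c1, c2, c3⟩ | ⟨c1, c2, c3⟩ | ⟨c1, c2, c3⟩ | ⟨c1, c2, c3⟩ | ⟨c1, c2, c3⟩ | ⟨c1, c2, c3⟩ | ⟨c1, c2, c3⟩ | ⟨c1, c2, c3⟩ | ⟨c1, c2, c3⟩ | ⟨c1, c2, c3⟩ | ⟨cb, c1, c2, c3, c4⟩ | ⟨cb, c1, c2, c3, c4⟩ | ⟨cb, c1, c2, c3, c4⟩ | ⟨cb, c1, c2, c3, c4⟩ <;> omega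
  · intro i hi
    have h := cB t i (by omega)
    have h' := cB t (i + 1) (by omega)
    rcases h with ⟨a1, a2, a3⟩ | ⟨ab, a1, a2, a3, a4⟩ | ⟨ab, a1, a2, a3, a4, a5⟩ | ⟨a1, a2, a3⟩ | ⟨a1, a2, a3⟩ | ⟨a1, a2, a3⟩ | ⟨a1, a2, a3⟩ | ⟨a1, a2, a3⟩ | ⟨a1, a2, a3⟩ | ⟨a1, a2, a3⟩ | ⟨a1, a2, a3⟩ | ⟨a1, a2, a3⟩ | ⟨a1, a2, a3⟩ | ⟨ab, a1, a2, a3, a4⟩ | ⟨ab, a1, a2, a3, a4⟩ | ⟨ab, a1, a2, a3, a4⟩ | ⟨ab, a1, a2, a3, a4⟩ <;>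
      rcases h' with ⟨c1, c2, c3⟩ | ⟨cb, c1, c2, c3, c4⟩ | ⟨cb, c1, c2, c3, c4, c5⟩ | ⟨c1, c2, c3⟩ | ⟨c1, c2, c3⟩ | ⟨c1, c2, c3⟩ | ⟨c1, c2, c3⟩ | ⟨c1, c2, c3⟩ | ⟨c1, c2, c3⟩ | ⟨c1, c2, c3⟩ | ⟨c1, c2, c3⟩ | ⟨c1, c2, c3⟩ | ⟨c1, c2, c3⟩ | ⟨cb, c1, c2, c3, c4⟩ | ⟨cb, c1, c2, c3, c4⟩ | ⟨cb, c1, c2, c3, c4⟩ | ⟨cb, c1, c2, c3, c4⟩ <;> omega
  · have h := cB t (2 * (4 * t + 10) - 1) (by omega)
    rcases h with ⟨a1, a2, a3⟩ | ⟨ab, a1, a2, a3, a4⟩ | ⟨ab, a1, a2, a3, a4, a5⟩ | ⟨a1, a2, a3⟩ | ⟨a1, a2, a3⟩ | ⟨a1, a2, a3⟩ | ⟨a1, a2, a3⟩ | ⟨a1, a2, a3⟩ | ⟨a1, a2, a3⟩ | ⟨a1, a2, a3⟩ | ⟨a1, a2, a3⟩ | ⟨a1, a2, a3⟩ | ⟨a1, a2, a3⟩ | ⟨ab, a1, a2, a3, a4⟩ | ⟨ab, a1, a2, a3, a4⟩ | ⟨ab, a1, a2, a3, a4⟩ | ⟨ab, a1, a2, a3, a4⟩ <;> omega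
  · intro i hi
    have h := cB t i (by omega)
    push_cast
    rcases h with ⟨a1, a2, a3⟩ | ⟨ab, a1, a2, a3, a4⟩ | ⟨ab, a1, a2, a3, a4, a5⟩ | ⟨a1, a2, a3⟩ | ⟨a1, a2, a3⟩ | ⟨a1, a2, a3⟩ | ⟨a1, a2, a3⟩ | ⟨a1, a2, a3⟩ | ⟨a1, a2, a3⟩ | ⟨a1, a2, a3⟩ | ⟨a1, a2, a3⟩ | ⟨a1, a2, a3⟩ | ⟨a1, a2, a3⟩ | ⟨ab, a1, a2, a3, a4⟩ | ⟨ab, a1, a2, a3, a4⟩ | ⟨ab, a1, a2, a3, a4⟩ | ⟨ab, a1, a2, a3, a4⟩ <;> omega
  · intro i j hi hj hij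
    have h := cB t i (by omega)
    have h' := cB t j (by omega)
    rcases h with ⟨a1, a2, a3⟩ | ⟨ab, a1, a2, a3, a4⟩ | ⟨ab, a1, a2, a3, a4, a5⟩ | ⟨a1, a2, a3⟩ | ⟨a1, a2, a3⟩ | ⟨a1, a2, a3⟩ | ⟨a1, a2, a3⟩ | ⟨a1, a2, a3⟩ | ⟨a1, a2, a3⟩ | ⟨a1, a2, a3⟩ | ⟨a1, a2, a3⟩ | ⟨a1, a2, a3⟩ | ⟨a1, a2, a3⟩ | ⟨ab, a1, a2, a3, a4⟩ | ⟨ab, a1, a2, a3, a4⟩ | ⟨ab, a1, a2, a3, a4⟩ | ⟨ab, a1, a2, a3, a4⟩ <;>
      rcases h' with ⟨c1, c2, c3⟩ | ⟨cb, c1, c2, c3, c4⟩ | ⟨cb, c1, c2, c3, c4, c5⟩ | ⟨c1, c2, c3⟩ | ⟨c1, c2, c3⟩ | ⟨c1, c2, c3⟩ | ⟨c1, c2, c3⟩ | ⟨c1, c2, c3⟩ | ⟨c1, c2, c3⟩ | ⟨c1, c2, c3⟩ | ⟨c1, c2, c3⟩ | ⟨c1, c2, c3⟩ | ⟨c1, c2, c3⟩ | ⟨cb, c1, c2, c3, c4⟩ | ⟨cb, c1, c2, c3, c4⟩ | ⟨cb, c1, c2, c3, c4⟩ | ⟨cb, c1, c2, c3, c4⟩ <;> omega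

end Pool.Agent.Results.MP_3c38ca_co.CycleWithStar
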